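import Mathlib
import Pool.Agent.H.MP_6c077c_gt.CG.Defs
import Pool.Agent.H.MP_6c077c_gt.Ix.TubeA
import Pool.Agent.H.MP_6c077c_gt.Ix.Dz

/-! Index theorem, second half: definitions.  All auxiliary domains are described by functions of
the height `⟪e, x⟫` and of the square `qd e x` of the distance to the line of `e`. -/

set_option autoImplicit false

namespace Pool.Schoen

open scoped ContDiff RealInnerProductSpace

section

variable {V : Type*} [NormedAddCommGroup V] [InnerProductSpace ℝ V]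

/-- Square of the distance to the line of `e`. -/
noncomputable def qd (e x : V) : ℝ := ‖orth e x‖ ^ 2

/-- `A h + B q + C`, `h` the height, `q = qd e x`. -/
noncomputable def lf (e : V) (A B C : ℝ) (x : V) : ℝ := A * ⟪e, x⟫ + B * qd e x + C

/-- `{F ≥ 0}` in the bowl `c + δ q ≤ h` below the round top `h + q ≤ a`. -/
noncomputable def capF (F : V → ℝ) (e : V) (c δ a : ℝ) (x : V) : ℝ :=
  max (-F x) (max (lf e (-1) δ c x) (lf e 1 1 (-a) x))

/-- `{F ≥ 0}` in the bowl `c + δ q ≤ h` below the flat top `h ≤ a`. -/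
noncomputable def flatF (F : V → ℝ) (e : V) (c δ a : ℝ) (x : V) : ℝ :=
  max (-F x) (max (lf e (-1) δ c x) (lf e 1 0 (-a) x))

/-- The large bowl `δ q - 1 ≤ h ≤ s`. -/
noncomputable def boxF (e : V) (δ s : ℝ) (x : V) : ℝ := max (lf e (-1) δ (-1) x) (lf e 1 0 (-s) x)

/-- The large bowl with ceiling `s` without the interior of `{flatF ≤ 0}` and without the interior
of the vertical tunnel `a₁ ≤ h ≤ b₁`, `q ≤ r²`. -/
noncomputable def tunF (F : V → ℝ) (e : V) (c δ a a₁ b₁ r s : ℝ) (x : V) : ℝ :=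
  max (max (min (F x) (min (lf e 1 (-δ) (-c) x) (lf e (-1) 0 a x)))
    (min (min (lf e 1 0 (-a₁) x) (lf e (-1) 0 b₁ x)) (lf e 0 (-1) (r ^ 2) x))) (boxF e δ s x)

/-- `{F ≤ 0}` together with the wall `δ q - 1 ≤ h ≤ min (c + δ q) s`. -/
noncomputable def wallF (F : V → ℝ) (e : V) (c δ s : ℝ) (x : V) : ℝ :=
  min (F x) (max (lf e (-1) δ (-1) x) (max (lf e 1 (-δ) (-c) x) (lf e 1 0 (-s) x)))

/-- `{F ≤ 0}` together with the plate `d + K q ≤ h ≤ c`. -/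
noncomputable def plateF (F : V → ℝ) (e : V) (c K d : ℝ) (x : V) : ℝ :=
  min (F x) (max (lf e (-1) K d x) (lf e 1 0 (-c) x))

end

variable {V : Type*} [NormedAddCommGroup V] [InnerProductSpace ℝ V] [FiniteDimensional ℝ V]

/-- The origin is the strict lowest point of `{F ≤ 0}`, and the constants are adapted to `F`. -/
structure Bot (F : V → ℝ) (e : V) (c h₀ δ a₀ : ℝ) : Prop where
  smooth : ContDiff ℝ ∞ F
  bdd : Bornology.IsBounded {x | F x ≤ 0}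
  reg : ∀ x, F x = 0 → gradient F x ≠ 0
  unit : ‖e‖ = 1
  c_pos : 0 < c
  c_lt : c < h₀
  h_lt : h₀ < a₀
  δ_pos : 0 < δ
  top : ∀ x, F x ≤ 0 → ⟪e, x⟫ + qd e x < a₀
  flat : ∀ x, F x ≤ 0 → δ * qd e x < 1
  strict : ∀ x, F x ≤ 0 → x ≠ 0 → 0 < ⟪e, x⟫
  low : ∀ x, F x ≤ 0 → ⟪e, x⟫ ≤ h₀ → fderiv ℝ F x e < 0
  rad : ∀ x, F x = 0 → x ≠ 0 → ⟪e, x⟫ ≤ h₀ → 0 < fderiv ℝ F x (orth e x)
  axis : ∀ t : ℝ, 0 < t → t ≤ h₀ → F (t • e) < 0
  bowl : ∀ x, F x ≤ 0 → ⟪e, x⟫ ≤ c + δ * qd e x → ⟪e, x⟫ ≤ h₀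
  trans : ∀ x, F x = 0 → ⟪e, x⟫ = c + δ * qd e x → ∃ ε : ℝ, 0 < ε ∧ 2 * δ * qd e x < ε ∧
    ε * -(fderiv ℝ F x e) < fderiv ℝ F x (orth e x)

end Pool.Schoen
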