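import Mathlib
import Pool.Agent.H.MP_6c077c_gt.IxC.Defs
import Pool.Agent.H.MP_6c077c_gt.Ix.HomB

/-! Index theorem, second half: elementary facts on the functions `lf`. -/

set_option autoImplicit false

namespace Pool.Schoen

open Filter Set
open scoped Topology ContDiff RealInnerProductSpace

variable {V : Type*} [NormedAddCommGroup V] [InnerProductSpace ℝ V] {e : V}

theorem qd_nonneg (e x : V) : 0 ≤ qd e x := sq_nonneg _

/-- `‖x‖² = h² + q` (`norm_sq_orth`). -/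
theorem norm_sq_qd (he : ‖e‖ = 1) (x : V) : ‖x‖ ^ 2 = ⟪e, x⟫ ^ 2 + qd e x := norm_sq_orth he x

theorem inner_smul_unit (he : ‖e‖ = 1) (t : ℝ) : ⟪e, t • e⟫ = t := by
  rw [real_inner_smul_right, real_inner_self_eq_norm_sq, he]
  ring

theorem qd_smul_unit (he : ‖e‖ = 1) (t : ℝ) : qd e (t • e) = 0 := by
  unfold qd orth
  rw [inner_smul_unit he, sub_self, norm_zero]
  norm_num

/-- A point with `q = 0` is on the axis. -/
theorem eq_of_qd_zero (x : V) (h : qd e x = 0) : x = ⟪e, x⟫ • e := by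
  unfold qd orth at h
  have h1 : ‖x - ⟪e, x⟫ • e‖ = 0 := by
    rwa [sq_eq_zero_iff] at h
  exact sub_eq_zero.1 (norm_eq_zero.1 h1)

theorem lf_neg (A B C : ℝ) (x : V) : -lf e A B C x = lf e (-A) (-B) (-C) x := by
  unfold lf
  ring

theorem lf_smul_unit (he : ‖e‖ = 1) (A B C t : ℝ) : lf e A B C (t • e) = A * t + C := by
  unfold lf
  rw [inner_smul_unit he, qd_smul_unit he]
  ring

theorem lf_continuous (A B C : ℝ) : Continuous (lf e A B C) := by
  unfold lf qd orth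
  fun_prop

/-- Joint continuity (`contDiff_orth` or unfold `orth`; `fun_prop`). -/
theorem lf_continuous' {A B C : ℝ → ℝ} (hA : Continuous A) (hB : Continuous B)
    (hC : Continuous C) : Continuous fun p : ℝ × V => lf e (A p.1) (B p.1) (C p.1) p.2 := by
  unfold lf qd orth
  fun_prop

theorem lf_contDiff (A B C : ℝ) : ContDiff ℝ ∞ (lf e A B C) := by
  have h1 : ContDiff ℝ ∞ (orth e) := (contDiff_orth e).of_le le_top
  have h2 : ContDiff ℝ ∞ (fun x : V => ⟪e, x⟫) := contDiff_const.inner ℝ contDiff_id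
  have h3 : ContDiff ℝ ∞ (fun x : V => ‖orth e x‖ ^ 2) := h1.norm_sq ℝ
  unfold lf qd
  exact ((contDiff_const.mul h2).add (contDiff_const.mul h3)).add contDiff_const

/-- The linear part. -/
noncomputable def Leaf_L (e : V) : V →L[ℝ] V :=
  ContinuousLinearMap.id ℝ V - (innerSL ℝ e).smulRight e

theorem Leaf_L_apply (e x : V) : Leaf_L e x = orth e x := by
  simp [Leaf_L, orth]

theorem Leaf_orth_add (e x y : V) : orth e (x + y) = orth e x + orth e y := by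
  rw [← Leaf_L_apply, ← Leaf_L_apply, ← Leaf_L_apply, map_add]

theorem Leaf_orth_smul (e : V) (a : ℝ) (x : V) : orth e (a • x) = a • orth e x := by
  rw [← Leaf_L_apply, ← Leaf_L_apply, map_smul]

/-- `qd e` is convex: the square of the norm of a linear map. -/
theorem lf_convex (A C : ℝ) {B : ℝ} (hB : 0 ≤ B) : ConvexOn ℝ univ (lf e A B C) := by
  have h4 : ConvexOn ℝ univ (fun z : V => ‖z‖ ^ 2) :=
    (convexOn_norm convex_univ).pow (fun _ _ => norm_nonneg _) 2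
  refine ⟨convex_univ, fun x _ y _ a b ha hb hab => ?_⟩
  have h5 := h4.2 (mem_univ (orth e x)) (mem_univ (orth e y)) ha hb hab
  simp only [smul_eq_mul] at h5 ⊢
  unfold lf qd
  rw [Leaf_orth_add, Leaf_orth_smul, Leaf_orth_smul, inner_add_right, real_inner_smul_right,
    real_inner_smul_right]
  have h6 := mul_le_mul_of_nonneg_left h5 hB
  have h7 : C = (a + b) * C := by rw [hab, one_mul]
  nlinarith

/-- The increment of `lf`. -/
theorem Leaf_step (A B C s : ℝ) (y w : V) : lf e A B C (y + s • w) = lf e A B C y +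
    s * (A * ⟪e, w⟫ + 2 * B * ⟪orth e y, orth e w⟫ + s * B * qd e w) := by
  unfold lf qd
  rw [Leaf_orth_add, Leaf_orth_smul, inner_add_right, real_inner_smul_right, norm_add_sq_real,
    real_inner_smul_right, norm_smul, mul_pow, Real.norm_eq_abs, sq_abs]
  ring

/-- Descent directions.

PROOF.  Let `v = α • orth e x + β • e`.  For `y`, `w` and `s`:
`⟪e, y + s • w⟫ = ⟪e, y⟫ + s ⟪e, w⟫` and
`qd e (y + s • w) = qd e y + 2 s ⟪orth e y, orth e w⟫ + s² qd e w` (`orth e` is linear), so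
`lf (y + s w) - lf y = s (A ⟪e, w⟫ + 2 B ⟪orth e y, orth e w⟫ + s B qd e w)` (coefficients at the
parameter).  The bracket tends to `A t β + 2 B t α qd e x < 0` (`⟪e, v⟫ = β` as `⟪e, orth e x⟫ = 0`,
`orth e v = α • orth e x`) when the parameter tends to `t`, `y → x`, `w → v`, `s → 0`; let this be
`-2 c`; eventually the bracket is `≤ -c`. -/
theorem dz_lf (he : ‖e‖ = 1) {A B : ℝ → ℝ} (C : ℝ → ℝ) (hA : Continuous A) (hB : Continuous B)
    (t : ℝ) (x : V) (α β : ℝ)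
    (h : lf e (A t) (B t) (C t) x = 0 → A t * β + 2 * α * B t * qd e x < 0) :
    DZ (fun s => lf e (A s) (B s) (C s)) t x (α • orth e x + β • e) := by
  intro h0
  have hneg := h h0
  set v : V := α • orth e x + β • e with hv
  have hev : ⟪e, v⟫ = β := by
    rw [hv, inner_add_right, real_inner_smul_right, inner_orth he, inner_smul_unit he]
    ring
  have hoe : orth e e = 0 := by
    unfold orth
    rw [real_inner_self_eq_norm_sq, he]
    norm_num
  have hoo : orth e (orth e x) = orth e x := by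
    have h1 : orth e (orth e x) = orth e x - ⟪e, orth e x⟫ • e := rfl
    rw [h1, inner_orth he, zero_smul, sub_zero]
  have hov : orth e v = α • orth e x := by
    rw [hv, Leaf_orth_add, Leaf_orth_smul, Leaf_orth_smul, hoe, smul_zero, add_zero, hoo]
  let φ : ℝ × (V × (V × ℝ)) → ℝ := fun q => A q.1 * ⟪e, q.2.2.1⟫ +
    2 * B q.1 * ⟪orth e q.2.1, orth e q.2.2.1⟫ + q.2.2.2 * B q.1 * qd e q.2.2.1
  have hφ : Continuous φ := by
    show Continuous fun q : ℝ × (V × (V × ℝ)) => A q.1 * ⟪e, q.2.2.1⟫ +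
      2 * B q.1 * ⟪orth e q.2.1, orth e q.2.2.1⟫ + q.2.2.2 * B q.1 * qd e q.2.2.1
    unfold qd orth
    fun_prop
  have hφ0 : φ (t, (x, (v, 0))) = A t * β + 2 * α * B t * qd e x := by
    show A t * ⟪e, v⟫ + 2 * B t * ⟪orth e x, orth e v⟫ + 0 * B t * qd e v = _
    rw [hev, hov, real_inner_smul_right, real_inner_self_eq_norm_sq]
    unfold qd
    ring
  set c : ℝ := -(A t * β + 2 * α * B t * qd e x) / 2 with hc
  have hc0 : 0 < c := by
    rw [hc]
    linarith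
  refine ⟨c, hc0, ?_⟩
  have hl : 𝓝[Icc (0 : ℝ) 1] t ×ˢ (𝓝 x ×ˢ (𝓝 v ×ˢ 𝓝[>] (0 : ℝ))) ≤
      𝓝 ((t, (x, (v, 0))) : ℝ × (V × (V × ℝ))) := by
    rw [nhds_prod_eq, nhds_prod_eq, nhds_prod_eq]
    exact Filter.prod_mono nhdsWithin_le_nhds (Filter.prod_mono le_rfl
      (Filter.prod_mono le_rfl nhdsWithin_le_nhds))
  have hlt : φ (t, (x, (v, 0))) < -c := by
    rw [hφ0, hc]
    linarith
  have h1 : ∀ᶠ q in 𝓝[Icc (0 : ℝ) 1] t ×ˢ (𝓝 x ×ˢ (𝓝 v ×ˢ 𝓝[>] (0 : ℝ))), φ q < -c :=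
    hl (hφ.continuousAt.eventually_lt continuousAt_const hlt)
  have h2 : ∀ᶠ q : ℝ × (V × (V × ℝ)) in 𝓝[Icc (0 : ℝ) 1] t ×ˢ (𝓝 x ×ˢ (𝓝 v ×ˢ 𝓝[>] (0 : ℝ))),
      0 < q.2.2.2 := by
    have h3 : Tendsto (fun q : ℝ × (V × (V × ℝ)) => q.2.2.2)
        (𝓝[Icc (0 : ℝ) 1] t ×ˢ (𝓝 x ×ˢ (𝓝 v ×ˢ 𝓝[>] (0 : ℝ)))) (𝓝[>] (0 : ℝ)) :=
      tendsto_snd.comp (tendsto_snd.comp tendsto_snd)
    exact h3.eventually (eventually_mem_of_tendsto_nhdsWithin tendsto_id)
  filter_upwards [h1, h2] with q h3 h4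
  show lf e (A q.1) (B q.1) (C q.1) (q.2.1 + q.2.2.2 • q.2.2.1) ≤
    lf e (A q.1) (B q.1) (C q.1) q.2.1 - c * q.2.2.2
  rw [Leaf_step]
  have h5 : q.2.2.2 * φ q ≤ q.2.2.2 * -c := mul_le_mul_of_nonneg_left h3.le h4.le
  have h6 : q.2.2.2 * φ q = q.2.2.2 * (A q.1 * ⟪e, q.2.2.1⟫ +
    2 * B q.1 * ⟪orth e q.2.1, orth e q.2.2.1⟫ + q.2.2.2 * B q.1 * qd e q.2.2.1) := rfl
  linarith

/-- The static version. -/
theorem dz1_lf (he : ‖e‖ = 1) (A B C : ℝ) (x : V) (α β : ℝ)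
    (h : lf e A B C x = 0 → A * β + 2 * α * B * qd e x < 0) :
    DZ1 (lf e A B C) x (α • orth e x + β • e) := by
  intro h0
  have h1 := dz_lf he (A := fun _ => A) (B := fun _ => B) (fun _ => C) continuous_const
    continuous_const 0 x α β h h0
  have h2 : Tendsto (fun _ : Unit => (0 : ℝ)) ⊤ (𝓝[Icc (0 : ℝ) 1] 0) := by
    have h3 : pure (0 : ℝ) ≤ 𝓝[Icc (0 : ℝ) 1] 0 := pure_le_nhdsWithin (by simp)
    exact tendsto_const_pure.mono_right h3
  exact h1.comp h2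

/-- A `C¹` function (`desc1_smooth`, `dz_static`). -/
theorem dz_fun {F : V → ℝ} (hF : ContDiff ℝ ∞ F) (t : ℝ) {x v : V}
    (h : F x = 0 → fderiv ℝ F x v < 0) : DZ (fun _ => F) t x v := by
  apply dz_static
  intro h0
  exact desc1_smooth ((hF.of_le (by simp)).contDiffAt) (h h0)

/-- Assembling a homotopy: `DZ` gives `Desc` at the zeros. -/
theorem hom_of_dz (H : ℝ → V → ℝ) (hc : Continuous fun p : ℝ × V => H p.1 p.2)
    (hb : ∃ R : ℝ, ∀ t ∈ Icc (0 : ℝ) 1, ∀ x, H t x = 0 → ‖x‖ ≤ R)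
    (hd : ∀ t ∈ Icc (0 : ℝ) 1, ∀ x, H t x = 0 → ∃ v, DZ H t x v) : Hom (H 0) (H 1) := by
  refine ⟨H, hc, rfl, rfl, hb, fun t ht x hx => ?_⟩
  obtain ⟨v, hv⟩ := hd t ht x hx
  exact ⟨v, hv hx⟩

/-- The large bowl is bounded: `-1 ≤ h ≤ s`, `q ≤ (s + 1) / δ`, `norm_sq_qd`. -/
theorem bowl_bdd (he : ‖e‖ = 1) {δ : ℝ} (hδ : 0 < δ) (s : ℝ) :
    ∃ R : ℝ, ∀ x : V, lf e (-1) δ (-1) x ≤ 0 → ⟪e, x⟫ ≤ s → ‖x‖ ≤ R := by
  refine ⟨1 + (s ^ 2 + 1) + |s + 1| / δ, fun x h1 h2 => ?_⟩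
  unfold lf at h1
  have h3 := qd_nonneg e x
  have h4 : 0 ≤ δ * qd e x := by positivity
  have h5 : -1 ≤ ⟪e, x⟫ := by linarith
  have h6 : qd e x ≤ |s + 1| / δ := by
    rw [le_div_iff₀ hδ]
    have := le_abs_self (s + 1)
    linarith
  have h7 : ⟪e, x⟫ ^ 2 ≤ s ^ 2 + 1 := by
    rcases le_total 0 ⟪e, x⟫ with h | h
    · nlinarith
    · nlinarith [sq_nonneg s]
  have h8 := norm_sq_qd he x
  have h9 : 0 ≤ |s + 1| / δ := by positivity
  nlinarith [norm_nonneg x, sq_nonneg (‖x‖ - 1), sq_nonneg s]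

end Pool.Schoen
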