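import Mathlib
import Pool.Agent.H.MP_6c077c_gt.IxC.Leaf
import Pool.Agent.H.MP_6c077c_gt.CG.Ring

/-! Index theorem, second half: existence of the constants. -/

set_option autoImplicit false

namespace Pool.Schoen

open Filter Set Metric
open scoped Topology ContDiff RealInnerProductSpace

variable {V : Type*} [NormedAddCommGroup V] [InnerProductSpace ℝ V] [FiniteDimensional ℝ V]

private theorem BotEx_seg (F : V → ℝ) (hF : ContDiff ℝ ∞ F) (x w : V)
    (h0 : 0 ≤ fderiv ℝ F x w)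
    (h2 : ∀ t ∈ Icc (0 : ℝ) 1, 0 < fderiv ℝ (fderiv ℝ F) (x + t • w) w w) :
    F x < F (x + w) := by
  obtain ⟨g, hg⟩ : ∃ g : ℝ → ℝ, g = fun t => F (x + t • w) := ⟨_, rfl⟩
  obtain ⟨g', hg'⟩ : ∃ g' : ℝ → ℝ, g' = fun t => fderiv ℝ F (x + t • w) w := ⟨_, rfl⟩
  have d1 : ∀ t, HasDerivAt g (g' t) t := by
    intro t
    rw [hg, hg']
    exact cgLocal_deriv hF x w t
  have d2 : ∀ t, HasDerivAt g' (fderiv ℝ (fderiv ℝ F) (x + t • w) w w) t := by
    intro t
    rw [hg']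
    exact cgLocal_deriv2 hF x w t
  have c1 : Continuous g := continuous_iff_continuousAt.2 fun t => (d1 t).continuousAt
  have c2 : Continuous g' := continuous_iff_continuousAt.2 fun t => (d2 t).continuousAt
  have m2 : StrictMonoOn g' (Icc 0 1) := by
    apply strictMonoOn_of_deriv_pos (convex_Icc 0 1) c2.continuousOn
    intro t ht
    rw [interior_Icc] at ht
    rw [(d2 t).deriv]
    exact h2 t ⟨ht.1.le, ht.2.le⟩
  have g0 : 0 ≤ g' 0 := by rw [hg']; simpa using h0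
  have m1 : StrictMonoOn g (Icc 0 1) := by
    apply strictMonoOn_of_deriv_pos (convex_Icc 0 1) c1.continuousOn
    intro t ht
    rw [interior_Icc] at ht
    rw [(d1 t).deriv]
    exact g0.trans_lt (m2 ⟨le_rfl, zero_le_one⟩ ⟨ht.1.le, ht.2.le⟩ ht.1)
  have := m1 ⟨le_rfl, zero_le_one⟩ ⟨zero_le_one, le_rfl⟩ zero_lt_one
  rw [hg] at this
  simpa using this

/-- Near the lowest point.

PROOF.  Take `ρ₀` from `cg_uniform` (`CG/Local.lean`) at `p = 0` with `s = 1`: for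
`‖x‖ ≤ ρ₀`, `fderiv F x e < 0` and `fderiv (fderiv F) x w w > 0` for `w ⊥ e`, `w ≠ 0`.
`h₀`: the compact set `{F ≤ 0} \ ball 0 ρ₀` has a positive minimum `m₁` of the height (`hmin`; if it is
empty let `m₁ = 1`); `h₀ = min (m₁ / 2) ρ₀`.  So `F x ≤ 0`, `⟪e, x⟫ ≤ h₀` imply `‖x‖ < ρ₀`.
(1) first claim.
(3) `F (t • e) < 0` for `0 < t ≤ h₀`: `cg_vertical` (or: the derivative of `t ↦ F (t • e)` is negative
on `[0, ρ₀]` and `F 0 = 0`).
(2) Let `F x = 0`, `x ≠ 0`, `⟪e, x⟫ ≤ h₀`; `h = ⟪e, x⟫ > 0`, `w = orth e x`, `x = w + h • e`.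
`g s = F (h • e + s • w)` on `[0, 1]`: `g 1 = 0`, `g 0 < 0` by (3), so `w ≠ 0`, and `g'' > 0`
(`‖h • e + s • w‖ ≤ ‖x‖ < ρ₀`).  If `g' 1 ≤ 0`, then `g' < 0` on `[0, 1)` (`g'` strictly increasing), so
`g 0 > g 1 = 0`, a contradiction; `g' 1 = fderiv F x w`. -/
theorem bot_local (F : V → ℝ) (hF : ContDiff ℝ ∞ F) (hb : Bornology.IsBounded {x | F x ≤ 0})
    (e : V) (he : ‖e‖ = 1) (h0 : Inward F e 0) (hp : PosAt F e 0)
    (hmin : ∀ x, F x ≤ 0 → x ≠ 0 → 0 < ⟪e, x⟫) :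
    ∃ h₀ : ℝ, 0 < h₀ ∧ (∀ x, F x ≤ 0 → ⟪e, x⟫ ≤ h₀ → fderiv ℝ F x e < 0) ∧
      (∀ x, F x = 0 → x ≠ 0 → ⟪e, x⟫ ≤ h₀ → 0 < fderiv ℝ F x (orth e x)) ∧
      ∀ t : ℝ, 0 < t → t ≤ h₀ → F (t • e) < 0 := by
  have : ProperSpace V := FiniteDimensional.proper ℝ V
  obtain ⟨ρ, hρ, hloc⟩ := cg_uniform F hF e he 0 h0 1 fun w hw hw0 => by
    rw [one_mul]
    exact hp w hw hw0
  have hcl : IsClosed {x | F x ≤ 0} := isClosed_le hF.continuous continuous_const
  have hK : IsCompact ({x | F x ≤ 0} \ ball 0 ρ) :=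
    (isCompact_of_isClosed_isBounded hcl hb).diff isOpen_ball
  have hci : Continuous fun x : V => ⟪e, x⟫ := by fun_prop
  obtain ⟨m, hm, hmK⟩ := hK.exists_forall_le' hci.continuousOn (a := 0) (by
    rintro x ⟨hx, hxb⟩
    refine hmin x hx ?_
    rintro rfl
    exact hxb (mem_ball_self hρ))
  have hsm : ∀ x, F x ≤ 0 → ⟪e, x⟫ ≤ min (m / 2) ρ → ‖x‖ < ρ := by
    intro x hx hxe
    by_contra hcon
    have h1 := hmK x ⟨hx, by simpa using hcon⟩
    have h2 := hxe.trans (min_le_left _ _)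
    linarith
  have h3 : ∀ t : ℝ, 0 < t → t ≤ min (m / 2) ρ → F (t • e) < 0 := by
    intro t ht ht'
    have h1 := cg_vertical F hF (t • e) e (-t) (by linarith) fun r hr => by
      refine (hloc _ ?_).1
      rw [← add_smul, mem_closedBall_zero_iff, norm_smul, he, mul_one, Real.norm_eq_abs,
        abs_of_nonneg (by linarith [hr.1])]
      have := ht'.trans (min_le_right _ _)
      linarith [hr.2]
    rw [neg_smul, add_neg_cancel, h0.1] at h1
    exact h1
  refine ⟨min (m / 2) ρ, lt_min (by linarith) hρ, ?_, ?_, h3⟩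
  · intro x hx hxe
    exact (hloc x (by simpa using (hsm x hx hxe).le)).1
  · intro x hx hx0 hxe
    have hxρ := hsm x hx.le hxe
    have hh : 0 < ⟪e, x⟫ := hmin x hx.le hx0
    have hdec : ⟪e, x⟫ • e + orth e x = x := by
      unfold orth
      abel
    have horth : ⟪e, orth e x⟫ = 0 := by
      unfold orth
      rw [inner_sub_right, real_inner_smul_right, real_inner_self_eq_norm_sq, he]
      ring
    have hnx : ‖x‖ ^ 2 = ⟪e, x⟫ ^ 2 + ‖orth e x‖ ^ 2 := by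
      conv_lhs => rw [← hdec]
      rw [norm_add_sq_real, real_inner_smul_left, horth, norm_smul, he, Real.norm_eq_abs, mul_one,
        sq_abs]
      ring
    have hw0 : orth e x ≠ 0 := by
      intro h
      have h1 := h3 _ hh hxe
      rw [← hdec, h, add_zero] at hx
      rw [hx] at h1
      exact lt_irrefl _ h1
    by_contra hcon
    push Not at hcon
    have h4 := BotEx_seg F hF x (-orth e x) (by rw [map_neg]; linarith) fun t ht => by
      have e1 : x + t • -orth e x = ⟪e, x⟫ • e + (1 - t) • orth e x := by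
        calc x + t • -orth e x = (⟪e, x⟫ • e + orth e x) + t • -orth e x := by rw [hdec]
          _ = ⟪e, x⟫ • e + (1 - t) • orth e x := by
            rw [sub_smul, one_smul, smul_neg]
            abel
      rw [e1]
      have e2 : ‖⟪e, x⟫ • e + (1 - t) • orth e x‖ ^ 2 =
          ⟪e, x⟫ ^ 2 + (1 - t) ^ 2 * ‖orth e x‖ ^ 2 := by
        rw [norm_add_sq_real, real_inner_smul_left, real_inner_smul_right, horth, norm_smul,
          norm_smul, he, Real.norm_eq_abs, Real.norm_eq_abs, mul_one, mul_pow, sq_abs, sq_abs]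
        ring
      have e3 : (1 - t) ^ 2 ≤ 1 := by nlinarith [ht.1, ht.2]
      have e4 : ‖⟪e, x⟫ • e + (1 - t) • orth e x‖ ≤ ‖x‖ := by
        refine le_of_sq_le_sq ?_ (norm_nonneg _)
        rw [e2, hnx]
        have := mul_le_mul_of_nonneg_right e3 (sq_nonneg ‖orth e x‖)
        linarith
      have e5 := (hloc (⟪e, x⟫ • e + (1 - t) • orth e x)
        (by rw [mem_closedBall_zero_iff]; linarith)).2 (orth e x)
        (by rw [real_inner_comm]; exact horth) hw0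
      simpa using e5
    have e6 : x + -orth e x = ⟪e, x⟫ • e := by
      nth_rewrite 1 [← hdec]
      abel
    rw [e6, hx] at h4
    have h5 := h3 _ hh hxe
    linarith

/-- Existence of the constants.

PROOF.  `h₀` from `bot_local`, `c = h₀ / 2`.  `{F ≤ 0}` is bounded: let `R ≥ 1` with `‖x‖ ≤ R` on it,
so `qd e x ≤ R²`, `|⟪e, x⟫| ≤ R` (`norm_sq_qd`).  `a₀ = max (R + R² + 1) (h₀ + 1)`.
The set `S = {x | F x = 0 ∧ c ≤ ⟪e, x⟫ ∧ ⟪e, x⟫ ≤ h₀}` is compact and `0 < fderiv F x (orth e x)` on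
it, so there is `κ > 0` with `κ ≤ fderiv F x (orth e x)` on `S` (if `S = ∅` let `κ = 1`), and
`L > 0` with `|fderiv F x e| ≤ L` on `S`.  Choose `δ > 0` with `δ R² < h₀ - c`, `δ R² < 1` and
`4 δ R² L < κ`.  Then `flat` and `bowl` hold (`F x ≤ 0`: `c + δ q ≤ c + δ R² < h₀`).  `trans`: if
`F x = 0` and `⟪e, x⟫ = c + δ q` then `x ∈ S` (`bowl`), take `ε = κ / (2 L)`:
`2 δ q ≤ 2 δ R² < κ / (2 L) = ε` and `ε |fderiv F x e| ≤ κ / 2 < κ`. -/
theorem bot_exists (F : V → ℝ) (hF : ContDiff ℝ ∞ F) (hb : Bornology.IsBounded {x | F x ≤ 0})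
    (hreg : ∀ x, F x = 0 → gradient F x ≠ 0) (e : V) (he : ‖e‖ = 1) (h0 : Inward F e 0)
    (hp : PosAt F e 0) (hmin : ∀ x, F x ≤ 0 → x ≠ 0 → 0 < ⟪e, x⟫) :
    ∃ c h₀ δ a₀ : ℝ, Bot F e c h₀ δ a₀ := by
  have : ProperSpace V := FiniteDimensional.proper ℝ V
  obtain ⟨h₀, hh, hlow, hrad, haxis⟩ := bot_local F hF hb e he h0 hp hmin
  obtain ⟨R0, hR0⟩ := hb.exists_norm_le
  obtain ⟨R, hRd⟩ : ∃ R, R = max R0 1 := ⟨_, rfl⟩
  have hR1 : 1 ≤ R := by rw [hRd]; exact le_max_right _ _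
  have hR : ∀ x, F x ≤ 0 → ‖x‖ ≤ R := fun x hx => by
    rw [hRd]
    exact (hR0 x hx).trans (le_max_left _ _)
  have hR2 : 1 ≤ R ^ 2 := by nlinarith
  have hq : ∀ x, F x ≤ 0 → qd e x ≤ R ^ 2 := by
    intro x hx
    have h1 := norm_sq_qd he x
    have h2 : ‖x‖ ^ 2 ≤ R ^ 2 := pow_le_pow_left₀ (norm_nonneg _) (hR x hx) 2
    have h3 := sq_nonneg ⟪e, x⟫
    linarith
  have hin : ∀ x, F x ≤ 0 → ⟪e, x⟫ ≤ R := by
    intro x hx
    have h1 := real_inner_le_norm e x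
    rw [he, one_mul] at h1
    exact h1.trans (hR x hx)
  -- the compact set
  have hci : Continuous fun x : V => ⟪e, x⟫ := by fun_prop
  have hScl : IsClosed {x : V | F x = 0 ∧ h₀ / 2 ≤ ⟪e, x⟫ ∧ ⟪e, x⟫ ≤ h₀} :=
    (isClosed_eq hF.continuous continuous_const).inter
      ((isClosed_le continuous_const hci).inter (isClosed_le hci continuous_const))
  have hS : IsCompact {x : V | F x = 0 ∧ h₀ / 2 ≤ ⟪e, x⟫ ∧ ⟪e, x⟫ ≤ h₀} :=
    isCompact_of_isClosed_isBounded hScl (hb.subset fun x hx => hx.1.le)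
  have hc1 : Continuous (fderiv ℝ F) := hF.continuous_fderiv (by simp)
  have hco : Continuous (orth e) := by
    unfold orth
    fun_prop
  have hcf : Continuous fun x : V => fderiv ℝ F x (orth e x) := hc1.clm_apply hco
  have hce : Continuous fun x : V => fderiv ℝ F x e := hc1.clm_apply continuous_const
  obtain ⟨κ, hκ, hκS⟩ := hS.exists_forall_le' hcf.continuousOn (a := 0) (by
    rintro x ⟨hx, hx1, hx2⟩
    refine hrad x hx ?_ hx2
    rintro rfl
    rw [inner_zero_right] at hx1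
    linarith)
  obtain ⟨L0, hL0⟩ := hS.exists_bound_of_continuousOn hce.continuousOn
  obtain ⟨L, hLd⟩ : ∃ L, L = max L0 1 := ⟨_, rfl⟩
  have hL1 : 1 ≤ L := by rw [hLd]; exact le_max_right _ _
  have hL : ∀ x, F x = 0 → h₀ / 2 ≤ ⟪e, x⟫ → ⟪e, x⟫ ≤ h₀ → -(fderiv ℝ F x e) ≤ L := by
    intro x h1 h2 h3
    have h4 := hL0 x ⟨h1, h2, h3⟩
    rw [Real.norm_eq_abs] at h4
    rw [hLd]
    exact (neg_le_abs _).trans (h4.trans (le_max_left _ _))
  have hRp : 0 < R ^ 2 := by linarith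
  obtain ⟨δ, hδd⟩ : ∃ δ, δ = min (min (h₀ / 4) (1 / 2)) (κ / (8 * L)) / R ^ 2 := ⟨_, rfl⟩
  have hδ : 0 < δ := by
    rw [hδd]
    have : 0 < κ / (8 * L) := by positivity
    exact div_pos (lt_min (lt_min (by linarith) (by norm_num)) this) hRp
  have hδR : δ * R ^ 2 = min (min (h₀ / 4) (1 / 2)) (κ / (8 * L)) := by
    rw [hδd]
    field_simp
  have hδ1 : δ * R ^ 2 ≤ h₀ / 4 := by
    rw [hδR]
    exact (min_le_left _ _).trans (min_le_left _ _)
  have hδ2 : δ * R ^ 2 ≤ 1 / 2 := by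
    rw [hδR]
    exact (min_le_left _ _).trans (min_le_right _ _)
  have hδ3 : δ * R ^ 2 ≤ κ / (8 * L) := by
    rw [hδR]
    exact min_le_right _ _
  have hδq : ∀ x, F x ≤ 0 → δ * qd e x ≤ δ * R ^ 2 := fun x hx =>
    mul_le_mul_of_nonneg_left (hq x hx) hδ.le
  have hδq0 : ∀ x, 0 ≤ δ * qd e x := fun x => mul_nonneg hδ.le (qd_nonneg e x)
  refine ⟨h₀ / 2, h₀, δ, max (R + R ^ 2 + 1) (h₀ + 1), ?_⟩
  refine ⟨hF, hb, hreg, he, by linarith, by linarith, ?_, hδ, ?_, ?_, hmin, hlow, hrad, haxis,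
    ?_, ?_⟩
  · have := le_max_right (R + R ^ 2 + 1) (h₀ + 1)
    linarith
  · intro x hx
    have h1 := le_max_left (R + R ^ 2 + 1) (h₀ + 1)
    have h2 := hq x hx
    have h3 := hin x hx
    linarith
  · intro x hx
    have := hδq x hx
    linarith
  · intro x hx hxc
    have := hδq x hx
    linarith
  · intro x hx hxc
    have h1 := hδq x hx.le
    have h2 := hδq0 x
    have hx2 : h₀ / 2 ≤ ⟪e, x⟫ := by linarith
    have hx3 : ⟪e, x⟫ ≤ h₀ := by linarith
    have hk := hκS x ⟨hx, hx2, hx3⟩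
    have hl := hL x hx hx2 hx3
    have hLp : 0 < L := by linarith
    refine ⟨κ / (2 * L), by positivity, ?_, ?_⟩
    · have h3 : κ / (2 * L) = 4 * (κ / (8 * L)) := by
        field_simp
        ring
      have h4 : 0 < κ / (8 * L) := by positivity
      rw [h3, mul_assoc]
      linarith
    · have h3 : κ / (2 * L) * -(fderiv ℝ F x e) ≤ κ / (2 * L) * L :=
        mul_le_mul_of_nonneg_left hl (by positivity)
      have h4 : κ / (2 * L) * L = κ / 2 := by
        field_simp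
      beta_reduce at hk
      linarith

end Pool.Schoen
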