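import Mathlib
import Pool.Agent.H.MP_6c077c_gt.IxC.Leaf
import Pool.Agent.H.MP_6c077c_gt.IxB.T1

/-! Index theorem, second half: the complement in the bowl is in the class. -/

set_option autoImplicit false

namespace Pool.Schoen

open Filter Set Metric
open scoped Topology ContDiff RealInnerProductSpace

variable {V : Type*} [NormedAddCommGroup V] [InnerProductSpace ℝ V] [FiniteDimensional ℝ V]

/-- `Inw` depends only on the values near the point (`ContDiffAt.congr_of_eventuallyEq`,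
`Filter.EventuallyEq.fderiv`). -/
theorem CapClass_congr {f g : V → ℝ} {e p : V} (h : Inw f e p) (hfg : ∀ᶠ y in 𝓝 p, f y = g y) :
    Inw g e p := by
  have h1 : f =ᶠ[𝓝 p] g := hfg
  have h2 : fderiv ℝ f =ᶠ[𝓝 p] fderiv ℝ g := h1.fderiv
  have h3 : fderiv ℝ f p = fderiv ℝ g p := h1.fderiv_eq
  have h4 : fderiv ℝ (fderiv ℝ f) p = fderiv ℝ (fderiv ℝ g) p := h2.fderiv_eq
  have h5 : ∀ w w', hess f p w w' = hess g p w w' := by
    intro w w'
    unfold hess
    rw [h4]
  refine ⟨h.smooth.congr_of_eventuallyEq h1.symm, ?_, ?_, ?_⟩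
  · rw [← h1.eq_of_nhds]
    exact h.zero
  · rw [← h3]
    exact h.grad
  · simp only [← h5]
    exact h.index

/-- A point with normal `-e` other than the origin is above the bowl.

PROOF.  If `⟪e, x⟫ ≤ c + δ q`, then `⟪e, x⟫ ≤ h₀` (`bowl`), so `0 < fderiv F x (orth e x)` (`rad`);
but `fderiv F x v = 0` for `v ⊥ e` at an `Inward` point (`Ring_fd` in `CG/Ring.lean`,
`inner_orth`). -/
theorem Bot.inward_high {F : V → ℝ} {e : V} {c h₀ δ a₀ : ℝ} (hB : Bot F e c h₀ δ a₀) (x : V)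
    (hx : Inward F e x) (h0 : x ≠ 0) : c + δ * qd e x < ⟪e, x⟫ := by
  by_contra hcon
  have h1 := hB.bowl x hx.1.le (not_lt.1 hcon)
  have h2 := hB.rad x hx.1 h0 h1
  have h3 : fderiv ℝ F x (orth e x) = 0 :=
    Ring_fd hx (by rw [real_inner_comm]; exact inner_orth hB.unit x)
  rw [h3] at h2
  exact lt_irrefl _ h2

omit [FiniteDimensional ℝ V] in
theorem CapClass_lf {e : V} (he : ‖e‖ = 1) (a : ℝ) :
    lf e 1 1 (-a) = fun y => ⟪e, y⟫ + (‖y‖ ^ 2 - ⟪e, y⟫ ^ 2) - a := by
  funext y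
  unfold lf
  rw [norm_sq_qd he y]
  ring

omit [FiniteDimensional ℝ V] in
theorem CapClass_fd (e : V) (a : ℝ) (y : V) :
    HasFDerivAt (fun y => ⟪e, y⟫ + (‖y‖ ^ 2 - ⟪e, y⟫ ^ 2) - a)
      (innerSL ℝ e + ((2 : ℝ) • innerSL ℝ y - (2 * ⟪e, y⟫) • innerSL ℝ e)) y := by
  have h1 : HasFDerivAt (fun y => ⟪e, y⟫) (innerSL ℝ e) y := (innerSL ℝ e).hasFDerivAt
  have h2 : HasFDerivAt (fun y : V => ‖y‖ ^ 2) (2 • innerSL ℝ y) y :=
    (hasStrictFDerivAt_norm_sq y).hasFDerivAt
  have h3 := (h1.add (h2.sub (h1.pow 2))).sub_const a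
  refine h3.congr_fderiv ?_
  ext w
  simp

omit [FiniteDimensional ℝ V] in
theorem CapClass_fd2 (e : V) (a : ℝ) (y v w : V) :
    fderiv ℝ (fderiv ℝ fun y => ⟪e, y⟫ + (‖y‖ ^ 2 - ⟪e, y⟫ ^ 2) - a) y v w =
      2 * ⟪v, w⟫ - 2 * ⟪e, v⟫ * ⟪e, w⟫ := by
  have h1 : (fderiv ℝ fun y => ⟪e, y⟫ + (‖y‖ ^ 2 - ⟪e, y⟫ ^ 2) - a) =
      fun y => innerSL ℝ e + ((2 : ℝ) • innerSL ℝ y - (2 * ⟪e, y⟫) • innerSL ℝ e) := by
    funext z
    exact (CapClass_fd e a z).fderiv
  have h2 : HasFDerivAt (fun y : V => (2 * ⟪e, y⟫) • innerSL ℝ e)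
      (((2 : ℝ) • innerSL ℝ e).smulRight (innerSL ℝ e)) y := by
    have h3 : HasFDerivAt (fun y : V => 2 * ⟪e, y⟫) ((2 : ℝ) • innerSL ℝ e) y :=
      ((innerSL ℝ e).hasFDerivAt (x := y)).const_mul 2
    exact h3.smul_const (innerSL ℝ e)
  obtain ⟨L, hL⟩ : ∃ L : V →L[ℝ] V →L[ℝ] ℝ, ∀ y, L y = innerSL ℝ y := ⟨innerSL ℝ, fun _ => rfl⟩
  have h4 : HasFDerivAt (fun y : V => (2 : ℝ) • L y) ((2 : ℝ) • L) y :=
    ((2 : ℝ) • L).hasFDerivAt (x := y)
  have h5 : HasFDerivAt (fun y : V => innerSL ℝ e + ((2 : ℝ) • L y - (2 * ⟪e, y⟫) • innerSL ℝ e))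
      ((2 : ℝ) • L - ((2 : ℝ) • innerSL ℝ e).smulRight (innerSL ℝ e)) y :=
    (h4.sub h2).const_add (innerSL ℝ e)
  have h6 : (fun y => innerSL ℝ e + ((2 : ℝ) • innerSL ℝ y - (2 * ⟪e, y⟫) • innerSL ℝ e)) =
      fun y : V => innerSL ℝ e + ((2 : ℝ) • L y - (2 * ⟪e, y⟫) • innerSL ℝ e) := by
    funext z
    rw [hL]
  rw [h1, h6, h5.fderiv]
  simp [hL]

/-- The round top.

PROOF.  `lf e 1 1 (-a) y = ⟪e, y⟫ + ‖y‖² - ⟪e, y⟫² - a` (`norm_sq_qd`).  It is smooth, zero at
`a • e`, its derivative there is `v ↦ ⟪e, v⟫ + 2 ⟪a • e, v⟫ - 2 a ⟪e, v⟫ = ⟪e, v⟫ = -(1 * ⟪-e, v⟫)`, its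
second derivative is `(v, w) ↦ 2 ⟪v, w⟫ - 2 ⟪e, v⟫ ⟪e, w⟫`, positive on the vectors orthogonal to
`e` (first alternative of `index`). -/
theorem inw_top {e : V} (he : ‖e‖ = 1) (a : ℝ) : Inw (lf e 1 1 (-a)) (-e) (a • e) := by
  refine ⟨(lf_contDiff 1 1 (-a)).contDiffAt.of_le (by norm_cast), ?_, ⟨1, one_pos, fun v => ?_⟩,
    Or.inl fun w hw hw0 => ?_⟩
  · rw [lf_smul_unit he]
    ring
  · rw [CapClass_lf he, (CapClass_fd e a (a • e)).fderiv, inner_smul_unit he, inner_neg_left]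
    simp
    ring
  · rw [inner_neg_left, neg_eq_zero] at hw
    unfold hess
    rw [CapClass_lf he, CapClass_fd2, hw, real_inner_self_eq_norm_sq]
    have : 0 < ‖w‖ := norm_pos_iff.2 hw0
    have : 0 < ‖w‖ ^ 2 := by positivity
    linarith

theorem CapClass_neg {F : V → ℝ} {e x : V} (h : Inward F e x) :
    Inward (fun y => -F y) (-e) x := by
  obtain ⟨h0, l, hl, hg⟩ := h
  refine ⟨by simpa using h0, l, hl, ?_⟩
  have h1 : gradient (fun y => -F y) x = -gradient F x := by
    unfold gradient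
    rw [fderiv_fun_neg, map_neg]
  rw [h1, hg, smul_neg]

theorem CapClass_neg' {F : V → ℝ} {e x : V} (h : Inward (fun y => -F y) (-e) x) :
    Inward F e x := by
  have h1 := CapClass_neg h
  simpa using h1

/-- The outer side at a point of high index.

PROOF.  `G = fun y => -F y`; `Inward G (-e) p` because `gradient G = -gradient F`.  `Idx G (-e) p
(n - k)`: `Split.flip` with `c = 1` (`fderiv (fderiv G) = -fderiv (fderiv F)`), `Split.finrank`.
`n - k ≤ 1`; `inw_of_idx` (`IxB/T1.lean`). -/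
theorem inw_neg (n : ℕ) (hn : Module.finrank ℝ V = n + 1) (F : V → ℝ) (hF : ContDiff ℝ ∞ F)
    (e : V) (he : ‖e‖ = 1) (p : V) (hp : Inward F e p) (k : ℕ) (hk : Idx F e p k)
    (hk' : n - 1 ≤ k) : Inw (fun y => -F y) (-e) p := by
  obtain ⟨N, P, hs, hN⟩ := hk
  have h1 := hs.finrank he
  have h2 : fderiv ℝ (fun y => -F y) = fun y => -fderiv ℝ F y := by
    funext y
    exact fderiv_fun_neg
  have h3 : Idx (fun y => -F y) (-e) p (n - k) := by
    refine ⟨P, N, hs.flip hF (fun y => -F y) 1 one_pos (fun a b _ _ => ?_), by omega⟩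
    rw [h2, fderiv_fun_neg, one_mul]
    rfl
  refine inw_of_idx _ hF.neg (-e) p (CapClass_neg hp) (n - k) (by omega) h3

/-- The complement of `{F < 0}` in the bowl is in the class for the direction `-e`.

PROOF.  `P = insert (a • e) P₀`.  Write `h = ⟪e, x⟫`, `q = qd e x`; `f = capF F e c δ a`.
`bdd`: `f x ≤ 0` implies `c + δ q ≤ h` and `h + q ≤ a`, so `0 < h ≤ a`, `q ≤ a` (`norm_sq_qd`).
`good.cont`: `lf_continuous`.  `good.bdd` follows.
`inw`: at `p ∈ P₀`: `Bot.inward_high`, `top` and `a₀ < a` show that both `lf` terms are negative and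
`-F p = 0`; so `f = -F` near `p`; `inw_neg`, `Inw.congr`.  At `a • e`: `F > 0` (`top`:
`⟪e, a • e⟫ + qd = a > a₀`), `lf e (-1) δ c (a • e) = c - a < 0`, so `f = lf e 1 1 (-a)` near `a • e`;
`inw_top`.
`free` (and `good.desc`, which follows: at points of `P` an `Inw` function has the descent direction
`e`-wise: `desc1_smooth` with `v = e` for the direction `-e`, since `fderiv f p e = -(μ ⟪-e, e⟫)`...
i.e. take `v = -e`: `fderiv f p (-e) = -(μ * ⟪-e, -e⟫) = -μ < 0`): let `f x = 0`, `x ∉ P`.  We need `v`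
with `⟪-e, v⟫ < 0` which is a descent direction; use `dz1_max` twice, `dz1_lf`, and `dz1_of_ne`
for the terms which are not zero.
 (i) `F x = 0`: then `lf e 1 1 (-a) x < 0` (`top`).  If `lf e (-1) δ c x = 0`: `h = c + δ q`; with
 `ε` from `trans` take `v = orth e x + ε • e`: `fderiv (-F) x v = -fderiv F x (orth e x) -
 ε fderiv F x e < 0`, `-ε + 2 δ q < 0` (`dz1_lf`), `⟪-e, v⟫ = -ε < 0`.  If `lf e (-1) δ c x < 0`:
 `f = -F` near `x`, `x ≠ 0` (at the origin `lf e (-1) δ c 0 = c > 0`) and `x ∉ P₀`, so `x` is not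
 `Inward F e`, i.e. not `Inward (-F) (-e)`; `free_of_not_inward` for `-F`, `-e` (`IxB/T1.lean`) and
 `Desc1.congr`.
 (ii) `F x > 0` (so `-F x ≠ 0`).  If `lf e 1 1 (-a) x = 0`: `q ≠ 0` since otherwise `x = a • e`
 (`eq_of_qd_zero`); take `v = -(1/q) • orth e x + e`: for `lf e 1 1 (-a)`: `1 - 2 < 0`; for
 `lf e (-1) δ c`: `-1 - 2 δ < 0`; `⟪-e, v⟫ = -1`.  If `lf e 1 1 (-a) x ≠ 0` then `lf e (-1) δ c x = 0`:
 `v = e` (`α = 0`, `β = 1`): `-1 < 0`.
 (iii) `F x < 0` is impossible (`f x ≥ -F x > 0`). -/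
theorem cap_class (n : ℕ) (hn : Module.finrank ℝ V = n + 1) {F : V → ℝ} {e : V} {c h₀ δ a₀ : ℝ}
    (hB : Bot F e c h₀ δ a₀) (P₀ : Finset V) (hP₀ : ∀ x, x ∈ P₀ ↔ Inward F e x ∧ x ≠ 0)
    (hidx : ∀ x ∈ P₀, ∃ k, Idx F e x k ∧ n - 1 ≤ k) (a : ℝ) (ha : a₀ < a) :
    ∃ P : Finset V, Class (capF F e c δ a) (-e) P := by
  classical
  have he := hB.unit
  have hFc : Continuous fun y => -F y := hB.smooth.continuous.neg
  have hl1c : Continuous (lf e (-1) δ c) := lf_continuous _ _ _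
  have hl2c : Continuous (lf e 1 1 (-a)) := lf_continuous _ _ _
  have hcont : Continuous (capF F e c δ a) := by
    unfold capF
    exact hFc.max (hl1c.max hl2c)
  have ha0 : 0 < a := by linarith [hB.c_pos, hB.c_lt, hB.h_lt]
  have hca : c < a := by linarith [hB.c_pos, hB.c_lt, hB.h_lt]
  have hbdd : Bornology.IsBounded {x | capF F e c δ a x ≤ 0} := by
    refine (isBounded_closedBall (x := (0 : V)) (r := a + 1)).subset fun x hx => ?_
    obtain ⟨-, hx2⟩ := max_le_iff.1 (show max (-F x) _ ≤ 0 from hx)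
    obtain ⟨hx2, hx3⟩ := max_le_iff.1 hx2
    unfold lf at hx2 hx3
    have hq := qd_nonneg e x
    have hδq : 0 ≤ δ * qd e x := mul_nonneg hB.δ_pos.le hq
    have hn := norm_sq_qd he x
    have h1 : 0 < ⟪e, x⟫ := by linarith [hB.c_pos]
    have h2 : ⟪e, x⟫ ≤ a := by linarith
    have h3 : qd e x ≤ a := by linarith
    rw [mem_closedBall_zero_iff]
    refine (sq_le_sq₀ (norm_nonneg _) (by linarith)).1 ?_
    rw [hn]
    nlinarith
  have hnear : ∀ x, F x = 0 → lf e (-1) δ c x < 0 → lf e 1 1 (-a) x < 0 →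
      ∀ᶠ y in 𝓝 x, -F y = capF F e c δ a y := by
    intro x hx h1 h2
    have h0 : -F x = 0 := by rw [hx, neg_zero]
    have h3 : lf e (-1) δ c x < -F x := by rw [h0]; exact h1
    have h4 : lf e 1 1 (-a) x < -F x := by rw [h0]; exact h2
    filter_upwards [hl1c.continuousAt.eventually_lt hFc.continuousAt h3,
      hl2c.continuousAt.eventually_lt hFc.continuousAt h4] with y hy1 hy2
    unfold capF
    rw [max_eq_left (max_le hy1.le hy2.le)]
  have htop : ∀ x, F x = 0 → lf e 1 1 (-a) x < 0 := by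
    intro x hx
    have := hB.top x hx.le
    unfold lf
    linarith
  have hinw : ∀ p ∈ insert (a • e) P₀, Inw (capF F e c δ a) (-e) p := by
    intro p hp
    rcases Finset.mem_insert.1 hp with hp | hp
    · rw [hp]
      refine CapClass_congr (inw_top he a) ?_
      have h0 : lf e 1 1 (-a) (a • e) = 0 := by
        rw [lf_smul_unit he]
        ring
      have h1 : -F (a • e) < lf e 1 1 (-a) (a • e) := by
        rw [h0, neg_lt_zero]
        by_contra hcon
        have h2 := hB.top _ (not_lt.1 hcon)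
        rw [inner_smul_unit he, qd_smul_unit he] at h2
        linarith
      have h2 : lf e (-1) δ c (a • e) < lf e 1 1 (-a) (a • e) := by
        rw [h0, lf_smul_unit he]
        linarith
      filter_upwards [hFc.continuousAt.eventually_lt hl2c.continuousAt h1,
        hl1c.continuousAt.eventually_lt hl2c.continuousAt h2] with y hy1 hy2
      unfold capF
      rw [max_eq_right hy2.le, max_eq_right hy1.le]
    · obtain ⟨hpI, hp0⟩ := (hP₀ p).1 hp
      obtain ⟨k, hk, hk'⟩ := hidx p hp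
      refine CapClass_congr (inw_neg n hn F hB.smooth e he p hpI k hk hk')
        (hnear p hpI.1 ?_ (htop p hpI.1))
      have := hB.inward_high p hpI hp0
      unfold lf
      linarith
  have key : ∀ x, capF F e c δ a x = 0 → x ∉ insert (a • e) P₀ →
      FreeAt (capF F e c δ a) (-e) x := by
    intro x hx hxP
    have hinn : ∀ α β : ℝ, ⟪-e, α • orth e x + β • e⟫ = -β := by
      intro α β
      rw [inner_neg_left, inner_add_right, real_inner_smul_right, real_inner_smul_right,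
        inner_orth he, real_inner_self_eq_norm_sq, he]
      ring
    have hdesc : ∀ v, DZ1 (fun y => -F y) x v → DZ1 (lf e (-1) δ c) x v →
        DZ1 (lf e 1 1 (-a)) x v → Desc1 (capF F e c δ a) x v := by
      intro v h1 h2 h3
      exact dz1_max hFc (hl1c.max hl2c) h1 (dz1_max hl1c hl2c h2 h3) hx
    obtain ⟨hx1, hx2⟩ := max_le_iff.1 (show max (-F x) _ ≤ 0 from hx.le)
    obtain ⟨hx2, hx3⟩ := max_le_iff.1 hx2
    rcases (neg_nonpos.1 hx1).lt_or_eq with hF0 | hF0
    · have hFne : (fun y => -F y) x ≠ 0 := by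
        show -F x ≠ 0
        linarith
      have hq := qd_nonneg e x
      by_cases h0 : lf e 1 1 (-a) x = 0
      · have hq0 : qd e x ≠ 0 := by
          intro hq0
          have h1 := eq_of_qd_zero x hq0
          unfold lf at h0
          rw [hq0] at h0
          have h2 : ⟪e, x⟫ = a := by linarith
          rw [h2] at h1
          exact hxP (Finset.mem_insert.2 (Or.inl h1))
        refine ⟨-(1 / qd e x) • orth e x + (1 : ℝ) • e, hdesc _ (dz1_of_ne hFne)
          (dz1_lf he _ _ _ _ _ _ fun _ => ?_) (dz1_lf he _ _ _ _ _ _ fun _ => ?_), ?_⟩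
        · have : -1 * 1 + 2 * -(1 / qd e x) * δ * qd e x = -1 - 2 * δ := by
            field_simp
            ring
          rw [this]
          linarith [hB.δ_pos]
        · have : 1 * 1 + 2 * -(1 / qd e x) * 1 * qd e x = -1 := by
            field_simp
            ring
          rw [this]
          linarith
        · rw [hinn]
          linarith
      · refine ⟨(0 : ℝ) • orth e x + (1 : ℝ) • e, hdesc _ (dz1_of_ne hFne)
          (dz1_lf he _ _ _ _ _ _ fun _ => by linarith) (dz1_of_ne h0), ?_⟩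
        rw [hinn]
        linarith
    · have hF0 : F x = 0 := hF0.symm
      have h2 := htop x hF0
      rcases hx2.lt_or_eq with h1 | h1
      · have hx0 : x ≠ 0 := by
          intro h
          rw [h] at h1
          have h3 := lf_smul_unit he (-1) δ c 0
          rw [zero_smul] at h3
          rw [h3] at h1
          linarith [hB.c_pos]
        have hni : ¬ Inward F e x := fun h =>
          hxP (Finset.mem_insert.2 (Or.inr ((hP₀ x).2 ⟨h, hx0⟩)))
        obtain ⟨v, hv, hv'⟩ := free_of_not_inward (fun y => -F y) hB.smooth.neg (-e)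
          (by rw [norm_neg, he]) x (by show -F x = 0; rw [hF0, neg_zero]) (by
            have h4 : gradient (fun y => -F y) x = -gradient F x := by
              unfold gradient
              rw [fderiv_fun_neg, map_neg]
            rw [h4, neg_ne_zero]
            exact hB.reg x hF0) (fun h => hni (CapClass_neg' h))
        exact ⟨v, hv.congr (hnear x hF0 h1 h2), hv'⟩
      · have h3 : ⟪e, x⟫ = c + δ * qd e x := by
          unfold lf at h1
          linarith
        obtain ⟨ε, hε, hε1, hε2⟩ := hB.trans x hF0 h3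
        refine ⟨(1 : ℝ) • orth e x + ε • e, hdesc _ (fun _ => ?_)
          (dz1_lf he _ _ _ _ _ _ fun _ => by linarith) (dz1_of_ne h2.ne), ?_⟩
        · refine desc1_smooth (hB.smooth.neg.contDiffAt.of_le (by norm_cast)) ?_
          rw [fderiv_fun_neg]
          simp only [neg_apply, map_add, map_smul, smul_eq_mul]
          linarith
        · rw [hinn]
          linarith
  refine ⟨insert (a • e) P₀, hbdd, ⟨hcont, hbdd.subset fun x hx => le_of_eq hx, fun x hx => ?_⟩,
    hinw, key⟩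
  by_cases hxP : x ∈ insert (a • e) P₀
  · have h := hinw x hxP
    obtain ⟨μ, hμ, hg⟩ := h.grad
    refine ⟨-e, desc1_smooth (h.smooth.of_le one_le_two) ?_⟩
    rw [hg, real_inner_self_eq_norm_sq, norm_neg, he]
    linarith
  · obtain ⟨v, hv, -⟩ := key x hx hxP
    exact ⟨v, hv⟩

end Pool.Schoen
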