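import Mathlib
import Pool.Agent.H.MP_6c077c_gt.IxC.Leaf

/-! Index theorem, second half: the hypersurface meets the bowl in a sphere. -/

set_option autoImplicit false

namespace Pool.Schoen

open Filter Set Metric
open scoped Topology ContDiff RealInnerProductSpace

variable {V : Type*} [NormedAddCommGroup V] [InnerProductSpace ℝ V] [FiniteDimensional ℝ V]

/-- A function with positive derivative at each positive zero is positive to the right and negative
to the left of it. -/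
theorem Sigma_sign {g : ℝ → ℝ} {r d : ℝ} (h : HasDerivAt g d r) (h0 : g r = 0) (hd : 0 < d) :
    ∀ᶠ s in 𝓝[≠] r, (r < s → 0 < g s) ∧ (s < r → g s < 0) := by
  have h1 := (hasDerivAt_iff_tendsto_slope.1 h).eventually (lt_mem_nhds hd)
  filter_upwards [h1] with s hs
  rw [slope_def_field, h0, sub_zero] at hs
  refine ⟨fun hrs => ?_, fun hrs => ?_⟩
  · have h2 : 0 < s - r := by linarith
    have := mul_pos hs h2
    rwa [div_mul_cancel₀ _ h2.ne'] at this
  · have h2 : s - r < 0 := by linarith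
    have := mul_neg_of_pos_of_neg hs h2
    rwa [div_mul_cancel₀ _ h2.ne] at this

theorem Sigma_lt {g : ℝ → ℝ} (hc : Continuous g)
    (hd : ∀ r, 0 < r → g r = 0 → ∃ d, 0 < d ∧ HasDerivAt g d r) {r r' : ℝ} (hr : 0 < r)
    (h0 : g r = 0) (h0' : g r' = 0) (hlt : r < r') : False := by
  obtain ⟨d, hd0, hder⟩ := hd r hr h0
  have h1 : ∀ᶠ s in 𝓝[>] r, 0 < g s := by
    have h2 : 𝓝[>] r ≤ 𝓝[≠] r := nhdsWithin_mono _ fun s hs => (ne_of_gt hs)
    filter_upwards [(Sigma_sign hder h0 hd0).filter_mono h2, self_mem_nhdsWithin] with s hs hs'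
    exact hs.1 hs'
  have h2 : ∀ᶠ s in 𝓝[>] r, s < r' := by
    filter_upwards [Ioo_mem_nhdsGT hlt] with s hs
    exact hs.2
  obtain ⟨s0, hs0, hs0', hs0r⟩ := (h1.and (h2.and self_mem_nhdsWithin)).exists
  have hs0r : r < s0 := hs0r
  have hK : IsCompact (Icc s0 r' ∩ {s | g s ≤ 0}) :=
    isCompact_Icc.inter_right (isClosed_le hc continuous_const)
  obtain ⟨t, ⟨htI, htg⟩, htmin⟩ := hK.exists_isMinOn ⟨r', ⟨⟨hs0'.le, le_rfl⟩, h0'.le⟩⟩
    continuousOn_id
  have htg : g t ≤ 0 := htg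
  have hts : s0 < t := by
    rcases htI.1.lt_or_eq with h | h
    · exact h
    · rw [← h] at htg
      exact absurd htg (not_le.2 hs0)
  have hmin : ∀ s, s0 ≤ s → s < t → 0 < g s := by
    intro s hs hst
    by_contra hcon
    have h3 := htmin (⟨⟨hs, by linarith [htI.2]⟩, not_lt.1 hcon⟩ :
      s ∈ Icc s0 r' ∩ {s | g s ≤ 0})
    have h4 : t ≤ s := h3
    exact absurd h4 (not_le.2 hst)
  have h5 : ∀ᶠ s in 𝓝[<] t, 0 < g s := by
    filter_upwards [Ioo_mem_nhdsLT hts] with s hs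
    exact hmin s hs.1.le hs.2
  have h6 : ∀ᶠ s in 𝓝[<] t, g s < 0 := by
    rcases htg.lt_or_eq with h | h
    · exact (hc.continuousAt.eventually (gt_mem_nhds h)).filter_mono nhdsWithin_le_nhds
    · obtain ⟨d', hd', hder'⟩ := hd t (by linarith) h
      have h7 : 𝓝[<] t ≤ 𝓝[≠] t := nhdsWithin_mono _ fun s hs => (ne_of_lt hs)
      filter_upwards [(Sigma_sign hder' h hd').filter_mono h7, self_mem_nhdsWithin] with s hs hs'
      exact hs.2 hs'
  obtain ⟨s, hs, hs'⟩ := (h5.and h6).exists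
  exact lt_asymm hs hs'

omit [FiniteDimensional ℝ V] in
theorem Sigma_inner {e w : V} (he : ‖e‖ = 1) (hw : ⟪e, w⟫ = 0) (r h : ℝ) :
    ⟪e, r • w + h • e⟫ = h := by
  rw [inner_add_right, real_inner_smul_right, real_inner_smul_right, hw,
    real_inner_self_eq_norm_sq, he]
  ring

omit [FiniteDimensional ℝ V] in
theorem Sigma_orth {e w : V} (he : ‖e‖ = 1) (hw : ⟪e, w⟫ = 0) (r h : ℝ) :
    orth e (r • w + h • e) = r • w := by
  unfold orth
  rw [Sigma_inner he hw, add_sub_cancel_right]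

omit [FiniteDimensional ℝ V] in
theorem Sigma_qd {e w : V} (he : ‖e‖ = 1) (hw : ⟪e, w⟫ = 0) (hw1 : ‖w‖ = 1) (r h : ℝ) :
    qd e (r • w + h • e) = r ^ 2 := by
  unfold qd
  rw [Sigma_orth he hw, norm_smul, hw1, mul_one, Real.norm_eq_abs, sq_abs]

/-- One zero in each direction.

PROOF.  Let `γ r = r • w + (c + δ r²) • e`, `g r = F (γ r)`; `orth e (γ r) = r • w`,
`⟪e, γ r⟫ = c + δ r²`, `qd e (γ r) = r²` (`⟪e, w⟫ = 0`, `‖w‖ = 1`).  `g 0 = F (c • e) < 0` (`axis`).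
At a zero `r > 0` of `g` with `x = γ r`: `r * g' r = fderiv F x (r • w + 2 δ r² • e) =
fderiv F x (orth e x) + 2 δ q fderiv F x e > 0` by `trans` (with `ε`: if `fderiv F x e ≤ 0` then
`-2 δ q fderiv F x e ≤ ε * -(fderiv F x e) < fderiv F x (orth e x)`; `fderiv F x e < 0` by `low` and
`bowl`).  Existence: `g r > 0` for large `r` since `{F ≤ 0}` is bounded; intermediate value theorem.
Uniqueness: let `r < r'` be zeros.  `g > 0` just to the right of `r`, `g < 0` just to the left of `r'`.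
Let `t = sSup {s ∈ [r, r'] | 0 ≤ g on ... }`, or: the set `{s ∈ [s₀, r'] | g s ≤ 0}` (`s₀` slightly
larger than `r`, `g s₀ > 0`) is compact and nonempty; its minimum `t > s₀` satisfies `g t = 0` and
`g > 0` on `[s₀, t)`, so `g' t ≤ 0`, a contradiction. -/
theorem sigma_zero {F : V → ℝ} {e : V} {c h₀ δ a₀ : ℝ} (hB : Bot F e c h₀ δ a₀) (w : V)
    (hw : ⟪e, w⟫ = 0) (hw1 : ‖w‖ = 1) :
    ∃! r : ℝ, 0 < r ∧ F (r • w + (c + δ * r ^ 2) • e) = 0 := by
  have he := hB.unit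
  have hcont : Continuous fun r : ℝ => F (r • w + (c + δ * r ^ 2) • e) := by
    have := hB.smooth.continuous
    fun_prop
  have hdiff : Differentiable ℝ F := hB.smooth.differentiable (by simp)
  have hder : ∀ r, 0 < r → F (r • w + (c + δ * r ^ 2) • e) = 0 →
      ∃ d, 0 < d ∧ HasDerivAt (fun r : ℝ => F (r • w + (c + δ * r ^ 2) • e)) d r := by
    intro r hr h0
    have h1 : HasDerivAt (fun r : ℝ => r • w + (c + δ * r ^ 2) • e) (w + (2 * δ * r) • e) r := by
      have h2 : HasDerivAt (fun r : ℝ => r • w) ((1 : ℝ) • w) r := (hasDerivAt_id r).smul_const w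
      have h3 : HasDerivAt (fun r : ℝ => c + δ * r ^ 2) (2 * δ * r) r := by
        have h4 := ((hasDerivAt_pow 2 r).const_mul δ).const_add c
        have h5 : 2 * δ * r = δ * (((2 : ℕ) : ℝ) * r ^ (2 - 1)) := by
          norm_num
          ring
        rw [h5]
        exact h4
      rw [one_smul] at h2
      exact h2.add (h3.smul_const e)
    have h5 := (hdiff (r • w + (c + δ * r ^ 2) • e)).hasFDerivAt.comp_hasDerivAt r h1
    refine ⟨_, ?_, h5⟩
    have hq := Sigma_qd he hw hw1 r (c + δ * r ^ 2)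
    have hi := Sigma_inner he hw r (c + δ * r ^ 2)
    have ho := Sigma_orth he hw r (c + δ * r ^ 2)
    obtain ⟨ε, hε, hε1, hε2⟩ := hB.trans _ h0 (by rw [hq, hi])
    have h6 := hB.low _ h0.le (hB.bowl _ h0.le (by rw [hq, hi]))
    rw [hq] at hε1
    rw [ho, map_smul, smul_eq_mul] at hε2
    rw [map_add, map_smul, smul_eq_mul]
    obtain ⟨D, hD⟩ : ∃ D, D = fderiv ℝ F (r • w + (c + δ * r ^ 2) • e) e := ⟨_, rfl⟩
    obtain ⟨W, hW⟩ : ∃ W, W = fderiv ℝ F (r • w + (c + δ * r ^ 2) • e) w := ⟨_, rfl⟩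
    rw [← hD] at h6 hε2 ⊢
    rw [← hW] at hε2 ⊢
    have h7 : 0 < r * (W + 2 * δ * r * D) := by
      have h8 : 0 < -D * (ε - 2 * δ * r ^ 2) := mul_pos (by linarith) (by linarith)
      nlinarith
    exact (mul_pos_iff_of_pos_left hr).1 h7
  obtain ⟨R, hR⟩ := hB.bdd.exists_norm_le
  have hpos : 0 < F ((|R| + 1) • w + (c + δ * (|R| + 1) ^ 2) • e) := by
    by_contra hcon
    have h1 := hR _ (not_lt.1 hcon)
    have h2 := norm_sq_qd he ((|R| + 1) • w + (c + δ * (|R| + 1) ^ 2) • e)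
    rw [Sigma_qd he hw hw1] at h2
    have h3 : R < |R| + 1 := by linarith [le_abs_self R]
    have h4 := norm_nonneg ((|R| + 1) • w + (c + δ * (|R| + 1) ^ 2) • e)
    have h5 : (|R| + 1) ^ 2 ≤ ‖(|R| + 1) • w + (c + δ * (|R| + 1) ^ 2) • e‖ ^ 2 := by
      rw [h2]
      nlinarith [sq_nonneg ⟪e, (|R| + 1) • w + (c + δ * (|R| + 1) ^ 2) • e⟫]
    have h6 : |R| + 1 ≤ ‖(|R| + 1) • w + (c + δ * (|R| + 1) ^ 2) • e‖ :=
      (sq_le_sq₀ (by positivity) h4).1 h5
    linarith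
  have hneg : F ((0 : ℝ) • w + (c + δ * (0 : ℝ) ^ 2) • e) < 0 := by
    have h1 := hB.axis c hB.c_pos hB.c_lt.le
    simpa using h1
  have h0R : (0 : ℝ) ≤ |R| + 1 := by positivity
  obtain ⟨r, hr, hr0⟩ := intermediate_value_Icc h0R hcont.continuousOn ⟨hneg.le, hpos.le⟩
  have hr0 : F (r • w + (c + δ * r ^ 2) • e) = 0 := hr0
  have hrpos : 0 < r := by
    rcases hr.1.lt_or_eq with h | h
    · exact h
    · rw [← h] at hr0
      exact absurd hr0 hneg.ne
  refine ⟨r, ⟨hrpos, hr0⟩, ?_⟩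
  rintro r' ⟨hr', hr0'⟩
  rcases lt_trichotomy r' r with h | h | h
  · exact (Sigma_lt hcont hder hr' hr0' hr0 h).elim
  · exact h
  · exact (Sigma_lt hcont hder hrpos hr0 hr0' h).elim

/-- The intersection of the hypersurface with the bowl is a sphere.

PROOF.  Let `S = {x | F x = 0 ∧ ⟪e, x⟫ = c + δ q}`, closed and bounded, so a compact space.  For
`x ∈ S`, `orth e x ≠ 0` (otherwise `x = c • e`, but `F (c • e) < 0`).  The map
`Φ x = ‖orth e x‖⁻¹ • orth e x` (in `(ℝ ∙ e)ᗮ`, of norm one) is continuous.  With `r = ‖orth e x‖`,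
`w = Φ x`: `x = r • w + (c + δ r²) • e`.  So `Φ` is bijective by `sigma_zero`.  A continuous bijection
from a compact space to a Hausdorff space is a homeomorphism (`Continuous.homeoOfEquivCompactToT2`). -/
theorem sigma_homeo {F : V → ℝ} {e : V} {c h₀ δ a₀ : ℝ} (hB : Bot F e c h₀ δ a₀) :
    Nonempty ({x : V | F x = 0 ∧ ⟪e, x⟫ = c + δ * qd e x} ≃ₜ sphere (0 : (ℝ ∙ e)ᗮ) 1) := by
  have he := hB.unit
  have hFc := hB.smooth.continuous
  have hoc : Continuous (orth e : V → V) := (contDiff_orth e).continuous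
  have hqc : Continuous (qd e : V → ℝ) := by
    unfold qd
    exact hoc.norm.pow 2
  have : ProperSpace V := FiniteDimensional.proper ℝ V
  have hcomp : IsCompact {x : V | F x = 0 ∧ ⟪e, x⟫ = c + δ * qd e x} := by
    refine isCompact_of_isClosed_isBounded ?_ (hB.bdd.subset fun x hx => ?_)
    · exact (isClosed_eq hFc continuous_const).inter
        (isClosed_eq (by fun_prop) (by fun_prop))
    · exact le_of_eq hx.1
  have : CompactSpace {x : V | F x = 0 ∧ ⟪e, x⟫ = c + δ * qd e x} := isCompact_iff_compactSpace.1 hcomp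
  have hne : ∀ x : V, F x = 0 → ⟪e, x⟫ = c + δ * qd e x → 0 < ‖orth e x‖ := by
    intro x hx hxq
    rw [norm_pos_iff]
    intro h0
    have h1 : qd e x = 0 := by
      unfold qd
      rw [h0, norm_zero]
      norm_num
    rw [h1, mul_zero, add_zero] at hxq
    have h2 := eq_of_qd_zero x h1
    have h3 := hB.axis c hB.c_pos hB.c_lt.le
    rw [h2, hxq] at hx
    exact h3.ne hx
  have hdec : ∀ x : V, F x = 0 → ⟪e, x⟫ = c + δ * qd e x →
      ‖orth e x‖ • (‖orth e x‖⁻¹ • orth e x) + (c + δ * ‖orth e x‖ ^ 2) • e = x := by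
    intro x hx hxq
    rw [smul_smul, mul_inv_cancel₀ (hne x hx hxq).ne', one_smul]
    have h1 : c + δ * ‖orth e x‖ ^ 2 = ⟪e, x⟫ := hxq.symm
    rw [h1]
    unfold orth
    exact sub_add_cancel _ _
  have hmem : ∀ x : V, ‖orth e x‖⁻¹ • orth e x ∈ (ℝ ∙ e)ᗮ := by
    intro x
    rw [Submodule.mem_orthogonal_singleton_iff_inner_right, real_inner_smul_right, inner_orth he,
      mul_zero]
  have hnorm : ∀ x : V, F x = 0 → ⟪e, x⟫ = c + δ * qd e x → ‖‖orth e x‖⁻¹ • orth e x‖ = 1 := by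
    intro x hx hxq
    rw [norm_smul, norm_inv, norm_norm, inv_mul_cancel₀ (hne x hx hxq).ne']
  let Φ : {x : V | F x = 0 ∧ ⟪e, x⟫ = c + δ * qd e x} → sphere (0 : (ℝ ∙ e)ᗮ) 1 :=
    fun x => ⟨⟨‖orth e x.1‖⁻¹ • orth e x.1, hmem x.1⟩, by
      rw [mem_sphere_zero_iff_norm]
      exact hnorm x.1 x.2.1 x.2.2⟩
  have hΦc : Continuous Φ := by
    refine Continuous.subtype_mk (Continuous.subtype_mk ?_ _) _
    have h1 : Continuous fun x : {x : V | F x = 0 ∧ ⟪e, x⟫ = c + δ * qd e x} => orth e x.1 :=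
      hoc.comp continuous_subtype_val
    exact (h1.norm.inv₀ fun x => (hne x.1 x.2.1 x.2.2).ne').smul h1
  have hΦb : Function.Bijective Φ := by
    constructor
    · intro x y hxy
      have h1 : ‖orth e x.1‖⁻¹ • orth e x.1 = ‖orth e y.1‖⁻¹ • orth e y.1 :=
        congrArg (fun z : sphere (0 : (ℝ ∙ e)ᗮ) 1 => ((z : (ℝ ∙ e)ᗮ) : V)) hxy
      have hw0 : ⟪e, ‖orth e y.1‖⁻¹ • orth e y.1⟫ = 0 := by
        rw [real_inner_smul_right, inner_orth he, mul_zero]
      have h2 := (sigma_zero hB (‖orth e y.1‖⁻¹ • orth e y.1) hw0 (hnorm y.1 y.2.1 y.2.2)).unique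
        (y₁ := ‖orth e x.1‖) (y₂ := ‖orth e y.1‖)
        ⟨hne x.1 x.2.1 x.2.2, by
          rw [← h1, hdec x.1 x.2.1 x.2.2]
          exact x.2.1⟩
        ⟨hne y.1 y.2.1 y.2.2, by
          rw [hdec y.1 y.2.1 y.2.2]
          exact y.2.1⟩
      apply Subtype.ext
      rw [← hdec x.1 x.2.1 x.2.2, ← hdec y.1 y.2.1 y.2.2, h1, h2]
    · intro w
      have hw0 : ⟪e, ((w : (ℝ ∙ e)ᗮ) : V)⟫ = 0 :=
        Submodule.mem_orthogonal_singleton_iff_inner_right.1 (w : (ℝ ∙ e)ᗮ).2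
      have hw1 : ‖((w : (ℝ ∙ e)ᗮ) : V)‖ = 1 := by
        have h1 := w.2
        rw [mem_sphere_zero_iff_norm] at h1
        exact h1
      obtain ⟨r, ⟨hr, hr0⟩, -⟩ := sigma_zero hB _ hw0 hw1
      refine ⟨⟨r • ((w : (ℝ ∙ e)ᗮ) : V) + (c + δ * r ^ 2) • e, hr0, ?_⟩, ?_⟩
      · rw [Sigma_inner he hw0, Sigma_qd he hw0 hw1]
      · apply Subtype.ext
        apply Subtype.ext
        show ‖orth e (r • ((w : (ℝ ∙ e)ᗮ) : V) + (c + δ * r ^ 2) • e)‖⁻¹ •
          orth e (r • ((w : (ℝ ∙ e)ᗮ) : V) + (c + δ * r ^ 2) • e) = ((w : (ℝ ∙ e)ᗮ) : V)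
        rw [Sigma_orth he hw0, norm_smul, hw1, mul_one, Real.norm_of_nonneg hr.le, smul_smul,
          inv_mul_cancel₀ hr.ne', one_smul]
  exact ⟨Continuous.homeoOfEquivCompactToT2 (f := Equiv.ofBijective Φ hΦb) hΦc⟩

end Pool.Schoen
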