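import Mathlib
import Pool.Agent.H.MP_6c077c_gt.IxC.Sigma
import Pool.Agent.H.MP_6c077c_gt.IxB.T1

/-! Index theorem, second half: topology of the complement in the bowl. -/

set_option autoImplicit false

namespace Pool.Schoen

open Filter Set Metric
open scoped Topology ContDiff RealInnerProductSpace

variable {V : Type*} [NormedAddCommGroup V] [InnerProductSpace ℝ V] [FiniteDimensional ℝ V]

/-- The part of the hypersurface above the bowl.

PROOF.  `M = {F = 0}` is connected with the lifting property (`level_top`, `IxB/T1.lean`).  Let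
`M₁ = {F = 0, c + δ q ≤ h}`, `M₂ = {F = 0, h ≤ c + δ q}`, closed, `M₁ ∪ M₂ = M`,
`S = M₁ ∩ M₂ = {F = 0, h = c + δ q}`.  By `sigma_homeo`, `S` is homeomorphic to the unit sphere of
`(ℝ ∙ e)ᗮ`, whose dimension is `≥ 3`: preconnected (`isPreconnected_sphere`, image under the
homeomorphism) and `LiftS` (`liftS_sphere`, `LiftS.homeo` with the inverse).  `M₁` preconnected:
`cgConn_aux` (`CG/Conn.lean`) with `B = M`, `W = M₁`, `M = S`, `C = M₂`.  `LiftS M₁`:
`LiftS.of_union`. -/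
theorem upper_top (hdim : 4 ≤ Module.finrank ℝ V) {F : V → ℝ} {e : V} {c h₀ δ a₀ : ℝ}
    (hB : Bot F e c h₀ δ a₀) (hMc : IsConnected {x | F x = 0}) (hMl : LiftS {x | F x = 0}) :
    IsPreconnected {x | F x = 0 ∧ c + δ * qd e x ≤ ⟪e, x⟫} ∧
      LiftS {x | F x = 0 ∧ c + δ * qd e x ≤ ⟪e, x⟫} := by
  obtain ⟨Φ⟩ := sigma_homeo hB
  have hFc : Continuous F := hB.smooth.continuous
  have hlc : Continuous (lf e (-1) δ c) := lf_continuous (-1) δ c
  have hl : ∀ x, lf e (-1) δ c x = -⟪e, x⟫ + δ * qd e x + c := by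
    intro x
    unfold lf
    ring
  have he0 : e ≠ 0 := by
    intro h
    have := hB.unit
    rw [h, norm_zero] at this
    exact zero_ne_one this
  have hfin : 3 ≤ Module.finrank ℝ (ℝ ∙ e)ᗮ := by
    have h1 := Submodule.finrank_add_finrank_orthogonal (ℝ ∙ e)
    rw [finrank_span_singleton he0] at h1
    omega
  have hrank : 1 < Module.rank ℝ (ℝ ∙ e)ᗮ := by
    have h1 : (1 : ℕ) < Module.finrank ℝ (ℝ ∙ e)ᗮ := by omega
    have h2 := (Module.lt_rank_of_lt_finrank h1)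
    exact_mod_cast h2
  have hsc : IsConnected (sphere (0 : (ℝ ∙ e)ᗮ) 1) := isConnected_sphere hrank 0 zero_le_one
  have hcs : ConnectedSpace (sphere (0 : (ℝ ∙ e)ᗮ) 1) := isConnected_iff_connectedSpace.1 hsc
  have hS : {x : V | F x = 0 ∧ ⟪e, x⟫ = c + δ * qd e x} =
      range fun y : sphere (0 : (ℝ ∙ e)ᗮ) 1 => (Φ.symm y : V) := by
    ext x
    constructor
    · intro hx
      exact ⟨Φ ⟨x, hx⟩, by simp⟩
    · rintro ⟨y, rfl⟩
      exact (Φ.symm y).2
  have hSc : IsPreconnected {x : V | F x = 0 ∧ ⟪e, x⟫ = c + δ * qd e x} := by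
    rw [hS]
    exact (isConnected_range (continuous_subtype_val.comp Φ.symm.continuous)).isPreconnected
  have hSl : LiftS {x : V | F x = 0 ∧ ⟪e, x⟫ = c + δ * qd e x} :=
    LiftS.homeo (A := sphere (0 : (ℝ ∙ e)ᗮ) 1)
      (B := {x : V | F x = 0 ∧ ⟪e, x⟫ = c + δ * qd e x}) Φ.symm (liftS_sphere hfin)
  have hM1 : {x | F x = 0 ∧ c + δ * qd e x ≤ ⟪e, x⟫} =
      {x | F x = 0} ∩ {x | lf e (-1) δ c x ≤ 0} := by
    ext x
    constructor
    · rintro ⟨h1, h2⟩
      refine ⟨h1, ?_⟩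
      change lf e (-1) δ c x ≤ 0
      rw [hl]
      linarith
    · rintro ⟨h1, h2⟩
      have h2' : lf e (-1) δ c x ≤ 0 := h2
      rw [hl] at h2'
      exact ⟨h1, by linarith⟩
  have hM1c : IsClosed ({x | F x = 0} ∩ {x | lf e (-1) δ c x ≤ 0}) :=
    (isClosed_eq hFc continuous_const).inter (isClosed_le hlc continuous_const)
  have hM2c : IsClosed ({x | F x = 0} ∩ {x | 0 ≤ lf e (-1) δ c x}) :=
    (isClosed_eq hFc continuous_const).inter (isClosed_le continuous_const hlc)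
  rw [hM1]
  constructor
  · refine cgConn_aux (B := {x | F x = 0}) (M := {x : V | F x = 0 ∧ ⟪e, x⟫ = c + δ * qd e x})
      (C := {x | F x = 0} ∩ {x | 0 ≤ lf e (-1) δ c x}) hMc.isPreconnected inter_subset_left
      hM1c ?_ hSc hM2c ?_ ?_
    · rintro x ⟨h1, h2⟩
      refine ⟨h1, ?_⟩
      change lf e (-1) δ c x ≤ 0
      rw [hl]
      linarith
    · intro x h1 h2
      refine ⟨h1, ?_⟩
      change 0 ≤ lf e (-1) δ c x
      by_contra h3
      exact h2 ⟨h1, (not_le.1 h3).le⟩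
    · rintro x ⟨h1, h2⟩ ⟨-, h3⟩
      have h2' : 0 ≤ lf e (-1) δ c x := h2
      have h3' : lf e (-1) δ c x ≤ 0 := h3
      rw [hl] at h2' h3'
      exact ⟨h1, by linarith⟩
  · have hU : ({x | F x = 0} ∩ {x | lf e (-1) δ c x ≤ 0}) ∪
        ({x | F x = 0} ∩ {x | 0 ≤ lf e (-1) δ c x}) = {x | F x = 0} := by
      ext x
      constructor
      · rintro (h | h)
        · exact h.1
        · exact h.1
      · intro h
        rcases le_total (lf e (-1) δ c x) 0 with h1 | h1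
        · exact Or.inl ⟨h, h1⟩
        · exact Or.inr ⟨h, h1⟩
    have hI : ({x | F x = 0} ∩ {x | lf e (-1) δ c x ≤ 0}) ∩
        ({x | F x = 0} ∩ {x | 0 ≤ lf e (-1) δ c x}) =
          {x : V | F x = 0 ∧ ⟪e, x⟫ = c + δ * qd e x} := by
      ext x
      constructor
      · rintro ⟨⟨h1, h3⟩, -, h2⟩
        have h2' : 0 ≤ lf e (-1) δ c x := h2
        have h3' : lf e (-1) δ c x ≤ 0 := h3
        rw [hl] at h2' h3'
        exact ⟨h1, by linarith⟩
      · rintro ⟨h1, h2⟩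
        have h3 : lf e (-1) δ c x = 0 := by
          rw [hl]
          linarith
        exact ⟨⟨h1, h3.le⟩, h1, h3.ge⟩
    refine LiftS.of_union hM1c hM2c ?_ ?_
    · rw [hU]
      exact hMl
    · rw [hI]
      exact hSl

/-- The complement of `{F < 0}` in the bowl is connected and has the lifting property.

PROOF.  Let `K = {x | max (lf e (-1) δ c x) (lf e 1 1 (-a) x) ≤ 0}`: closed, convex (`lf_convex`,
`ConvexOn.sup`, `ConvexOn.convex_le`), `a₀ • e` is an interior point (both functions are negative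
there: `c < h₀ < a₀ < a`), so `LiftS K` (`liftS_convex`) and `K` is preconnected
(`Convex.isPreconnected`).  `H = {capF ≤ 0} = {0 ≤ F} ∩ K`, `D = {F ≤ 0} ∩ K`, closed,
`H ∪ D = K`, `H ∩ D = {F = 0} ∩ K = {F = 0, c + δ q ≤ h}` because `F x ≤ 0` gives `h + q < a₀ < a`
(`top`).  `LiftS H`: `LiftS.of_union` and `upper_top`.  Preconnected: `cgConn_aux` with `B = K`,
`W = H`, `M = {F = 0, c + δ q ≤ h}`, `C = D`.  Nonempty: `a₀ • e`, where `F > 0` (`top` with
`⟪e, a₀ • e⟫ + qd e (a₀ • e) = a₀`). -/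
theorem cap_top (hdim : 4 ≤ Module.finrank ℝ V) {F : V → ℝ} {e : V} {c h₀ δ a₀ : ℝ}
    (hB : Bot F e c h₀ δ a₀) (hMc : IsConnected {x | F x = 0}) (hMl : LiftS {x | F x = 0}) (a : ℝ)
    (ha : a₀ < a) :
    IsConnected {x | capF F e c δ a x ≤ 0} ∧ LiftS {x | capF F e c δ a x ≤ 0} := by
  obtain ⟨hUc, hUl⟩ := upper_top hdim hB hMc hMl
  have hFc : Continuous F := hB.smooth.continuous
  have hl1 : Continuous (lf e (-1) δ c) := lf_continuous (-1) δ c
  have hl2 : Continuous (lf e 1 1 (-a)) := lf_continuous 1 1 (-a)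
  have hlv1 : ∀ x, lf e (-1) δ c x = -⟪e, x⟫ + δ * qd e x + c := by
    intro x
    unfold lf
    ring
  have hlv2 : ∀ x, lf e 1 1 (-a) x = ⟪e, x⟫ + qd e x - a := by
    intro x
    unfold lf
    ring
  obtain ⟨K, hK⟩ : ∃ K : Set V, K = {x | lf e (-1) δ c x ≤ 0} ∩ {x | lf e 1 1 (-a) x ≤ 0} :=
    ⟨_, rfl⟩
  have hKm : ∀ x, x ∈ K ↔ lf e (-1) δ c x ≤ 0 ∧ lf e 1 1 (-a) x ≤ 0 := by
    intro x
    rw [hK]
    exact Iff.rfl
  have hKc : IsClosed K := by
    rw [hK]
    exact (isClosed_le hl1 continuous_const).inter (isClosed_le hl2 continuous_const)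
  have hKv : Convex ℝ K := by
    rw [hK]
    refine Convex.inter ?_ ?_
    · have h := (lf_convex (e := e) (-1) c hB.δ_pos.le).convex_le 0
      have h2 : {x | x ∈ (univ : Set V) ∧ lf e (-1) δ c x ≤ 0} = {x | lf e (-1) δ c x ≤ 0} := by
        ext x
        exact ⟨fun h => h.2, fun h => ⟨mem_univ _, h⟩⟩
      rwa [h2] at h
    · have h := (lf_convex (e := e) 1 (-a) (zero_le_one (α := ℝ))).convex_le 0
      have h2 : {x | x ∈ (univ : Set V) ∧ lf e 1 1 (-a) x ≤ 0} = {x | lf e 1 1 (-a) x ≤ 0} := by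
        ext x
        exact ⟨fun h => h.2, fun h => ⟨mem_univ _, h⟩⟩
      rwa [h2] at h
  have hv1 : lf e (-1) δ c (a₀ • e) < 0 := by
    rw [lf_smul_unit hB.unit]
    have h1 := hB.c_lt
    have h2 := hB.h_lt
    linarith
  have hv2 : lf e 1 1 (-a) (a₀ • e) < 0 := by
    rw [lf_smul_unit hB.unit]
    linarith
  have hKi : (interior K).Nonempty := by
    refine ⟨a₀ • e, mem_interior.2 ⟨{x | lf e (-1) δ c x < 0} ∩ {x | lf e 1 1 (-a) x < 0}, ?_,
      (isOpen_lt hl1 continuous_const).inter (isOpen_lt hl2 continuous_const), hv1, hv2⟩⟩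
    rintro x ⟨h1, h2⟩
    rw [hKm]
    exact ⟨le_of_lt h1, le_of_lt h2⟩
  have hKl : LiftS K := liftS_convex K hKv hKc hKi
  have hcap : {x | capF F e c δ a x ≤ 0} = {x | 0 ≤ F x} ∩ K := by
    ext x
    have h1 : capF F e c δ a x ≤ 0 ↔
        -F x ≤ 0 ∧ lf e (-1) δ c x ≤ 0 ∧ lf e 1 1 (-a) x ≤ 0 := by
      unfold capF
      rw [max_le_iff, max_le_iff]
    constructor
    · intro h
      obtain ⟨h2, h3⟩ := h1.1 h
      exact ⟨neg_nonpos.1 h2, (hKm x).2 h3⟩
    · rintro ⟨h2, h3⟩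
      exact h1.2 ⟨neg_nonpos.2 h2, (hKm x).1 h3⟩
  have hHc : IsClosed ({x | 0 ≤ F x} ∩ K) := (isClosed_le continuous_const hFc).inter hKc
  have hDc : IsClosed ({x | F x ≤ 0} ∩ K) := (isClosed_le hFc continuous_const).inter hKc
  have hUp : ∀ x, x ∈ {x | F x = 0 ∧ c + δ * qd e x ≤ ⟪e, x⟫} ↔ F x = 0 ∧ x ∈ K := by
    intro x
    constructor
    · rintro ⟨h1, h2⟩
      refine ⟨h1, (hKm x).2 ⟨?_, ?_⟩⟩
      · rw [hlv1]
        linarith
      · rw [hlv2]
        have h3 := hB.top x h1.le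
        linarith
    · rintro ⟨h1, h2⟩
      have h3 := ((hKm x).1 h2).1
      rw [hlv1] at h3
      exact ⟨h1, by linarith⟩
  rw [hcap]
  refine ⟨⟨⟨a₀ • e, ?_, ?_⟩, ?_⟩, ?_⟩
  · change 0 ≤ F (a₀ • e)
    by_contra h
    have h1 := hB.top (a₀ • e) (not_le.1 h).le
    rw [inner_smul_unit hB.unit, qd_smul_unit hB.unit] at h1
    linarith
  · exact (hKm _).2 ⟨hv1.le, hv2.le⟩
  · refine cgConn_aux (B := K) (M := {x | F x = 0 ∧ c + δ * qd e x ≤ ⟪e, x⟫})
      (C := {x | F x ≤ 0} ∩ K) hKv.isPreconnected inter_subset_right hHc ?_ hUc hDc ?_ ?_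
    · intro x hx
      obtain ⟨h1, h2⟩ := (hUp x).1 hx
      exact ⟨h1.ge, h2⟩
    · intro x h1 h2
      refine ⟨?_, h1⟩
      change F x ≤ 0
      by_contra h3
      exact h2 ⟨(not_le.1 h3).le, h1⟩
    · rintro x ⟨h1, h2⟩ ⟨h3, -⟩
      exact (hUp x).2 ⟨le_antisymm h1 h3, h2⟩
  · refine LiftS.of_union hHc hDc ?_ ?_
    · have hU : ({x | 0 ≤ F x} ∩ K) ∪ ({x | F x ≤ 0} ∩ K) = K := by
        ext x
        constructor
        · rintro (h | h)
          · exact h.2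
          · exact h.2
        · intro h
          rcases le_total (F x) 0 with h1 | h1
          · exact Or.inr ⟨h1, h⟩
          · exact Or.inl ⟨h1, h⟩
      rw [hU]
      exact hKl
    · have hI : ({x | 0 ≤ F x} ∩ K) ∩ ({x | F x ≤ 0} ∩ K) =
          {x | F x = 0 ∧ c + δ * qd e x ≤ ⟪e, x⟫} := by
        ext x
        constructor
        · rintro ⟨⟨h1, h2⟩, h3, -⟩
          exact (hUp x).2 ⟨le_antisymm h3 h1, h2⟩
        · intro h
          obtain ⟨h1, h2⟩ := (hUp x).1 h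
          exact ⟨⟨h1.ge, h2⟩, h1.le, h2⟩
      rw [hI]
      exact hUl

end Pool.Schoen
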