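import Mathlib
import Pool.Agent.H.MP_6c077c_gt.IxC.Leaf

/-! Index theorem, second half: shrinking the plate. -/

set_option autoImplicit false

namespace Pool.Schoen

open Filter Set
open scoped Topology ContDiff RealInnerProductSpace

variable {V : Type*} [NormedAddCommGroup V] [InnerProductSpace ℝ V] [FiniteDimensional ℝ V]

private theorem Plate1_grad {F : V → ℝ} {x : V} (h : gradient F x ≠ 0) :
    fderiv ℝ F x (-gradient F x) < 0 := by
  have h1 : ⟪gradient F x, gradient F x⟫ = fderiv ℝ F x (gradient F x) := by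
    conv_lhs => rw [gradient, InnerProductSpace.toDual_symm_apply]
    rfl
  rw [map_neg, ← h1, real_inner_self_eq_norm_sq]
  have h2 : 0 < ‖gradient F x‖ := norm_pos_iff.2 h
  have h3 : 0 < ‖gradient F x‖ ^ 2 := by positivity
  linarith

private theorem Plate1_fd {F : V → ℝ} {x e : V} (α β : ℝ) :
    fderiv ℝ F x (α • orth e x + β • e) =
      α * fderiv ℝ F x (orth e x) + β * fderiv ℝ F x e := by
  rw [map_add, map_smul, map_smul, smul_eq_mul, smul_eq_mul]

/-- Making the plate thin.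

PROOF.  `hom_of_dz` with `H t = plateF F e c (δ + t * (K - δ)) (-1)`; `k = δ + t (K - δ) ∈ [δ, K]`.
Write `P₁ = lf e (-1) k (-1)`, `P₂ = lf e 1 0 (-c)`, `h = ⟪e, x⟫`, `q = qd e x`.
Bounded: a zero has `F x = 0`, or `k q - 1 ≤ h ≤ c`, so `δ q - 1 ≤ h ≤ c` (`bowl_bdd`).
Let `H t x = min (F x) (max (P₁ x) (P₂ x)) = 0`.
(a) `F x = 0 < max (P₁ x) (P₂ x)`: `v = -gradient F x`.
(b) `F x = 0 = max (P₁ x) (P₂ x)`: `h ≤ c < h₀`, `x ≠ 0` (at the origin both are negative),
 `0 < fderiv F x (orth e x)` (`rad`), `fderiv F x e < 0` (`low`); choose `0 < ε < 1` with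
 `ε * -(fderiv F x e) < fderiv F x (orth e x)`; `v = -orth e x - ε • e`: `F`: `< 0`;
 `P₁` (if `P₁ x = 0`: `k q = 1 + h ≥ 1`): `ε - 2 k q < 0`; `P₂`: `-ε`.
(c) `F x > 0 = max (P₁ x) (P₂ x)`: if `P₁ x = 0 = P₂ x`: `k q = 1 + c`: `v = -orth e x - e`:
 `1 - 2 (1 + c) < 0`, `-1 < 0`.  If only `P₁ x = 0`: `v = e`; if only `P₂ x = 0`: `v = -e`. -/
theorem plate_thin {F : V → ℝ} {e : V} {c h₀ δ a₀ K : ℝ} (hB : Bot F e c h₀ δ a₀)
    (hK : δ ≤ K) : Hom (plateF F e c δ (-1)) (plateF F e c K (-1)) := by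
  have he := hB.unit
  have hc := hB.c_pos
  have hδ := hB.δ_pos
  have hkr : ∀ t ∈ Icc (0 : ℝ) 1, δ ≤ δ + t * (K - δ) := by
    intro t ht
    nlinarith [ht.1, ht.2]
  have cF : Continuous fun p : ℝ × V => F p.2 := hB.smooth.continuous.comp continuous_snd
  have cP : Continuous fun p : ℝ × V => lf e (-1) (δ + p.1 * (K - δ)) (-1) p.2 :=
    lf_continuous' (A := fun _ => -1) (B := fun t => δ + t * (K - δ)) (C := fun _ => -1)
      continuous_const (by fun_prop) continuous_const
  have cQ : Continuous fun p : ℝ × V => lf e 1 0 (-c) p.2 :=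
    (lf_continuous _ _ _).comp continuous_snd
  have hmain := hom_of_dz (fun t => plateF F e c (δ + t * (K - δ)) (-1))
    (cF.min (cP.max cQ)) ?_ ?_
  · simp only [zero_mul, add_zero, one_mul, add_sub_cancel] at hmain
    exact hmain
  · obtain ⟨R1, hR1⟩ := hB.bdd.exists_norm_le
    obtain ⟨R2, hR2⟩ := bowl_bdd he hδ c
    refine ⟨max R1 R2, fun t ht x hx => ?_⟩
    have hx' : min (F x) (max (lf e (-1) (δ + t * (K - δ)) (-1) x) (lf e 1 0 (-c) x)) = 0 := hx
    rcases min_le_iff.1 hx'.le with h1 | h1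
    · exact (hR1 x h1).trans (le_max_left _ _)
    · obtain ⟨h2, h3⟩ := max_le_iff.1 h1
      have hk := mul_le_mul_of_nonneg_right (hkr t ht) (qd_nonneg e x)
      refine (hR2 x ?_ ?_).trans (le_max_right _ _)
      · unfold lf at h2 ⊢
        linarith
      · unfold lf at h3
        linarith
  · intro t ht x hx
    have hk := hkr t ht
    generalize hkd : δ + t * (K - δ) = k at hk
    have hq := qd_nonneg e x
    have hx' : min (F x) (max (lf e (-1) (δ + t * (K - δ)) (-1) x) (lf e 1 0 (-c) x)) = 0 := hx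
    rw [hkd] at hx'
    have hF0 : 0 ≤ F x := hx'.symm.le.trans (min_le_left _ _)
    have hM0 : 0 ≤ max (lf e (-1) k (-1) x) (lf e 1 0 (-c) x) :=
      hx'.symm.le.trans (min_le_right _ _)
    have build : ∀ v, DZ (fun _ => F) t x v →
        DZ (fun s y => max (lf e (-1) (δ + s * (K - δ)) (-1) y) (lf e 1 0 (-c) y)) t x v →
        DZ (fun t => plateF F e c (δ + t * (K - δ)) (-1)) t x v := fun v h1 h2 =>
      dz_min cF (cP.max cQ) h1 h2
    have dP : ∀ α β : ℝ, (lf e (-1) k (-1) x = 0 → -1 * β + 2 * α * k * qd e x < 0) →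
        DZ (fun s => lf e (-1) (δ + s * (K - δ)) (-1)) t x (α • orth e x + β • e) := by
      intro α β hβ
      refine dz_lf he (A := fun _ => -1) (B := fun s => δ + s * (K - δ)) (fun _ => -1)
        continuous_const (by fun_prop) t x α β ?_
      rw [hkd]
      exact hβ
    have dQ : ∀ α β : ℝ, β < 0 → DZ (fun _ => lf e 1 0 (-c)) t x (α • orth e x + β • e) := by
      intro α β hβ
      refine dz_static (dz1_lf he _ _ _ x α β (fun _ => ?_))
      simpa using hβ
    rcases eq_or_lt_of_le hF0 with hF | hF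
    · rcases eq_or_lt_of_le hM0 with hM | hM
      · obtain ⟨hP, hQ⟩ := max_le_iff.1 hM.symm.le
        have hx0 : x ≠ 0 := by
          rintro rfl
          have e1 : qd e (0 : V) = 0 := by
            have := qd_smul_unit he 0
            rwa [zero_smul] at this
          have e2 : max (lf e (-1) k (-1) (0 : V)) (lf e 1 0 (-c) (0 : V)) < 0 := by
            refine max_lt ?_ ?_
            · unfold lf; rw [e1, inner_zero_right]; linarith
            · unfold lf; rw [e1, inner_zero_right]; linarith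
          linarith
        have hh := hB.strict x hF.symm.le hx0
        have hhle : ⟪e, x⟫ ≤ h₀ := by
          unfold lf at hQ
          linarith [hB.c_lt]
        have hrad := hB.rad x hF.symm hx0 hhle
        have hlow := hB.low x hF.symm.le hhle
        have hE : 0 < -(fderiv ℝ F x e) := by linarith
        obtain ⟨ε, hε, hε1, hε2⟩ : ∃ ε : ℝ, 0 < ε ∧ ε < 1 ∧
            ε * -(fderiv ℝ F x e) < fderiv ℝ F x (orth e x) := by
          refine ⟨min (1 / 2) (fderiv ℝ F x (orth e x) / (2 * -(fderiv ℝ F x e))),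
            lt_min (by norm_num) (div_pos hrad (by linarith)),
            (min_le_left _ _).trans_lt (by norm_num), ?_⟩
          refine (mul_le_mul_of_nonneg_right (min_le_right _ _) hE.le).trans_lt ?_
          rw [div_mul_eq_mul_div, div_lt_iff₀ (by linarith)]
          nlinarith
        refine ⟨(-1 : ℝ) • orth e x + (-ε) • e, build _ ?_ ?_⟩
        · refine dz_fun hB.smooth t fun _ => ?_
          rw [Plate1_fd]
          linarith
        · refine dz_max cP cQ (dP _ _ fun h0 => ?_) (dQ _ _ (by linarith))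
          unfold lf at h0
          linarith
      · refine ⟨-gradient F x, build _ (dz_fun hB.smooth t fun _ =>
          Plate1_grad (hB.reg x hF.symm)) (dz_of_ne ?_)⟩
        rw [hkd]
        exact hM.ne'
    · have dF : ∀ v, DZ (fun _ => F) t x v := fun v => dz_of_ne hF.ne'
      by_cases hP0 : lf e (-1) k (-1) x = 0
      · by_cases hQ0 : lf e 1 0 (-c) x = 0
        · refine ⟨(-1 : ℝ) • orth e x + (-1 : ℝ) • e, build _ (dF _) ?_⟩
          refine dz_max cP cQ (dP _ _ fun _ => ?_) (dQ _ _ (by norm_num))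
          unfold lf at hP0 hQ0
          linarith
        · refine ⟨(0 : ℝ) • orth e x + (1 : ℝ) • e, build _ (dF _) ?_⟩
          refine dz_max cP cQ (dP _ _ fun _ => ?_) (dz_of_ne hQ0)
          linarith
      · refine ⟨(0 : ℝ) • orth e x + (-1 : ℝ) • e, build _ (dF _) ?_⟩
        exact dz_max cP cQ (dP _ _ fun h0 => absurd h0 hP0) (dQ _ _ (by norm_num))

/-- Raising the bottom of the thin plate.

PROOF.  `hom_of_dz` with `H t = plateF F e c K (-1 + t * (d + 1))`; `s = -1 + t (d + 1) ∈ [-1, d]`.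
Write `P₁ = lf e (-1) K s`, `P₂ = lf e 1 0 (-c)`.  Bounded: a zero has `F x = 0`, or
`s + K q ≤ h ≤ c`, so `K q - 1 ≤ h ≤ c` (`bowl_bdd` for `K`).
Let `H t x = 0`.  (a) `F x = 0 < max (P₁ x) (P₂ x)`: `v = -gradient F x`.
(b) `F x = 0 = max (P₁ x) (P₂ x)`: if `P₂ x = 0` then `h = c` and `K q ≤ c - s ≤ c + 1`, so
 `F x < 0` by `hK2`, a contradiction; so `P₁ x = 0`, `h < c`: `v = e` (`α = 0`, `β = 1`): `F`:
 `fderiv F x e < 0` (`low`, `h ≤ h₀`); `P₁`: `-1`.
(c) `F x > 0 = max (P₁ x) (P₂ x)`: both zero: `K q = c - s ≥ c - d > 0`: choose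
 `0 < ε < 2 (c - d)`, `v = -orth e x - ε • e`: `P₁`: `ε - 2 K q < 0`; `P₂`: `-ε`.  Only `P₁ x = 0`:
 `v = e`; only `P₂ x = 0`: `v = -e`. -/
theorem plate_raise {F : V → ℝ} {e : V} {c h₀ δ a₀ K d : ℝ} (hB : Bot F e c h₀ δ a₀)
    (hK : 0 < K) (hd : d < c) (hd1 : -1 ≤ d)
    (hK2 : ∀ x, ⟪e, x⟫ = c → K * qd e x ≤ c + 1 → F x < 0) :
    Hom (plateF F e c K (-1)) (plateF F e c K d) := by
  have he := hB.unit
  have hc := hB.c_pos
  have hsr : ∀ t ∈ Icc (0 : ℝ) 1, -1 ≤ -1 + t * (d + 1) ∧ -1 + t * (d + 1) ≤ d := by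
    intro t ht
    constructor
    · nlinarith [ht.1, ht.2]
    · nlinarith [ht.1, ht.2]
  have cF : Continuous fun p : ℝ × V => F p.2 := hB.smooth.continuous.comp continuous_snd
  have cP : Continuous fun p : ℝ × V => lf e (-1) K (-1 + p.1 * (d + 1)) p.2 :=
    lf_continuous' (A := fun _ => -1) (B := fun _ => K) (C := fun t => -1 + t * (d + 1))
      continuous_const continuous_const (by fun_prop)
  have cQ : Continuous fun p : ℝ × V => lf e 1 0 (-c) p.2 :=
    (lf_continuous _ _ _).comp continuous_snd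
  have hmain := hom_of_dz (fun t => plateF F e c K (-1 + t * (d + 1)))
    (cF.min (cP.max cQ)) ?_ ?_
  · have e1 : (-1 : ℝ) + 0 * (d + 1) = -1 := by ring
    have e2 : (-1 : ℝ) + 1 * (d + 1) = d := by ring
    simp only [e1, e2] at hmain
    exact hmain
  · obtain ⟨R1, hR1⟩ := hB.bdd.exists_norm_le
    obtain ⟨R2, hR2⟩ := bowl_bdd he hK c
    refine ⟨max R1 R2, fun t ht x hx => ?_⟩
    have hx' : min (F x) (max (lf e (-1) K (-1 + t * (d + 1)) x) (lf e 1 0 (-c) x)) = 0 := hx
    rcases min_le_iff.1 hx'.le with h1 | h1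
    · exact (hR1 x h1).trans (le_max_left _ _)
    · obtain ⟨h2, h3⟩ := max_le_iff.1 h1
      have hs := (hsr t ht).1
      refine (hR2 x ?_ ?_).trans (le_max_right _ _)
      · unfold lf at h2 ⊢
        linarith
      · unfold lf at h3
        linarith
  · intro t ht x hx
    obtain ⟨hs1, hs2⟩ := hsr t ht
    generalize hsd : -1 + t * (d + 1) = s at hs1 hs2
    have hq := qd_nonneg e x
    have hx' : min (F x) (max (lf e (-1) K (-1 + t * (d + 1)) x) (lf e 1 0 (-c) x)) = 0 := hx
    rw [hsd] at hx'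
    have hF0 : 0 ≤ F x := hx'.symm.le.trans (min_le_left _ _)
    have hM0 : 0 ≤ max (lf e (-1) K s x) (lf e 1 0 (-c) x) :=
      hx'.symm.le.trans (min_le_right _ _)
    have build : ∀ v, DZ (fun _ => F) t x v →
        DZ (fun s y => max (lf e (-1) K (-1 + s * (d + 1)) y) (lf e 1 0 (-c) y)) t x v →
        DZ (fun t => plateF F e c K (-1 + t * (d + 1))) t x v := fun v h1 h2 =>
      dz_min cF (cP.max cQ) h1 h2
    have dP : ∀ α β : ℝ, (lf e (-1) K s x = 0 → -1 * β + 2 * α * K * qd e x < 0) →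
        DZ (fun s => lf e (-1) K (-1 + s * (d + 1))) t x (α • orth e x + β • e) := by
      intro α β hβ
      refine dz_lf he (A := fun _ => -1) (B := fun _ => K) (fun s => -1 + s * (d + 1))
        continuous_const continuous_const t x α β ?_
      rw [hsd]
      exact hβ
    have dQ : ∀ α β : ℝ, β < 0 → DZ (fun _ => lf e 1 0 (-c)) t x (α • orth e x + β • e) := by
      intro α β hβ
      refine dz_static (dz1_lf he _ _ _ x α β (fun _ => ?_))
      simpa using hβ
    rcases eq_or_lt_of_le hF0 with hF | hF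
    · rcases eq_or_lt_of_le hM0 with hM | hM
      · obtain ⟨hP, hQ⟩ := max_le_iff.1 hM.symm.le
        have hQ0 : lf e 1 0 (-c) x ≠ 0 := by
          intro h0
          unfold lf at h0 hP
          have h1 := hK2 x (by linarith) (by linarith)
          linarith
        have hhle : ⟪e, x⟫ ≤ h₀ := by
          unfold lf at hQ
          linarith [hB.c_lt]
        have hlow := hB.low x hF.symm.le hhle
        refine ⟨(0 : ℝ) • orth e x + (1 : ℝ) • e, build _ ?_ ?_⟩
        · refine dz_fun hB.smooth t fun _ => ?_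
          rw [Plate1_fd]
          linarith
        · refine dz_max cP cQ (dP _ _ fun h0 => ?_) (dz_of_ne hQ0)
          linarith
      · refine ⟨-gradient F x, build _ (dz_fun hB.smooth t fun _ =>
          Plate1_grad (hB.reg x hF.symm)) (dz_of_ne ?_)⟩
        rw [hsd]
        exact hM.ne'
    · have dF : ∀ v, DZ (fun _ => F) t x v := fun v => dz_of_ne hF.ne'
      by_cases hP0 : lf e (-1) K s x = 0
      · by_cases hQ0 : lf e 1 0 (-c) x = 0
        · refine ⟨(-1 : ℝ) • orth e x + (-(c - d)) • e, build _ (dF _) ?_⟩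
          refine dz_max cP cQ (dP _ _ fun _ => ?_) (dQ _ _ (by linarith))
          unfold lf at hP0 hQ0
          linarith
        · refine ⟨(0 : ℝ) • orth e x + (1 : ℝ) • e, build _ (dF _) ?_⟩
          refine dz_max cP cQ (dP _ _ fun _ => ?_) (dz_of_ne hQ0)
          linarith
      · refine ⟨(0 : ℝ) • orth e x + (-1 : ℝ) • e, build _ (dF _) ?_⟩
        exact dz_max cP cQ (dP _ _ fun h0 => absurd h0 hP0) (dQ _ _ (by norm_num))

end Pool.Schoen
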