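import Mathlib
import Pool.Agent.H.MP_6c077c_gt.IxC.Plate1

/-! Index theorem, second half: absorbing the plate. -/

set_option autoImplicit false

namespace Pool.Schoen

open Filter Set
open scoped Topology ContDiff RealInnerProductSpace

variable {V : Type*} [NormedAddCommGroup V] [InnerProductSpace ℝ V] [FiniteDimensional ℝ V]

/-- A thin plate near the axis is inside.

PROOF.  The segment `{t • e | c / 2 ≤ t ≤ c}` is compact and contained in the open set `{F < 0}`
(`axis`, `c < h₀`): there is `ρ > 0` with `F x < 0` whenever `‖x - t • e‖ < ρ` for some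
`t ∈ [c / 2, c]` (`IsCompact.exists_thickening_subset_open`).  For a point `x` with
`t = ⟪e, x⟫ ∈ [c / 2, c]`, `‖x - t • e‖ = ‖orth e x‖`, so `F x < 0` if `qd e x < ρ²`.  Take `K ≥ δ`
with `(c + 1) / K < ρ²`.  First claim: `K q ≤ c + 1`.  Second: `c / 2 + K q ≤ h ≤ c` implies
`h ∈ [c / 2, c]`, `K q ≤ c / 2 ≤ c + 1`. -/
theorem plate_const {F : V → ℝ} {e : V} {c h₀ δ a₀ : ℝ} (hB : Bot F e c h₀ δ a₀) :
    ∃ K : ℝ, δ ≤ K ∧ (∀ x, ⟪e, x⟫ = c → K * qd e x ≤ c + 1 → F x < 0) ∧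
      ∀ x, lf e (-1) K (c / 2) x ≤ 0 → lf e 1 0 (-c) x ≤ 0 → F x < 0 := by
  have hc := hB.c_pos
  have hK1 : IsCompact ((fun t : ℝ => t • e) '' Icc (c / 2) c) :=
    isCompact_Icc.image (by fun_prop)
  have hU : IsOpen {x : V | F x < 0} := isOpen_lt hB.smooth.continuous continuous_const
  have hsub : ((fun t : ℝ => t • e) '' Icc (c / 2) c) ⊆ {x : V | F x < 0} := by
    rintro _ ⟨t, ht, rfl⟩
    exact hB.axis t (by linarith [ht.1]) (by linarith [ht.2, hB.c_lt])
  obtain ⟨ρ, hρ, hth⟩ := hK1.exists_thickening_subset_open hU hsub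
  have key : ∀ x : V, c / 2 ≤ ⟪e, x⟫ → ⟪e, x⟫ ≤ c → qd e x < ρ ^ 2 → F x < 0 := by
    intro x h1 h2 h3
    apply hth
    rw [Metric.mem_thickening_iff]
    refine ⟨⟪e, x⟫ • e, ⟨_, ⟨h1, h2⟩, rfl⟩, ?_⟩
    rw [dist_eq_norm]
    exact lt_of_pow_lt_pow_left₀ 2 hρ.le h3
  have hρ2 : 0 < ρ ^ 2 := by positivity
  refine ⟨max δ ((c + 1) / ρ ^ 2 + 1), le_max_left _ _, ?_, ?_⟩
  · intro x h1 h2
    refine key x (by linarith) h1.le ?_
    by_contra h3
    have h4 : ((c + 1) / ρ ^ 2 + 1) * ρ ^ 2 ≤ max δ ((c + 1) / ρ ^ 2 + 1) * qd e x :=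
      mul_le_mul (le_max_right _ _) (not_lt.1 h3) hρ2.le
        ((by positivity : (0 : ℝ) ≤ (c + 1) / ρ ^ 2 + 1).trans (le_max_right _ _))
    have h5 : ((c + 1) / ρ ^ 2 + 1) * ρ ^ 2 = c + 1 + ρ ^ 2 := by
      field_simp
    linarith
  · intro x h1 h2
    have hKq : 0 ≤ max δ ((c + 1) / ρ ^ 2 + 1) * qd e x :=
      mul_nonneg ((by positivity : (0 : ℝ) ≤ (c + 1) / ρ ^ 2 + 1).trans (le_max_right _ _))
        (qd_nonneg e x)
    unfold lf at h1 h2
    refine key x (by linarith) (by linarith) ?_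
    by_contra h3
    have h4 : ((c + 1) / ρ ^ 2 + 1) * ρ ^ 2 ≤ max δ ((c + 1) / ρ ^ 2 + 1) * qd e x :=
      mul_le_mul (le_max_right _ _) (not_lt.1 h3) hρ2.le
        ((by positivity : (0 : ℝ) ≤ (c + 1) / ρ ^ 2 + 1).trans (le_max_right _ _))
    have h5 : ((c + 1) / ρ ^ 2 + 1) * ρ ^ 2 = c + 1 + ρ ^ 2 := by
      field_simp
    linarith

/-- The plate can be removed.

PROOF.  `K` from `plate_const`; `plate_thin`, `plate_raise` with `d = c / 2`, and `Hom.of_eq_near'`
for `f = plateF F e c K (c / 2)` (good by `Hom.good_right`) and `g = F`: let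
`p = max (lf e (-1) K (c / 2)) (lf e 1 0 (-c))`; `p x ≤ 0` implies `F x < 0`.  If `f x = 0` or
`F x = 0`: `F x ≥ 0` (if `F x < 0` then `f x < 0`), so `p x > 0`, so `F x = 0` (in the first case
`min (F x) (p x) = 0`), and near `x`, `F < p`, `f = F`.  Signs: `f x < 0 ↔ F x < 0 ∨ p x < 0 ↔
F x < 0`; `f x > 0 → F x > 0`. -/
theorem plate_remove {F : V → ℝ} {e : V} {c h₀ δ a₀ : ℝ} (hB : Bot F e c h₀ δ a₀) :
    Hom (plateF F e c δ (-1)) F := by
  have hc := hB.c_pos
  obtain ⟨K, hK, hK2, hK3⟩ := plate_const hB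
  have hK0 : 0 < K := hB.δ_pos.trans_le hK
  have hh := (plate_thin hB hK).trans
    (plate_raise (d := c / 2) hB hK0 (by linarith) (by linarith) hK2)
  refine hh.trans ?_
  have hFc : Continuous F := hB.smooth.continuous
  have hpc : Continuous fun x : V => max (lf e (-1) K (c / 2) x) (lf e 1 0 (-c) x) :=
    (lf_continuous _ _ _).max (lf_continuous _ _ _)
  have hp : ∀ x, max (lf e (-1) K (c / 2) x) (lf e 1 0 (-c) x) ≤ 0 → F x < 0 := by
    intro x hx
    obtain ⟨h1, h2⟩ := max_le_iff.1 hx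
    exact hK3 x h1 h2
  have hN : ∀ x, plateF F e c K (c / 2) x =
      min (F x) (max (lf e (-1) K (c / 2) x) (lf e 1 0 (-c) x)) := fun x => rfl
  refine Hom.of_eq_near' hh.good_right hFc ?_ ?_
  · intro x hx
    rw [hN] at hx
    have h1 : 0 ≤ F x := by
      rcases hx with hx | hx
      · exact hx.symm.le.trans (min_le_left _ _)
      · exact hx.symm.le
    have h2 : 0 < max (lf e (-1) K (c / 2) x) (lf e 1 0 (-c) x) := by
      by_contra h3
      have := hp x (not_lt.1 h3)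
      linarith
    have h3 : F x = 0 := by
      rcases hx with hx | hx
      · rcases min_choice (F x) (max (lf e (-1) K (c / 2) x) (lf e 1 0 (-c) x)) with h4 | h4
        · rw [← h4]
          exact hx
        · rw [h4] at hx
          exact absurd hx h2.ne'
      · exact hx
    have h4 : ∀ᶠ y in 𝓝 x, F y < max (lf e (-1) K (c / 2) y) (lf e 1 0 (-c) y) :=
      hFc.continuousAt.eventually_lt hpc.continuousAt (by rw [h3]; exact h2)
    filter_upwards [h4] with y hy
    rw [hN]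
    exact min_eq_left hy.le
  · intro x h1 h2
    rw [hN]
    rcases lt_or_gt_of_ne h2 with h3 | h3
    · exact mul_pos_of_neg_of_neg ((min_le_left _ _).trans_lt h3) h3
    · refine mul_pos (lt_min h3 ?_) h3
      by_contra h4
      have := hp x (not_lt.1 h4)
      linarith

end Pool.Schoen
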