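import Mathlib
import Pool.Agent.H.MP_6c077c_gt.IxC.Leaf

/-! Index theorem, second half: flattening the top. -/

set_option autoImplicit false

namespace Pool.Schoen

open Filter Set
open scoped Topology ContDiff RealInnerProductSpace

variable {V : Type*} [NormedAddCommGroup V] [InnerProductSpace ℝ V] [FiniteDimensional ℝ V]

/-- Exchange of the convex outer part.

PROOF.  The family `H s x = max (-F x) ((1 - s) * k x + s * k' x)`, `s ∈ [0, 1]`, jointly
continuous; a zero has `(1 - s) k x + s k' x ≤ 0`, so `k x ≤ 0` or `k' x ≤ 0`: bounded.  Let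
`H s x = 0`.
(i) `F x > 0`, so `-F x < 0` near `x`, and `(1 - s) k x + s k' x = 0`: the functions
`(1 - t) k + t k'` are convex, at `o` they are `≤ max (k o) (k' o) =: -m < 0`; `desc_convex`
(`Ix/DescC.lean`; with `c = m / 2`, the two eventual bounds by joint continuity) gives the descent
direction `o - x` of `(t, y) ↦ (1 - t) k y + t k' y`; `desc_max_right` (or `dz_max` with
`dz_of_ne`).
(ii) `F x = 0` (`F x < 0` is impossible).  By `hkk` either `k x < 0` and `k' x < 0`, then near
`(s, x)` the family equals `-F` and so does `max (-F) k` near `x`; or `k = k'` near `x`, then near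
`x` the family does not depend on `s` and equals `max (-F) k`.  In both cases `max (-F x) (k x) = 0`
(in the second case `(1 - s) k x + s k' x = k x ≤ 0`) and a descent direction of the good function
`max (-F) k` at `x` (`hg`) is one of the family (`Desc1.const`, `Desc.congr`). -/
theorem shell_swap {F k k' : V → ℝ} (hF : Continuous F) (hk : ConvexOn ℝ univ k)
    (hkc : Continuous k) (hk' : ConvexOn ℝ univ k') (hkc' : Continuous k') (o : V) (ho : k o < 0)
    (ho' : k' o < 0) (hb : Bornology.IsBounded {x | k x ≤ 0})
    (hb' : Bornology.IsBounded {x | k' x ≤ 0})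
    (hkk : ∀ x, F x = 0 → (k x < 0 ∧ k' x < 0) ∨ ∀ᶠ y in 𝓝 x, k y = k' y)
    (hg : Good fun x => max (-F x) (k x)) :
    Hom (fun x => max (-F x) (k x)) fun x => max (-F x) (k' x) := by
  have hK : Continuous fun p : ℝ × V => (1 - p.1) * k p.2 + p.1 * k' p.2 := by fun_prop
  have hN : Continuous fun p : ℝ × V => -F p.2 := by fun_prop
  refine ⟨fun s x => max (-F x) ((1 - s) * k x + s * k' x), hN.max hK, ?_, ?_, ?_, ?_⟩
  · funext x
    simp
  · funext x
    simp
  · obtain ⟨R, hR⟩ := hb.subset_closedBall (0 : V)
    obtain ⟨R', hR'⟩ := hb'.subset_closedBall (0 : V)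
    refine ⟨max R R', fun s hs x hx => ?_⟩
    have h1 : (1 - s) * k x + s * k' x ≤ 0 := by
      rw [← hx]
      exact le_max_right _ _
    have h2 : k x ≤ 0 ∨ k' x ≤ 0 := by
      by_contra h
      rw [not_or, not_le, not_le] at h
      have hs0 : 0 ≤ (1 - s) * k x := mul_nonneg (by linarith [hs.2]) h.1.le
      have hs1 : 0 ≤ s * k' x := mul_nonneg hs.1 h.2.le
      rcases eq_or_lt_of_le hs.1 with h3 | h3
      · rw [← h3] at h1
        linarith [h.1]
      · have h4 : 0 < s * k' x := mul_pos h3 h.2
        linarith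
    rcases h2 with h2 | h2
    · have h3 : x ∈ Metric.closedBall (0 : V) R := hR h2
      rw [Metric.mem_closedBall, dist_zero_right] at h3
      exact h3.trans (le_max_left _ _)
    · have h3 : x ∈ Metric.closedBall (0 : V) R' := hR' h2
      rw [Metric.mem_closedBall, dist_zero_right] at h3
      exact h3.trans (le_max_right _ _)
  · intro s hs x hx
    beta_reduce at hx
    have hFx : 0 ≤ F x := by
      have h1 : -F x ≤ 0 := by
        rw [← hx]
        exact le_max_left _ _
      linarith
    have hKx : (1 - s) * k x + s * k' x ≤ 0 := by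
      rw [← hx]
      exact le_max_right _ _
    rcases eq_or_lt_of_le hFx with h0 | h0
    · -- a zero of `F`
      have hmono : 𝓝[Icc (0 : ℝ) 1] s ×ˢ 𝓝 x ≤ 𝓝 ((s, x) : ℝ × V) := by
        rw [nhds_prod_eq]
        exact Filter.prod_mono nhdsWithin_le_nhds le_rfl
      rcases hkk x h0.symm with ⟨h1, h2⟩ | h1
      · obtain ⟨v, hv⟩ := hg.desc x (by
          rw [← h0, neg_zero]
          exact max_eq_left h1.le)
        have hv1 : Desc1 (fun y => -F y) x v := by
          refine hv.congr ?_
          have h3 : k x < -F x := by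
            rw [← h0, neg_zero]
            exact h1
          filter_upwards [hkc.continuousAt.eventually_lt hF.neg.continuousAt h3] with y hy
          exact max_eq_left hy.le
        refine ⟨v, desc_max_left (hv1.const (𝓝[Icc 0 1] s)) ?_⟩
        apply hmono
        have h4 : (1 - s) * k x + s * k' x < -F x := by
          rw [← h0, neg_zero]
          have h5 : 0 ≤ (1 - s) * (-k x) := mul_nonneg (by linarith [hs.2]) (by linarith)
          have h6 : 0 ≤ s * (-k' x) := mul_nonneg hs.1 (by linarith)
          rcases eq_or_lt_of_le hs.1 with h3 | h3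
          · rw [← h3]
            linarith
          · have h7 : 0 < s * (-k' x) := mul_pos h3 (by linarith)
            nlinarith
        have h5 : (fun p : ℝ × V => (1 - p.1) * k p.2 + p.1 * k' p.2) (s, x) <
            (fun p : ℝ × V => -F p.2) (s, x) := h4
        filter_upwards [hK.continuousAt.eventually_lt hN.continuousAt h5] with p hp
        exact hp.le
      · have hkx : k x = k' x := h1.self_of_nhds
        have hkx0 : k x ≤ 0 := by
          rw [← hkx] at hKx
          linarith
        obtain ⟨v, hv⟩ := hg.desc x (by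
          rw [← h0, neg_zero]
          exact max_eq_left hkx0)
        refine ⟨v, (hv.const (𝓝[Icc 0 1] s)).congr ?_⟩
        filter_upwards [tendsto_snd.eventually h1] with p hp
        rw [← hp]
        congr 1
        ring
    · -- the outer part
      have hDK : DZ (fun (t : ℝ) (y : V) => (1 - t) * k y + t * k' y) s x (o - x) := by
        intro h00
        beta_reduce at h00
        have hm : 0 < min (-k o) (-k' o) := lt_min (by linarith) (by linarith)
        have hmo : (1 - s) * k o + s * k' o ≤ -min (-k o) (-k' o) := by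
          have h1 : k o ≤ -min (-k o) (-k' o) := by linarith [min_le_left (-k o) (-k' o)]
          have h2 : k' o ≤ -min (-k o) (-k' o) := by linarith [min_le_right (-k o) (-k' o)]
          have h3 := mul_le_mul_of_nonneg_left h1 (by linarith [hs.2] : (0 : ℝ) ≤ 1 - s)
          have h4 := mul_le_mul_of_nonneg_left h2 hs.1
          linarith
        refine desc_convex (c := min (-k o) (-k' o) / 2) ?_ (by linarith) ?_ ?_
        · filter_upwards [self_mem_nhdsWithin] with t ht
          exact (hk.smul (by linarith [ht.2] : (0 : ℝ) ≤ 1 - t)).add (hk'.smul ht.1)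
        · have hl : 𝓝[Icc (0 : ℝ) 1] s ×ˢ 𝓝 o ≤ 𝓝 ((s, o) : ℝ × V) := by
            rw [nhds_prod_eq]
            exact Filter.prod_mono nhdsWithin_le_nhds le_rfl
          apply hl
          have h5 : (fun p : ℝ × V => (1 - p.1) * k p.2 + p.1 * k' p.2) (s, o) <
              -(min (-k o) (-k' o) / 2) := by
            change (1 - s) * k o + s * k' o < _
            linarith
          filter_upwards [hK.continuousAt.eventually_lt continuousAt_const h5] with p hp
          exact hp.le
        · have hl : 𝓝[Icc (0 : ℝ) 1] s ×ˢ 𝓝 x ≤ 𝓝 ((s, x) : ℝ × V) := by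
            rw [nhds_prod_eq]
            exact Filter.prod_mono nhdsWithin_le_nhds le_rfl
          apply hl
          have h5 : -(min (-k o) (-k' o) / 2 / 2) <
              (fun p : ℝ × V => (1 - p.1) * k p.2 + p.1 * k' p.2) (s, x) := by
            change _ < (1 - s) * k x + s * k' x
            rw [h00]
            linarith
          filter_upwards [continuousAt_const.eventually_lt hK.continuousAt h5] with p hp
          exact hp.le
      have hDN : DZ (fun (_ : ℝ) (y : V) => -F y) s x (o - x) :=
        dz_of_ne (by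
          change -F x ≠ 0
          linarith)
      exact ⟨o - x, dz_max hN hK hDN hDK hx⟩

theorem Swap_bdd {e : V} (he : ‖e‖ = 1) {c δ : ℝ} (hc : 0 < c) (hδ : 0 < δ) (s : ℝ) :
    Bornology.IsBounded {x : V | lf e (-1) δ c x ≤ 0 ∧ ⟪e, x⟫ ≤ s} := by
  rw [isBounded_iff_forall_norm_le]
  refine ⟨s ^ 2 + s / δ + 1, fun x hx => ?_⟩
  obtain ⟨h1, h2⟩ := hx
  have h3 := norm_sq_qd he x
  have h4 := qd_nonneg e x
  unfold lf at h1
  have h5 : 0 ≤ δ * qd e x := mul_nonneg hδ.le h4
  have h6 : 0 < ⟪e, x⟫ := by linarith
  have h7 : qd e x ≤ s / δ := by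
    rw [le_div_iff₀ hδ]
    linarith
  have h8 : ⟪e, x⟫ ^ 2 ≤ s ^ 2 := by nlinarith
  nlinarith [sq_nonneg (‖x‖ - 1), norm_nonneg x]

/-- Flattening the top.

PROOF.  `shell_swap` with `k = max (lf e (-1) δ c) (lf e 1 1 (-a))`,
`k' = max (lf e (-1) δ c) (lf e 1 0 (-a'))`: convex (`lf_convex`, `ConvexOn.sup`), bounded
(`c + δ q ≤ h` and `h ≤ a`, respectively `h ≤ a'`: `0 < h`, `q ≤ h / δ`; `norm_sq_qd`),
`o = a₀ • e` (`lf_smul_unit`).  `hkk`: `F x = 0` gives `h + q < a₀`, so `lf e 1 1 (-a) x < 0` and
`lf e 1 0 (-a') x < 0`.  If `lf e (-1) δ c x < 0` the first alternative; otherwise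
`lf e (-1) δ c x ≥ 0` and near `x` both `k` and `k'` equal `lf e (-1) δ c`.
Then `Hom.symm`, `Hom.trans` with `h`. -/
theorem flat_ball {F : V → ℝ} {e : V} {c h₀ δ a₀ a a' : ℝ} (hB : Bot F e c h₀ δ a₀) (ha : a₀ < a)
    (ha' : a₀ < a') (h : IsBall (capF F e c δ a)) : IsBall (flatF F e c δ a') := by
  have he := hB.unit
  have hc := hB.c_pos
  have hca : c < a₀ := hB.c_lt.trans hB.h_lt
  have hg : Good fun x => max (-F x) (max (lf e (-1) δ c x) (lf e 1 1 (-a) x)) :=
    Hom.good_left h
  have hH : Hom (fun x => max (-F x) (max (lf e (-1) δ c x) (lf e 1 1 (-a) x)))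
      fun x => max (-F x) (max (lf e (-1) δ c x) (lf e 1 0 (-a') x)) := by
    refine shell_swap (k := fun x => max (lf e (-1) δ c x) (lf e 1 1 (-a) x))
      (k' := fun x => max (lf e (-1) δ c x) (lf e 1 0 (-a') x)) hB.smooth.continuous
      ?_ ?_ ?_ ?_ (a₀ • e) ?_ ?_ ?_ ?_ ?_ hg
    · exact (lf_convex (-1) c hB.δ_pos.le).sup (lf_convex 1 (-a) zero_le_one)
    · exact (lf_continuous (-1) δ c).max (lf_continuous 1 1 (-a))
    · exact (lf_convex (-1) c hB.δ_pos.le).sup (lf_convex 1 (-a') le_rfl)
    · exact (lf_continuous (-1) δ c).max (lf_continuous 1 0 (-a'))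
    · beta_reduce
      rw [lf_smul_unit he, lf_smul_unit he]
      exact max_lt (by linarith) (by linarith)
    · beta_reduce
      rw [lf_smul_unit he, lf_smul_unit he]
      exact max_lt (by linarith) (by linarith)
    · refine (Swap_bdd he hc hB.δ_pos a).subset ?_
      intro x hx
      have h1 : lf e (-1) δ c x ≤ 0 := (le_max_left _ _).trans hx
      have h2 : lf e 1 1 (-a) x ≤ 0 := (le_max_right _ _).trans hx
      refine ⟨h1, ?_⟩
      have h3 := qd_nonneg e x
      unfold lf at h2
      linarith
    · refine (Swap_bdd he hc hB.δ_pos a').subset ?_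
      intro x hx
      have h1 : lf e (-1) δ c x ≤ 0 := (le_max_left _ _).trans hx
      have h2 : lf e 1 0 (-a') x ≤ 0 := (le_max_right _ _).trans hx
      refine ⟨h1, ?_⟩
      unfold lf at h2
      linarith
    · intro x hx
      have h1 := hB.top x hx.le
      have h2 := qd_nonneg e x
      have h3 : lf e 1 1 (-a) x < 0 := by
        unfold lf
        linarith
      have h4 : lf e 1 0 (-a') x < 0 := by
        unfold lf
        linarith
      by_cases h5 : lf e (-1) δ c x < 0
      · left
        exact ⟨max_lt h5 h3, max_lt h5 h4⟩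
      · right
        rw [not_lt] at h5
        filter_upwards [(lf_continuous (e := e) 1 1 (-a)).continuousAt.eventually_lt
          (lf_continuous (e := e) (-1) δ c).continuousAt (h3.trans_le h5),
          (lf_continuous (e := e) 1 0 (-a')).continuousAt.eventually_lt
          (lf_continuous (e := e) (-1) δ c).continuousAt (h4.trans_le h5)] with y h6 h7
        rw [max_eq_left h6.le, max_eq_left h7.le]
  exact (Hom.symm hH).trans h

end Pool.Schoen
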