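import Mathlib
import Pool.Agent.H.MP_6c077c_gt.IxB.Basic
import Pool.Agent.H.MP_6c077c_gt.Ix.HomB

/-! Index theorem, second half: translations. -/

set_option autoImplicit false

namespace Pool.Schoen

open Filter Set Metric
open scoped Topology ContDiff RealInnerProductSpace

variable {V : Type*} [NormedAddCommGroup V] [InnerProductSpace ℝ V] [FiniteDimensional ℝ V]

omit [FiniteDimensional ℝ V] in
theorem Trans_fderiv (F : V → ℝ) (m x : V) :
    fderiv ℝ (fun y => F (y + m)) x = fderiv ℝ F (x + m) := fderiv_comp_add_right m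

omit [FiniteDimensional ℝ V] in
theorem Trans_fderiv2 (F : V → ℝ) (m x : V) :
    fderiv ℝ (fderiv ℝ fun y => F (y + m)) x = fderiv ℝ (fderiv ℝ F) (x + m) := by
  have h : (fderiv ℝ fun y => F (y + m)) = fun y => fderiv ℝ F (y + m) :=
    funext fun y => Trans_fderiv F m y
  rw [h]
  exact fderiv_comp_add_right m

theorem Trans_grad (F : V → ℝ) (m x : V) :
    gradient (fun y => F (y + m)) x = gradient F (x + m) := by
  unfold gradient
  rw [Trans_fderiv]

/-- Moving a domain.

PROOF.  The family `H t x = F (x + t • m)`, `H 0 = F`.  Bounded: a zero has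
`x + t • m ∈ {F ≤ 0}`, so `‖x‖ ≤ R + ‖m‖`.  At a zero `y = x + t • m`, `gradient F y ≠ 0`; `v =
-gradient F y`, `fderiv F y v < 0`; `desc_smooth` (`Ix/DescC.lean`) for `G (s, x) = F (x + s • m)`,
`fderiv G (t, x) (0, v) = fderiv F y v`, and `Desc.mono` to the filter `𝓝[Icc 0 1] t`. -/
theorem hom_translate (F : V → ℝ) (hF : ContDiff ℝ ∞ F) (hb : Bornology.IsBounded {x | F x ≤ 0})
    (hreg : ∀ x, F x = 0 → gradient F x ≠ 0) (m : V) : Hom F fun x => F (x + m) := by
  have hc : Continuous F := hF.continuous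
  refine ⟨fun t x => F (x + t • m), by fun_prop, ?_, ?_, ?_, ?_⟩
  · funext x
    simp
  · funext x
    simp
  · obtain ⟨R, hR⟩ := hb.exists_norm_le
    refine ⟨R + ‖m‖, fun t ht x hx => ?_⟩
    have h1 : ‖x + t • m‖ ≤ R := hR _ (le_of_eq hx)
    have h2 : ‖t • m‖ ≤ ‖m‖ := by
      rw [norm_smul, Real.norm_eq_abs, abs_of_nonneg ht.1]
      exact mul_le_of_le_one_left (norm_nonneg m) ht.2
    calc ‖x‖ = ‖(x + t • m) - t • m‖ := by rw [add_sub_cancel_right]
      _ ≤ ‖x + t • m‖ + ‖t • m‖ := norm_sub_le _ _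
      _ ≤ R + ‖m‖ := add_le_add h1 h2
  · intro t ht x hx
    have hg := hreg _ hx
    have h1 : fderiv ℝ F (x + t • m) (-gradient F (x + t • m)) < 0 := by
      have h2 : fderiv ℝ F (x + t • m) (gradient F (x + t • m)) =
          ⟪gradient F (x + t • m), gradient F (x + t • m)⟫ :=
        (InnerProductSpace.toDual_symm_apply (𝕜 := ℝ)).symm
      rw [map_neg, h2, real_inner_self_eq_norm_sq]
      have := norm_pos_iff.2 hg
      nlinarith
    refine ⟨-gradient F (x + t • m), ?_⟩
    have hG : ContDiff ℝ 1 fun p : ℝ × V => F (p.2 + p.1 • m) :=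
      (hF.of_le (by norm_cast)).comp (by fun_prop)
    refine (desc_smooth (G := fun p : ℝ × V => F (p.2 + p.1 • m)) hG.contDiffAt ?_).mono
      nhdsWithin_le_nhds
    have hd : HasFDerivAt (fun p : ℝ × V => F (p.2 + p.1 • m))
        ((fderiv ℝ F (x + t • m)).comp (ContinuousLinearMap.snd ℝ ℝ V +
          (ContinuousLinearMap.fst ℝ ℝ V).smulRight m)) (t, x) := by
      have h3 : HasFDerivAt (fun p : ℝ × V => p.2 + p.1 • m) (ContinuousLinearMap.snd ℝ ℝ V +
          (ContinuousLinearMap.fst ℝ ℝ V).smulRight m) (t, x) :=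
        hasFDerivAt_snd.add (hasFDerivAt_fst.smul_const m)
      have h4 : HasFDerivAt F (fderiv ℝ F (x + t • m)) ((t, x).2 + (t, x).1 • m) :=
        (hF.differentiable (by simp) _).hasFDerivAt
      exact h4.comp (t, x) h3
    rw [hd.fderiv]
    simpa using h1

/-- `Inward` and `Idx`, `PosAt` for the translate: `fderiv_comp_add_right`; for `gradient` use
`fderiv`. -/
theorem translate_facts (F : V → ℝ) (e m : V) :
    (∀ x, gradient (fun y => F (y + m)) x = gradient F (x + m)) ∧
    (∀ x, Inward (fun y => F (y + m)) e x ↔ Inward F e (x + m)) ∧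
    (∀ x, PosAt (fun y => F (y + m)) e x ↔ PosAt F e (x + m)) ∧
    ∀ x k, Idx (fun y => F (y + m)) e x k ↔ Idx F e (x + m) k := by
  refine ⟨Trans_grad F m, fun x => ?_, fun x => ?_, fun x k => ?_⟩
  · unfold Inward
    rw [Trans_grad]
  · unfold PosAt
    rw [Trans_fderiv2]
  · constructor
    · rintro ⟨N, P, h, hk⟩
      refine ⟨N, P, ⟨h.hN, h.hP, h.orth, h.span, ?_, ?_, ?_⟩, hk⟩
      · have := h.diag
        rwa [Trans_fderiv2] at this
      · have := h.neg
        rwa [Trans_fderiv2] at this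
      · have := h.pos
        rwa [Trans_fderiv2] at this
    · rintro ⟨N, P, h, hk⟩
      refine ⟨N, P, ⟨h.hN, h.hP, h.orth, h.span, ?_, ?_, ?_⟩, hk⟩
      · have := h.diag
        rwa [← Trans_fderiv2] at this
      · have := h.neg
        rwa [← Trans_fderiv2] at this
      · have := h.pos
        rwa [← Trans_fderiv2] at this

/-- The zero sets are homeomorphic by the translation. -/
theorem translate_homeo (F : V → ℝ) (m : V)
    (hM : Nonempty ({x : V // F x = 0} ≃ₜ sphere (0 : V) 1)) :
    Nonempty ({x : V // F (x + m) = 0} ≃ₜ sphere (0 : V) 1) := by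
  obtain ⟨φ⟩ := hM
  refine ⟨Homeomorph.trans ?_ φ⟩
  refine
    { toFun := fun x => ⟨x.1 + m, x.2⟩
      invFun := fun y => ⟨y.1 - m, by
        change F (y.1 - m + m) = 0
        rw [sub_add_cancel]
        exact y.2⟩
      left_inv := fun x => Subtype.ext (add_sub_cancel_right _ _)
      right_inv := fun y => Subtype.ext (sub_add_cancel _ _)
      continuous_toFun := by fun_prop
      continuous_invFun := by fun_prop }

end Pool.Schoen
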