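import Mathlib
import Pool.Agent.H.MP_6c077c_gt.IxC.Leaf
import Pool.Agent.H.MP_6c077c_gt.Ix.Glue

/-! Index theorem, second half: application of the gluing lemma. -/

set_option autoImplicit false

namespace Pool.Schoen

open Filter Set
open scoped Topology ContDiff RealInnerProductSpace

variable {V : Type*} [NormedAddCommGroup V] [InnerProductSpace ℝ V] [FiniteDimensional ℝ V]

omit [FiniteDimensional ℝ V] in
/-- The large bowl is a ball: `isBall_convex` (`Ix/HomB.lean`) with `o = 0` if `0 < s`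
(`lf_convex`, `ConvexOn.sup`, `bowl_bdd`). -/
theorem box_ball {e : V} (he : ‖e‖ = 1) {δ s : ℝ} (hδ : 0 < δ) (hs : 0 < s) :
    IsBall (boxF e δ s) := by
  have hconv : ConvexOn ℝ univ (boxF e δ s) :=
    (lf_convex (-1) (-1) hδ.le).sup (lf_convex 1 (-s) le_rfl)
  have hcont : Continuous (boxF e δ s) := (lf_continuous _ _ _).max (lf_continuous _ _ _)
  refine isBall_convex (o := (0 : ℝ) • e) hconv hcont ?_ ?_
  · unfold boxF
    rw [lf_smul_unit he, lf_smul_unit he]
    apply max_lt <;> linarith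
  · obtain ⟨R, hR⟩ := bowl_bdd he hδ s
    refine (Metric.isBounded_closedBall (x := (0 : V)) (r := R)).subset ?_
    intro x hx
    rw [Metric.mem_closedBall, dist_zero_right]
    have hx' : boxF e δ s x ≤ 0 := hx
    unfold boxF at hx'
    have h1 := (max_le_iff.1 hx').1
    have h2 := (max_le_iff.1 hx').2
    apply hR x h1
    unfold lf at h2
    linarith

omit [FiniteDimensional ℝ V] in
/-- The function of the thin tunnel in the variables `h`, `q`: unfold `tau`, `tubeF`;
`⟪e, x - a • e⟫ = ⟪e, x⟫ - a`, `orth e (x - a • e) = orth e x`; distribute the sign over `max`. -/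
theorem neg_tau {e : V} (he : ‖e‖ = 1) (a b ρ : ℝ) (x : V) : -tau (a • e) e (b - a) ρ x =
    min (min (lf e 1 0 (-(a - ρ)) x) (lf e (-1) 0 (b + ρ) x)) (lf e 0 (-1) (ρ ^ 2) x) := by
  have h1 : ⟪e, x - a • e⟫ = ⟪e, x⟫ - a := by
    rw [inner_sub_right, inner_smul_unit he]
  have h2 : orth e (x - a • e) = orth e x := by
    unfold orth
    rw [h1, sub_smul]
    abel
  unfold tau tubeF lf qd
  rw [h1, h2, ← min_neg_neg, ← min_neg_neg]
  congr 1
  · congr 1
    · ring
    · ring
  · ring

/-- Drilling a thin tunnel to a ball and removing the ball gives a ball.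

PROOF.  Apply `glue` (`Ix/Glue.lean`) to `A = flatF F e c δ a`, `C = fun x => -boxF e δ b x`,
`q = a • e`, `u = e`, `ℓ = b - a`.  `Good C`: `box_ball`, `Hom.good_left`, `Good.neg`.
`A x ≤ 0 → 0 < C x`: `c + δ q ≤ h ≤ a` implies `δ q - 1 < h < b`.
`hflatA`: near `a • e`, `F > 0` (`top`, `a₀ < a`) and `lf e (-1) δ c < 0` (`c < a₀ < a`), so
`A = lf e 1 0 (-a)`, `lf e 1 0 (-a) x = ⟪e, x⟫ - a = ⟪e, x - a • e⟫`; the other functions are
negative near `a • e`, `lf e 1 0 (-a)` is near zero: for the maximum use that `-F x` and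
`lf e (-1) δ c x` are `≤ -η` while `lf e 1 0 (-a) x > -η` near `a • e`.
`hflatC`: near `q + ℓ • u = b • e`, `boxF e δ b = lf e 1 0 (-b)` in the same way
(`-b - 1 < 0`).
`hs`: for `0 < s < ℓ`, at `(a + s) • e`: `A ≥ lf e 1 0 (-a) = s > 0`; `boxF = max (-(a + s) - 1)
(s - ℓ) < 0`.
`glue` gives, for small `ρ > 0`, `Hom (min (min A C) tau) C`; `Hom.neg` gives
`Hom (fun x => -min (min (A x) (C x)) (tau x)) (fun x => - -boxF e δ b x)`.  The first function is
`tunF F e c δ a (a - ρ) (b + ρ) ρ b`: `-min (min A C) τ = max (max (-A) (-C)) (-τ)`,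
`-A = min F (min (lf e 1 (-δ) (-c)) (lf e (-1) 0 a))` (`lf_neg`), `neg_tau`, and commutativity and
associativity of `max` (`funext`).  Conclude with `box_ball` and `Hom.trans`.  The condition
`ρ < η` holds eventually in `𝓝[>] 0`; the filter is not `⊥`, so there is such a `ρ`. -/
theorem tun_ball {F : V → ℝ} {e : V} {c h₀ δ a₀ a b : ℝ} (hB : Bot F e c h₀ δ a₀) (ha : a₀ < a)
    (hb : a < b) (h : IsBall (flatF F e c δ a)) (η : ℝ) (hη : 0 < η) :
    ∃ ρ : ℝ, 0 < ρ ∧ ρ < η ∧ IsBall (tunF F e c δ a (a - ρ) (b + ρ) ρ b) := by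
  have he := hB.unit
  have hδ := hB.δ_pos
  have hc := hB.c_pos
  have hca : c < a := by linarith [hB.c_lt, hB.h_lt]
  have ha0 : 0 < a := by linarith
  have hb0 : 0 < b := by linarith
  have hbox := box_ball he hδ hb0
  have hgoodC : Good fun x => -boxF e δ b x := (Hom.good_left hbox).neg
  have hFc : Continuous F := hB.smooth.continuous
  have hpt : ∀ s : ℝ, a • e + s • e = (a + s) • e := fun s => (add_smul a s e).symm
  have hdisj : ∀ x, flatF F e c δ a x ≤ 0 → 0 < -boxF e δ b x := by
    intro x hx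
    unfold flatF at hx
    have h1 := (max_le_iff.1 (max_le_iff.1 hx).2).1
    have h2 := (max_le_iff.1 (max_le_iff.1 hx).2).2
    rw [neg_pos]
    unfold boxF lf at *
    apply max_lt <;> linarith
  have hflatA : ∀ᶠ x in 𝓝 (a • e), flatF F e c δ a x = ⟪e, x - a • e⟫ := by
    have hF : 0 < F (a • e) := by
      by_contra h0
      have h1 := hB.top _ (not_lt.1 h0)
      rw [inner_smul_unit he, qd_smul_unit he] at h1
      linarith
    have e1 : -F (a • e) < lf e 1 0 (-a) (a • e) := by
      rw [lf_smul_unit he]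
      linarith
    have e2 : lf e (-1) δ c (a • e) < lf e 1 0 (-a) (a • e) := by
      rw [lf_smul_unit he, lf_smul_unit he]
      linarith
    have f1 := (hFc.neg.continuousAt (x := a • e)).eventually_lt
      (lf_continuous (e := e) 1 0 (-a)).continuousAt e1
    have f2 := ((lf_continuous (e := e) (-1) δ c).continuousAt (x := a • e)).eventually_lt
      (lf_continuous (e := e) 1 0 (-a)).continuousAt e2
    filter_upwards [f1, f2] with x g1 g2
    unfold flatF
    have g1' : -F x < lf e 1 0 (-a) x := g1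
    rw [max_eq_right g2.le, max_eq_right g1'.le, inner_sub_right, inner_smul_unit he]
    unfold lf
    ring
  have hflatC : ∀ᶠ x in 𝓝 (a • e + (b - a) • e),
      -boxF e δ b x = -⟪e, x - (a • e + (b - a) • e)⟫ := by
    have h0 : a • e + (b - a) • e = b • e := by rw [hpt, add_sub_cancel]
    rw [h0]
    have e2 : lf e (-1) δ (-1) (b • e) < lf e 1 0 (-b) (b • e) := by
      rw [lf_smul_unit he, lf_smul_unit he]
      linarith
    have f2 := ((lf_continuous (e := e) (-1) δ (-1)).continuousAt (x := b • e)).eventually_lt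
      (lf_continuous (e := e) 1 0 (-b)).continuousAt e2
    filter_upwards [f2] with x g2
    unfold boxF
    rw [max_eq_right g2.le, inner_sub_right, inner_smul_unit he]
    unfold lf
    ring
  have hs : ∀ s ∈ Ioo (0 : ℝ) (b - a), 0 < flatF F e c δ a (a • e + s • e) ∧
      0 < -boxF e δ b (a • e + s • e) := by
    intro s hs
    rw [hpt]
    constructor
    · unfold flatF
      refine lt_of_lt_of_le ?_ ((le_max_right _ _).trans (le_max_right _ _))
      rw [lf_smul_unit he]
      linarith [hs.1]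
    · rw [neg_pos]
      unfold boxF
      rw [lf_smul_unit he, lf_smul_unit he]
      apply max_lt
      · linarith [hs.1]
      · linarith [hs.2]
  have hglue := glue h hgoodC hdisj he (sub_pos.2 hb) hflatA hflatC hs
  have hioo : ∀ᶠ ρ in 𝓝[>] (0 : ℝ), ρ ∈ Ioo (0 : ℝ) η := Ioo_mem_nhdsGT hη
  obtain ⟨ρ, ⟨hρ, hρη⟩, hρ'⟩ := (hioo.and hglue).exists
  refine ⟨ρ, hρ, hρη, ?_⟩
  have h1 := (Hom.neg hρ')
  have h2 : (fun x => - -boxF e δ b x) = boxF e δ b := by
    funext x
    rw [neg_neg]
  have h3 : (fun x => -min (min (flatF F e c δ a x) (-boxF e δ b x))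
      (tau (a • e) e (b - a) ρ x)) = tunF F e c δ a (a - ρ) (b + ρ) ρ b := by
    funext x
    have k1 : -flatF F e c δ a x =
        min (F x) (min (lf e 1 (-δ) (-c) x) (lf e (-1) 0 a x)) := by
      unfold flatF
      rw [← min_neg_neg, neg_neg, ← min_neg_neg, lf_neg, lf_neg, neg_neg, neg_neg, neg_zero]
    rw [← max_neg_neg, ← max_neg_neg, neg_neg, neg_tau he, k1]
    unfold tunF
    rw [max_right_comm]
  rw [h2, h3] at h1
  exact Hom.trans h1 hbox

end Pool.Schoen
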