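import Mathlib
import Pool.Agent.H.MP_6c077c_gt.IxC.Leaf

/-! Index theorem, second half: widening the tunnel. -/

set_option autoImplicit false

namespace Pool.Schoen

open Filter Set
open scoped Topology ContDiff RealInnerProductSpace

variable {V : Type*} [NormedAddCommGroup V] [InnerProductSpace ℝ V]

/-! Auxiliary facts, also used for the lowering of the ceiling. -/

theorem tun1_F {F : V → ℝ} (hF : ContDiff ℝ ∞ F) :
    Continuous fun p : ℝ × V => (fun _ : ℝ => F) p.1 p.2 :=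
  hF.continuous.comp continuous_snd

theorem tun1_lf (e : V) (A B C : ℝ) :
    Continuous fun p : ℝ × V => (fun _ : ℝ => lf e A B C) p.1 p.2 :=
  (lf_continuous A B C).comp continuous_snd

theorem tun1_T3c {F : V → ℝ} (e : V) (c δ a : ℝ) (hF : ContDiff ℝ ∞ F) :
    Continuous fun p : ℝ × V => (fun _ : ℝ => fun y => min (F y) (min (lf e 1 (-δ) (-c) y)
      (lf e (-1) 0 a y))) p.1 p.2 :=
  (tun1_F hF).min ((tun1_lf e 1 (-δ) (-c)).min (tun1_lf e (-1) 0 a))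

theorem tun1_M3c (e : V) {r : ℝ → ℝ} (hr : Continuous r) :
    Continuous fun p : ℝ × V => (fun t : ℝ => lf e 0 (-1) (r t ^ 2)) p.1 p.2 :=
  lf_continuous' (e := e) (A := fun _ => 0) (B := fun _ => -1) (C := fun t => r t ^ 2)
    continuous_const continuous_const (hr.pow 2)

theorem tun1_T2c (e : V) {s : ℝ → ℝ} (hs : Continuous s) :
    Continuous fun p : ℝ × V => (fun t : ℝ => lf e 1 0 (-s t)) p.1 p.2 :=
  lf_continuous' (e := e) (A := fun _ => 1) (B := fun _ => 0) (C := fun t => -s t)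
    continuous_const continuous_const hs.neg

theorem tun1_T4c (e : V) (a₁ b₁ : ℝ) {r : ℝ → ℝ} (hr : Continuous r) :
    Continuous fun p : ℝ × V => (fun t : ℝ => fun y => min (min (lf e 1 0 (-a₁) y)
      (lf e (-1) 0 b₁ y)) (lf e 0 (-1) (r t ^ 2) y)) p.1 p.2 :=
  ((tun1_lf e 1 0 (-a₁)).min (tun1_lf e (-1) 0 b₁)).min (tun1_M3c e hr)

theorem tun1_boxc (e : V) (δ : ℝ) {s : ℝ → ℝ} (hs : Continuous s) :
    Continuous fun p : ℝ × V => (fun t : ℝ => fun y => max (lf e (-1) δ (-1) y)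
      (lf e 1 0 (-s t) y)) p.1 p.2 :=
  (tun1_lf e (-1) δ (-1)).max (tun1_T2c e hs)

theorem tun1_cont {F : V → ℝ} (e : V) (c δ a a₁ b₁ : ℝ) (hF : ContDiff ℝ ∞ F) {r s : ℝ → ℝ}
    (hr : Continuous r) (hs : Continuous s) :
    Continuous fun p : ℝ × V => (fun t : ℝ => tunF F e c δ a a₁ b₁ (r t) (s t)) p.1 p.2 :=
  ((tun1_T3c e c δ a hF).max (tun1_T4c e a₁ b₁ hr)).max (tun1_boxc e δ hs)

/-- Assembling the four pieces. -/
theorem tun1_dz {F : V → ℝ} (e : V) (c δ a a₁ b₁ : ℝ) (hF : ContDiff ℝ ∞ F) {r s : ℝ → ℝ}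
    (hr : Continuous r) (hs : Continuous s) {t : ℝ} {x v : V}
    (h3 : DZ (fun _ : ℝ => fun y => min (F y) (min (lf e 1 (-δ) (-c) y)
      (lf e (-1) 0 a y))) t x v)
    (h4 : DZ (fun t : ℝ => fun y => min (min (lf e 1 0 (-a₁) y)
      (lf e (-1) 0 b₁ y)) (lf e 0 (-1) (r t ^ 2) y)) t x v)
    (h1 : DZ (fun _ : ℝ => lf e (-1) δ (-1)) t x v)
    (h2 : DZ (fun t : ℝ => lf e 1 0 (-s t)) t x v) :
    DZ (fun t : ℝ => tunF F e c δ a a₁ b₁ (r t) (s t)) t x v := by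
  have h34 := dz_max (tun1_T3c e c δ a hF) (tun1_T4c e a₁ b₁ hr) h3 h4
  have h12 := dz_max (tun1_lf e (-1) δ (-1)) (tun1_T2c e hs) h1 h2
  exact dz_max ((tun1_T3c e c δ a hF).max (tun1_T4c e a₁ b₁ hr)) (tun1_boxc e δ hs) h34 h12

theorem tun1_lfdz {e : V} (he : ‖e‖ = 1) (A B C : ℝ) (t : ℝ) (x : V) (α β : ℝ)
    (h : A * ⟪e, x⟫ + B * qd e x + C = 0 → A * β + 2 * α * B * qd e x < 0) :
    DZ (fun _ : ℝ => lf e A B C) t x (α • orth e x + β • e) :=
  dz_lf he (A := fun _ => A) (B := fun _ => B) (fun _ => C) continuous_const continuous_const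
    t x α β h

/-- The third piece at points outside of `{F = 0}`. -/
theorem tun1_dz3 {F : V → ℝ} {e : V} (he : ‖e‖ = 1) (c δ a : ℝ) (hF : ContDiff ℝ ∞ F) (t : ℝ)
    (x : V) (α β : ℝ) (h0 : F x ≠ 0)
    (h1 : ⟪e, x⟫ = c + δ * qd e x → β + 2 * α * -δ * qd e x < 0) (h2 : ⟪e, x⟫ = a → 0 < β) :
    DZ (fun _ : ℝ => fun y => min (F y) (min (lf e 1 (-δ) (-c) y)
      (lf e (-1) 0 a y))) t x (α • orth e x + β • e) := by
  refine dz_min (tun1_F hF) ((tun1_lf e 1 (-δ) (-c)).min (tun1_lf e (-1) 0 a)) (dz_of_ne h0)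
    (dz_min (tun1_lf e 1 (-δ) (-c)) (tun1_lf e (-1) 0 a) (tun1_lfdz he _ _ _ t x α β ?_)
      (tun1_lfdz he _ _ _ t x α β ?_))
  · intro h
    have := h1 (by linarith)
    linarith
  · intro h
    have := h2 (by linarith)
    linarith

theorem tun1_dz4 {e : V} (he : ‖e‖ = 1) (a₁ b₁ : ℝ) {r : ℝ → ℝ} (hr : Continuous r) (t : ℝ)
    (x : V) (α β : ℝ) (h1 : ⟪e, x⟫ = a₁ → β < 0) (h2 : ⟪e, x⟫ ≠ b₁)
    (h3 : qd e x = r t ^ 2 → 0 < α * qd e x) :
    DZ (fun t : ℝ => fun y => min (min (lf e 1 0 (-a₁) y)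
      (lf e (-1) 0 b₁ y)) (lf e 0 (-1) (r t ^ 2) y)) t x (α • orth e x + β • e) := by
  refine dz_min ((tun1_lf e 1 0 (-a₁)).min (tun1_lf e (-1) 0 b₁)) (tun1_M3c e hr)
    (dz_min (tun1_lf e 1 0 (-a₁)) (tun1_lf e (-1) 0 b₁) (tun1_lfdz he _ _ _ t x α β ?_)
      (tun1_lfdz he _ _ _ t x α β ?_)) (dz_lf he (A := fun _ => 0) (B := fun _ => -1)
        (fun t => r t ^ 2) continuous_const continuous_const t x α β ?_)
  · intro h
    have := h1 (by linarith)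
    linarith
  · intro h
    exact absurd (by linarith) h2
  · intro h
    have h' : qd e x = r t ^ 2 := by
      unfold lf at h
      linarith
    have := h3 h'
    nlinarith

theorem tun1_zero {F : V → ℝ} {e : V} {c δ a a₁ b₁ r s : ℝ} {x : V}
    (h : tunF F e c δ a a₁ b₁ r s x = 0) :
    (F x ≤ 0 ∨ ⟪e, x⟫ ≤ c + δ * qd e x ∨ a ≤ ⟪e, x⟫) ∧
    ((⟪e, x⟫ ≤ a₁ ∨ b₁ ≤ ⟪e, x⟫) ∨ r ^ 2 ≤ qd e x) ∧ δ * qd e x ≤ ⟪e, x⟫ + 1 ∧ ⟪e, x⟫ ≤ s := by
  have h0 := h.le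
  unfold tunF boxF lf at h0
  rw [max_le_iff, max_le_iff, max_le_iff, min_le_iff, min_le_iff, min_le_iff, min_le_iff] at h0
  obtain ⟨⟨h1, h2⟩, h3, h4⟩ := h0
  refine ⟨?_, ?_, by linarith, by linarith⟩
  · rcases h1 with h1 | h1 | h1
    · exact Or.inl h1
    · exact Or.inr (Or.inl (by linarith))
    · exact Or.inr (Or.inr (by linarith))
  · rcases h2 with (h2 | h2) | h2
    · exact Or.inl (Or.inl (by linarith))
    · exact Or.inl (Or.inr (by linarith))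
    · exact Or.inr (by linarith)

/-- The points above the level `a₁`. -/
theorem tun1_high {F : V → ℝ} {e : V} (he : ‖e‖ = 1) {c δ a a₁ b₁ : ℝ} (hF : ContDiff ℝ ∞ F)
    {r s : ℝ → ℝ} (hr : Continuous r) (hs : Continuous s) {t : ℝ} {x : V} (α β : ℝ)
    (h0 : F x ≠ 0)
    (h3 : ⟪e, x⟫ < c + δ * qd e x ∨ a < ⟪e, x⟫ ∨
      ((⟪e, x⟫ = c + δ * qd e x → β + 2 * α * -δ * qd e x < 0) ∧ (⟪e, x⟫ = a → 0 < β)))
    (h4 : ⟪e, x⟫ = a₁ → β < 0) (h5 : ⟪e, x⟫ ≠ b₁) (h6 : qd e x = r t ^ 2 → 0 < α * qd e x)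
    (h1 : δ * qd e x = ⟪e, x⟫ + 1 → -β + 2 * α * δ * qd e x < 0)
    (h2 : ⟪e, x⟫ = s t → β < 0) :
    ∃ v, DZ (fun t : ℝ => tunF F e c δ a a₁ b₁ (r t) (s t)) t x v := by
  refine ⟨α • orth e x + β • e, tun1_dz e c δ a a₁ b₁ hF hr hs ?_
    (tun1_dz4 he a₁ b₁ hr t x α β h4 h5 h6) (tun1_lfdz he _ _ _ t x α β ?_)
    (dz_lf he (A := fun _ => 1) (B := fun _ => 0) (fun t => -s t) continuous_const
      continuous_const t x α β ?_)⟩
  · rcases h3 with h3 | h3 | ⟨h3, h3'⟩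
    · refine dz_of_ne ((min_le_right _ _).trans_lt ((min_le_left _ _).trans_lt ?_)).ne
      unfold lf
      linarith
    · refine dz_of_ne ((min_le_right _ _).trans_lt ((min_le_right _ _).trans_lt ?_)).ne
      unfold lf
      linarith
    · exact tun1_dz3 he c δ a hF t x α β h0 h3 h3'
  · intro h
    have := h1 (by linarith)
    linarith
  · intro h
    have h' : ⟪e, x⟫ = s t := by
      unfold lf at h
      linarith
    have := h2 h'
    linarith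

variable [FiniteDimensional ℝ V]

/-- The descent direction at the points below the tunnel.

PROOF.  Write `h = ⟪e, x⟫`, `q = qd e x`.  We look for `v = α • orth e x + β • e` or a direction
with `fderiv F x v < 0`, and use `dz_lf`, `dz_fun`, `dz_min`, `dz_max`, `dz_of_ne`; joint continuity of
the terms by `lf_continuous'`.  Put `m = min F (min (lf e 1 (-δ) (-c)) (lf e (-1) 0 a))`.
(i) `lf e (-1) δ (-1) x = 0`, i.e. `h = δ q - 1`: `v = e` (`α = 0`, `β = 1`): `-1 < 0`.  The value of `m`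
is `≤ lf e 1 (-δ) (-c) x = -1 - c < 0`, not zero.
(ii) `lf e (-1) δ (-1) x < 0`: then `m x = 0` is the only interesting case.  `lf e (-1) 0 a x = a - h > 0`.
 `F x = 0 < lf e 1 (-δ) (-c) x`: any `v` with `fderiv F x v < 0` (`v = -gradient F x`, `reg`).
 `F x > 0 = lf e 1 (-δ) (-c) x`: `v = -e`: `-1 < 0`.
 `F x = 0 = lf e 1 (-δ) (-c) x`: `h = c + δ q`; with `ε` from `trans`: `v = -orth e x - ε • e`
 (`α = -1`, `β = -ε`): `fderiv F x v = -fderiv F x (orth e x) - ε fderiv F x e < 0`;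
 for `lf e 1 (-δ) (-c)`: `-ε + 2 δ q < 0`.
The statement is about the static function; to be used with `DZ.congr`-free style: it is applied to
the common factor of the families `tunF`. -/
theorem tun_low {F : V → ℝ} {e : V} {c h₀ δ a₀ a : ℝ} (hB : Bot F e c h₀ δ a₀) (ha : a₀ < a)
    (t : ℝ) (x : V) (hx : ⟪e, x⟫ < a) :
    ∃ v, DZ (fun _ : ℝ => fun y => min (F y) (min (lf e 1 (-δ) (-c) y) (lf e (-1) 0 a y))) t x v ∧
      DZ (fun _ : ℝ => lf e (-1) δ (-1)) t x v := by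
  have he := hB.unit
  have hL' : DZ (fun _ : ℝ => lf e (-1) 0 a) t x (0 : V) ∧ ∀ v, DZ (fun _ : ℝ => lf e (-1) 0 a) t x v := by
    have h : lf e (-1) 0 a x ≠ 0 := by
      unfold lf
      intro h
      linarith
    exact ⟨dz_of_ne h, fun v => dz_of_ne h⟩
  have hmin : ∀ v, DZ (fun _ : ℝ => F) t x v → DZ (fun _ : ℝ => lf e 1 (-δ) (-c)) t x v →
      DZ (fun _ : ℝ => fun y => min (F y) (min (lf e 1 (-δ) (-c) y) (lf e (-1) 0 a y))) t x v :=
    fun v h1 h2 => dz_min (tun1_F hB.smooth) ((tun1_lf e 1 (-δ) (-c)).min (tun1_lf e (-1) 0 a)) h1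
      (dz_min (tun1_lf e 1 (-δ) (-c)) (tun1_lf e (-1) 0 a) h2 (hL'.2 v))
  have hc := hB.c_pos
  by_cases hT : ⟪e, x⟫ = δ * qd e x - 1
  · refine ⟨(0 : ℝ) • orth e x + (1 : ℝ) • e, dz_of_ne ?_, tun1_lfdz he _ _ _ t x 0 1 ?_⟩
    · have h1 : lf e 1 (-δ) (-c) x < 0 := by
        unfold lf
        linarith
      exact ((min_le_right _ _).trans_lt ((min_le_left _ _).trans_lt h1)).ne
    · intro _
      linarith
  have hT1 : ∀ v, DZ (fun _ : ℝ => lf e (-1) δ (-1)) t x v := fun v => dz_of_ne (by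
    unfold lf
    intro h
    exact hT (by linarith))
  rcases lt_trichotomy (F x) 0 with hF | hF | hF
  · exact ⟨0, dz_of_ne ((min_le_left _ _).trans_lt hF).ne, hT1 0⟩
  · by_cases hL : ⟪e, x⟫ = c + δ * qd e x
    · obtain ⟨ε, h1, h2, h3⟩ := hB.trans x hF hL
      refine ⟨(-1 : ℝ) • orth e x + (-ε) • e, hmin _ (dz_fun hB.smooth t fun _ => ?_)
        (tun1_lfdz he _ _ _ t x (-1) (-ε) fun _ => ?_), hT1 _⟩
      · rw [map_add, map_smul, map_smul, smul_eq_mul, smul_eq_mul]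
        linarith
      · linarith
    · refine ⟨-gradient F x, hmin _ (dz_fun hB.smooth t fun _ => ?_) (dz_of_ne ?_), hT1 _⟩
      · rw [map_neg, neg_lt_zero, ← inner_gradient_left]
        exact real_inner_self_pos.2 (hB.reg x hF)
      · unfold lf
        intro h
        exact hL (by linarith)
  · refine ⟨(0 : ℝ) • orth e x + (-1 : ℝ) • e, hmin _ (dz_of_ne hF.ne')
      (tun1_lfdz he _ _ _ t x 0 (-1) fun _ => ?_), hT1 _⟩
    linarith

/-- The points below the level `a₁`. -/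
theorem tun1_below {F : V → ℝ} {e : V} {c h₀ δ a₀ a a₁ b₁ : ℝ} (hB : Bot F e c h₀ δ a₀)
    (ha₁ : a₀ < a₁) (ha : a₁ < a) {r s : ℝ → ℝ} (hr : Continuous r) (hs : Continuous s) {t : ℝ}
    {x : V} (hx : ⟪e, x⟫ < a₁) (hxs : ⟪e, x⟫ < s t) :
    ∃ v, DZ (fun t : ℝ => tunF F e c δ a a₁ b₁ (r t) (s t)) t x v := by
  obtain ⟨v, h3, h1⟩ := tun_low hB (ha₁.trans ha) t x (hx.trans ha)
  refine ⟨v, tun1_dz e c δ a a₁ b₁ hB.smooth hr hs h3 (dz_of_ne ?_) h1 (dz_of_ne ?_)⟩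
  · refine ((min_le_left _ _).trans_lt ((min_le_left _ _).trans_lt ?_)).ne
    unfold lf
    linarith
  · refine (?_ : _ < (0 : ℝ)).ne
    unfold lf
    linarith

theorem tun1_pos {F : V → ℝ} {e : V} {c h₀ δ a₀ a₁ : ℝ} (hB : Bot F e c h₀ δ a₀)
    (ha₁ : a₀ < a₁) {x : V} (hx : a₁ ≤ ⟪e, x⟫) : 0 < F x := by
  by_contra h
  have := hB.top x (not_lt.1 h)
  have := qd_nonneg e x
  linarith

/-- Widening the tunnel.

PROOF.  `hom_of_dz` with `H t = tunF F e c δ a a₁ b₁ (r₀ + t * (r₁ - r₀)) b`, `t ∈ [0, 1]`; so the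
radius `r = r₀ + t (r₁ - r₀)` is in `[r₀, r₁]`, `r > 0`.  Joint continuity: `lf_continuous'`.
Bounded: a zero has `boxF e δ b x ≤ 0`, `bowl_bdd`.  `H t` is the maximum of
`T₃ = min F (min (lf e 1 (-δ) (-c)) (lf e (-1) 0 a))`,
`T₄ = min (min (lf e 1 0 (-a₁)) (lf e (-1) 0 b₁)) (lf e 0 (-1) (r²))` and of
`T₁ = lf e (-1) δ (-1)`, `T₂ = lf e 1 0 (-b)`.  Let `x` be a zero of `H t`: all four are `≤ 0` at `x`.
`h = ⟪e, x⟫ ≤ b < b₁`, so `lf e (-1) 0 b₁ x ≠ 0` always.  With `dz_max`, `dz_min`, `dz_lf`, `dz_of_ne`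
it is enough to find `v = α • orth e x + β • e` such that every `lf` term which is zero at `x` and
relevant has negative derivative `A β + 2 α B q`.
(a) `h < a₁`: `lf e 1 0 (-a₁) x < 0`, so `T₄ x < 0`, `T₂ x < 0` (not zero); `v` from `tun_low`.
(b) `h ≥ a₁ > a₀`: then `F x > 0` (`top`), so `F x ≠ 0` (`dz_of_ne` for `F`).
 `T₄ x ≤ 0` means `h = a₁` or `q ≥ r²`.
 (b1) `h = a₁`, `q < r²`: `T₁ x < 0` since `δ q < δ r₁² < a₁ + 1` (`hr₁`), `T₂ x < 0`,
  `lf e (-1) 0 a x > 0`; `v = -e`: `lf e 1 0 (-a₁)`: `-1`; `lf e 1 (-δ) (-c)`: `-1`;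
  `lf e 0 (-1) (r²) x > 0` not zero.
 (b2) `q = r²`: `T₁ x = δ r² - 1 - h < 0`.  If `h = a`: `v = orth e x + ε • e` with
  `0 < ε < 2 δ q` (`q = r² > 0`): `lf e (-1) 0 a`: `-ε`; `lf e 1 (-δ) (-c)`: `ε - 2 δ q < 0`;
  `lf e 0 (-1) (r²)`: `-2 q < 0`; `lf e 1 0 (-a₁) x = a - a₁ > 0` not zero, `T₂ x < 0`.
  If `h ≠ a`: `v = orth e x - ε • e`, `ε = 1`: `lf e (-1) 0 a x ≠ 0`; `lf e 1 (-δ) (-c)`:
  `-1 - 2 δ q`; `lf e 0 (-1) (r²)`: `-2 q`; `lf e 1 0 (-a₁)`: `-1`; `T₂`: `-1`.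
 (b3) `q > r²`: `lf e 0 (-1) (r²) x < 0`, `T₄ x < 0`.  If `T₁ x = 0`: `T₃ x ≤ lf e 1 (-δ) (-c) x =
  -1 - c < 0`; `v = -orth e x - e`: `T₁`: `1 - 2 δ q` with `δ q = h + 1 ≥ a₁ + 1 > 1`, negative;
  `T₂`: `-1`.  If `T₁ x < 0`: if `T₂ x = 0` (`h = b > a`): `lf e (-1) 0 a x < 0`, `T₃ x < 0`,
  `v = -e`.  Otherwise `T₃ x = 0`, so `h ≤ a` and `c + δ q ≤ h`: if `h < a`: `v = -e`
  (`lf e (-1) 0 a x ≠ 0`).  If `h = a`: `v = orth e x + ε • e`, `0 < ε < 2 δ q` (`q > 0`):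
  `lf e (-1) 0 a`: `-ε`; `lf e 1 (-δ) (-c)`: `ε - 2 δ q`. -/
theorem tun_widen {F : V → ℝ} {e : V} {c h₀ δ a₀ a a₁ b b₁ r₀ r₁ : ℝ} (hB : Bot F e c h₀ δ a₀)
    (ha₁ : a₀ < a₁) (ha : a₁ < a) (hb : a < b) (hb₁ : b < b₁) (hr₀ : 0 < r₀) (hr : r₀ ≤ r₁)
    (hr₁ : δ * r₁ ^ 2 < a₁ + 1) :
    Hom (tunF F e c δ a a₁ b₁ r₀ b) (tunF F e c δ a a₁ b₁ r₁ b) := by
  have he := hB.unit
  have hδ := hB.δ_pos
  have hc := hB.c_pos
  have hc1 := hB.c_lt
  have hc2 := hB.h_lt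
  have hrc : Continuous fun t : ℝ => r₀ + t * (r₁ - r₀) := by fun_prop
  have key := hom_of_dz (fun t : ℝ => tunF F e c δ a a₁ b₁ (r₀ + t * (r₁ - r₀)) b)
    (tun1_cont e c δ a a₁ b₁ hB.smooth hrc (continuous_const (y := b))) ?_ ?_
  · have e0 : r₀ + 0 * (r₁ - r₀) = r₀ := by ring
    have e1 : r₀ + 1 * (r₁ - r₀) = r₁ := by ring
    beta_reduce at key
    rwa [e0, e1] at key
  · obtain ⟨R, hR⟩ := bowl_bdd he hδ b
    refine ⟨R, fun t _ x hx => ?_⟩
    obtain ⟨-, -, h1, h2⟩ := tun1_zero hx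
    refine hR x ?_ h2
    unfold lf
    linarith
  intro t ht x hx
  obtain ⟨-, h4, h1, h2⟩ := tun1_zero hx
  rcases lt_or_ge ⟪e, x⟫ a₁ with hlt | hge
  · exact tun1_below hB ha₁ ha hrc (continuous_const (y := b)) hlt (by linarith)
  have hF := (tun1_pos hB ha₁ hge).ne'
  have hb' : ⟪e, x⟫ ≠ b₁ := by
    intro h
    linarith
  have hq := qd_nonneg e x
  have hr1 : 0 < r₀ + t * (r₁ - r₀) := by
    have := mul_nonneg ht.1 (sub_nonneg.2 hr)
    linarith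
  have hr2 : r₀ + t * (r₁ - r₀) ≤ r₁ := by
    have := mul_le_mul_of_nonneg_right ht.2 (sub_nonneg.2 hr)
    linarith
  have hrr : δ * (r₀ + t * (r₁ - r₀)) ^ 2 < a₁ + 1 := by
    refine lt_of_le_of_lt ?_ hr₁
    exact mul_le_mul_of_nonneg_left (pow_le_pow_left₀ hr1.le hr2 2) hδ.le
  have hrp : 0 < (r₀ + t * (r₁ - r₀)) ^ 2 := by positivity
  rcases lt_trichotomy (qd e x) ((r₀ + t * (r₁ - r₀)) ^ 2) with h | h | h
  · have hh : ⟪e, x⟫ = a₁ := by
      rcases h4 with (h4 | h4) | h4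
      · exact le_antisymm h4 hge
      · exact absurd h4 (by linarith)
      · exact absurd h4 (by linarith)
    have hd := mul_lt_mul_of_pos_left h hδ
    exact tun1_high he hB.smooth hrc (continuous_const (y := b)) 0 (-1) hF
      (Or.inr (Or.inr ⟨fun _ => by linarith, fun h' => by linarith⟩)) (fun _ => by linarith) hb'
      (fun h' => absurd h' h.ne) (fun h' => by linarith) (fun _ => by linarith)
  · have hd : δ * qd e x < a₁ + 1 := by rw [h]; exact hrr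
    have hqp : 0 < qd e x := by rw [h]; exact hrp
    have hdq := mul_pos hδ hqp
    by_cases hha : ⟪e, x⟫ = a
    · exact tun1_high he hB.smooth hrc (continuous_const (y := b)) 1 (δ * qd e x) hF
        (Or.inr (Or.inr ⟨fun _ => by linarith, fun _ => hdq⟩)) (fun h' => by linarith) hb'
        (fun _ => by linarith) (fun h' => by linarith) (fun h' => by linarith)
    · exact tun1_high he hB.smooth hrc (continuous_const (y := b)) 1 (-1) hF
        (Or.inr (Or.inr ⟨fun _ => by linarith, fun h' => absurd h' hha⟩)) (fun _ => by linarith) hb'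
        (fun _ => by linarith) (fun h' => by linarith) (fun _ => by linarith)
  · have hqp : 0 < qd e x := hrp.trans h
    have hdq := mul_pos hδ hqp
    by_cases hT : δ * qd e x = ⟪e, x⟫ + 1
    · exact tun1_high he hB.smooth hrc (continuous_const (y := b)) (-1) (-1) hF
        (Or.inl (by linarith)) (fun _ => by linarith) hb' (fun h' => absurd h' h.ne')
        (fun h' => by linarith) (fun _ => by linarith)
    · by_cases hha : ⟪e, x⟫ = a
      · exact tun1_high he hB.smooth hrc (continuous_const (y := b)) 1 (δ * qd e x) hF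
          (Or.inr (Or.inr ⟨fun _ => by linarith, fun _ => hdq⟩)) (fun h' => by linarith) hb'
          (fun h' => absurd h' h.ne') (fun h' => absurd h' hT) (fun h' => by linarith)
      · exact tun1_high he hB.smooth hrc (continuous_const (y := b)) 0 (-1) hF
          (Or.inr (Or.inr ⟨fun _ => by linarith, fun h' => absurd h' hha⟩)) (fun _ => by linarith)
          hb' (fun h' => absurd h' h.ne') (fun h' => absurd h' hT) (fun _ => by linarith)

end Pool.Schoen
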