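import Mathlib
import Pool.Agent.H.MP_6c077c_gt.IxC.Tun1

/-! Index theorem, second half: lowering the ceiling. -/

set_option autoImplicit false

namespace Pool.Schoen

open Filter Set
open scoped Topology ContDiff RealInnerProductSpace

variable {V : Type*} [NormedAddCommGroup V] [InnerProductSpace ℝ V] [FiniteDimensional ℝ V]

/-- Lowering the ceiling.

PROOF.  `hom_of_dz` with `H t = tunF F e c δ a a₁ b₁ r (b + t * (a₁ - b))`, `t ∈ [0, 1]`; the ceiling
`s = b + t (a₁ - b)` is in `[a₁, b]`.  Terms `T₁, ..., T₄` as in `tun_widen` with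
`T₂ = lf e 1 0 (-s)`.  Joint continuity and boundedness as there (`⟪e, x⟫ ≤ s ≤ b`).  Let `x` be a zero
of `H t`, `h = ⟪e, x⟫ ≤ s`, `q = qd e x`; `lf e (-1) 0 b₁ x ≠ 0`.
(a) `h < a₁`: `T₂ x < 0`, `T₄ x < 0`; `v` from `tun_low`.
(b) `h ≥ a₁`: `F x > 0` (`top`).
 (b1) `h = a₁`, `q < r²`: `T₁ x = δ q - 1 - h < 0` (`hr`), `lf e (-1) 0 a x ≠ 0`,
  `lf e 0 (-1) (r²) x ≠ 0`; `v = -e`: `lf e 1 0 (-a₁)`, `lf e 1 (-δ) (-c)`, `T₂`: all `-1`.
 (b2) `q = r²`: `T₁ x < 0`; `T₃ x < 0`: if `h ≤ a` then `lf e 1 (-δ) (-c) x = h - δ r² - c < 0` by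
  `hr'`; if `h > a` then `lf e (-1) 0 a x < 0`.  `v = orth e x - e`: `lf e 0 (-1) (r²)`: `-2 q < 0`
  (`q = r² > 0`); `lf e 1 0 (-a₁)`: `-1`; `T₂`: `-1`.
 (b3) `q > r²`: `T₄ x < 0`, `T₃ x < 0` as in (b2) (`δ q > δ r²`).  So `T₁ x = 0` or `T₂ x = 0`.
  If `T₁ x = 0`: `v = -orth e x - e`: `T₁`: `1 - 2 δ q`, `δ q = h + 1 > 1`; `T₂`: `-1`.  If
  `T₁ x < 0`: `v = -e`. -/
theorem tun_lower {F : V → ℝ} {e : V} {c h₀ δ a₀ a a₁ b b₁ r : ℝ} (hB : Bot F e c h₀ δ a₀)
    (ha₁ : a₀ < a₁) (ha : a₁ < a) (hb : a < b) (hb₁ : b < b₁) (hr0 : 0 < r)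
    (hr : δ * r ^ 2 < a₁ + 1) (hr' : a < c + δ * r ^ 2) :
    Hom (tunF F e c δ a a₁ b₁ r b) (tunF F e c δ a a₁ b₁ r a₁) := by
  have he := hB.unit
  have hδ := hB.δ_pos
  have hc := hB.c_pos
  have hc1 := hB.c_lt
  have hc2 := hB.h_lt
  have hsc : Continuous fun t : ℝ => b + t * (a₁ - b) := by fun_prop
  have key := hom_of_dz (fun t : ℝ => tunF F e c δ a a₁ b₁ r (b + t * (a₁ - b)))
    (tun1_cont e c δ a a₁ b₁ hB.smooth (continuous_const (y := r)) hsc) ?_ ?_
  · have e0 : b + 0 * (a₁ - b) = b := by ring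
    have e1 : b + 1 * (a₁ - b) = a₁ := by ring
    beta_reduce at key
    rwa [e0, e1] at key
  · obtain ⟨R, hR⟩ := bowl_bdd he hδ b
    refine ⟨R, fun t ht x hx => ?_⟩
    obtain ⟨-, -, h1, h2⟩ := tun1_zero hx
    have hs : t * (b - a₁) ≥ 0 := mul_nonneg ht.1 (by linarith)
    refine hR x ?_ (by linarith)
    unfold lf
    linarith
  intro t ht x hx
  obtain ⟨-, h4, h1, h2⟩ := tun1_zero hx
  have hs1 : t * (b - a₁) ≥ 0 := mul_nonneg ht.1 (by linarith)
  have hs2 : t * (b - a₁) ≤ 1 * (b - a₁) := mul_le_mul_of_nonneg_right ht.2 (by linarith)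
  rcases lt_or_ge ⟪e, x⟫ a₁ with hlt | hge
  · exact tun1_below hB ha₁ ha (continuous_const (y := r)) hsc hlt (by linarith)
  have hF := (tun1_pos hB ha₁ hge).ne'
  have hb' : ⟪e, x⟫ ≠ b₁ := by
    intro h
    linarith
  have hq := qd_nonneg e x
  have hrp : 0 < r ^ 2 := by positivity
  rcases lt_trichotomy (qd e x) (r ^ 2) with h | h | h
  · have hh : ⟪e, x⟫ = a₁ := by
      rcases h4 with (h4 | h4) | h4
      · exact le_antisymm h4 hge
      · exact absurd h4 (by linarith)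
      · exact absurd h4 (by linarith)
    have hd := mul_lt_mul_of_pos_left h hδ
    exact tun1_high he hB.smooth (continuous_const (y := r)) hsc 0 (-1) hF
      (Or.inr (Or.inr ⟨fun _ => by linarith, fun h' => by linarith⟩)) (fun _ => by linarith) hb'
      (fun h' => absurd h' h.ne) (fun h' => by linarith) (fun _ => by linarith)
  · have hd : δ * qd e x < a₁ + 1 := by rw [h]; exact hr
    have hd' : a < c + δ * qd e x := by rw [h]; exact hr'
    have hqp : 0 < qd e x := by rw [h]; exact hrp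
    have hdq := mul_pos hδ hqp
    have h3 : ⟪e, x⟫ < c + δ * qd e x ∨ a < ⟪e, x⟫ ∨
        ((⟪e, x⟫ = c + δ * qd e x → (-1 : ℝ) + 2 * 1 * -δ * qd e x < 0) ∧
          (⟪e, x⟫ = a → (0 : ℝ) < -1)) := by
      rcases le_or_gt ⟪e, x⟫ a with h5 | h5
      · exact Or.inl (by linarith)
      · exact Or.inr (Or.inl h5)
    exact tun1_high he hB.smooth (continuous_const (y := r)) hsc 1 (-1) hF h3
      (fun _ => by linarith) hb' (fun _ => by linarith) (fun h' => by linarith)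
      (fun _ => by linarith)
  · have hqp : 0 < qd e x := hrp.trans h
    have hdq := mul_pos hδ hqp
    have hd' : a < c + δ * qd e x := by
      have := mul_lt_mul_of_pos_left h hδ
      linarith
    have h3 : ⟪e, x⟫ < c + δ * qd e x ∨ a < ⟪e, x⟫ := by
      rcases le_or_gt ⟪e, x⟫ a with h5 | h5
      · exact Or.inl (by linarith)
      · exact Or.inr h5
    by_cases hT : δ * qd e x = ⟪e, x⟫ + 1
    · exact tun1_high he hB.smooth (continuous_const (y := r)) hsc (-1) (-1) hF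
        (h3.imp_right Or.inl) (fun _ => by linarith) hb' (fun h' => absurd h' h.ne')
        (fun h' => by linarith) (fun _ => by linarith)
    · exact tun1_high he hB.smooth (continuous_const (y := r)) hsc 0 (-1) hF
        (h3.imp_right Or.inl) (fun _ => by linarith) hb' (fun h' => absurd h' h.ne')
        (fun h' => absurd h' hT) (fun _ => by linarith)

end Pool.Schoen
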