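import Mathlib
import Pool.Agent.H.MP_6c077c_gt.IxC.Leaf

/-! Index theorem, second half: from the tunnel to the wall. -/

set_option autoImplicit false

namespace Pool.Schoen

open Filter Set
open scoped Topology ContDiff RealInnerProductSpace

variable {V : Type*} [NormedAddCommGroup V] [InnerProductSpace ℝ V] [FiniteDimensional ℝ V]

private theorem Wall0_nearA {F L L' T₁ T₂ : ℝ} (h1 : F < L) (h2 : F < L') (h3 : T₁ < F)
    (h4 : T₂ < F) : max (min F (min L L')) (max T₁ T₂) = min F (max T₁ (max L T₂)) := by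
  rw [min_eq_left (le_min h1.le h2.le), max_eq_left (max_le h3.le h4.le), min_eq_left]
  exact h1.le.trans ((le_max_left _ _).trans (le_max_right _ _))

private theorem Wall0_nearB {F L L' T₁ T₂ : ℝ} (h2 : L < L') (h3 : T₁ < F)
    (h4 : T₂ < F) (h5 : T₁ < L) (h6 : T₂ < L) :
    max (min F (min L L')) (max T₁ T₂) = min F (max T₁ (max L T₂)) := by
  rw [min_eq_left h2.le, max_eq_left h6.le, max_eq_right h5.le, max_eq_left]
  exact max_le (le_min h3.le h5.le) (le_min h4.le h6.le)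

private theorem Wall0_nearC {F L L' T₁ T₂ : ℝ} (h1 : L < F) (h2 : L < L')
    (h3 : max T₁ (max L T₂) < F) :
    max (min F (min L L')) (max T₁ T₂) = min F (max T₁ (max L T₂)) := by
  rw [min_eq_left h2.le, min_eq_right h1.le, min_eq_right h3.le, ← max_assoc, ← max_assoc,
    max_comm L T₁]

private theorem Wall0_cases {F L L' T₁ T₂ : ℝ} (h1 : F ≤ 0 → T₁ < 0 ∧ T₂ < 0)
    (h2 : T₂ ≤ 0 → 0 < L')
    (h : max (min F (min L L')) (max T₁ T₂) = 0 ∨ min F (max T₁ (max L T₂)) = 0) :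
    (F = 0 ∧ 0 < L ∧ T₁ < 0 ∧ T₂ < 0 ∧ 0 < L') ∨ (F = 0 ∧ L = 0 ∧ T₁ < 0 ∧ T₂ < 0 ∧ 0 < L') ∨
      (0 < F ∧ L ≤ 0 ∧ 0 < L' ∧ max T₁ (max L T₂) = 0) := by
  rcases lt_trichotomy F 0 with hF | hF | hF
  · exfalso
    obtain ⟨a1, a2⟩ := h1 hF.le
    rcases h with h | h
    · exact (max_lt ((min_le_left _ _).trans_lt hF) (max_lt a1 a2)).ne h
    · exact ((min_le_left _ _).trans_lt hF).ne h
  · obtain ⟨a1, a2⟩ := h1 hF.le
    have a3 := h2 a2.le
    rcases lt_trichotomy L 0 with hL | hL | hL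
    · exfalso
      rcases h with h | h
      · exact (max_lt (((min_le_right _ _).trans (min_le_left _ _)).trans_lt hL)
          (max_lt a1 a2)).ne h
      · exact ((min_le_right _ _).trans_lt (max_lt a1 (max_lt hL a2))).ne h
    · exact Or.inr (Or.inl ⟨hF, hL, a1, a2, a3⟩)
    · exact Or.inl ⟨hF, hL, a1, a2, a3⟩
  · refine Or.inr (Or.inr ?_)
    rcases h with h | h
    · have b1 : T₁ ≤ 0 := h ▸ (le_max_left _ _).trans (le_max_right _ _)
      have b2 : T₂ ≤ 0 := h ▸ (le_max_right _ _).trans (le_max_right _ _)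
      have b3 := h2 b2
      have b4 : L ≤ 0 := by
        by_contra h7
        rw [not_le] at h7
        have h8 : 0 < max (min F (min L L')) (max T₁ T₂) :=
          lt_max_of_lt_left (lt_min hF (lt_min h7 b3))
        exact h8.ne' h
      refine ⟨hF, b4, b3, le_antisymm (max_le b1 (max_le b4 b2)) ?_⟩
      by_contra h7
      rw [not_le, max_lt_iff, max_lt_iff] at h7
      exact (max_lt (((min_le_right _ _).trans (min_le_left _ _)).trans_lt h7.2.1)
          (max_lt h7.1 h7.2.2)).ne h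
    · have b1 : max T₁ (max L T₂) = 0 := by
        rcases min_choice F (max T₁ (max L T₂)) with h3 | h3
        · rw [h3] at h
          exact absurd h hF.ne'
        · rw [h3] at h
          exact h
      have b2 : T₂ ≤ 0 := b1 ▸ (le_max_right _ _).trans (le_max_right _ _)
      exact ⟨hF, b1 ▸ (le_max_left _ _).trans (le_max_right _ _), h2 b2, b1⟩

private theorem Wall0_sign {F L L' T₁ T₂ : ℝ} (h1 : F ≤ 0 → T₁ < 0 ∧ T₂ < 0)
    (h2 : T₂ ≤ 0 → 0 < L') (hg : min F (max T₁ (max L T₂)) ≠ 0) :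
    0 < max (min F (min L L')) (max T₁ T₂) * min F (max T₁ (max L T₂)) := by
  have key : ∀ (_ : T₁ < 0) (_ : T₂ < 0) (_ : L < 0),
      0 < max (min F (min L L')) (max T₁ T₂) * min F (max T₁ (max L T₂)) := by
    intro a1 a2 hL
    exact mul_pos_of_neg_of_neg (max_lt (((min_le_right _ _).trans (min_le_left _ _)).trans_lt hL)
          (max_lt a1 a2)) ((min_le_right _ _).trans_lt (max_lt a1 (max_lt hL a2)))
  rcases lt_trichotomy F 0 with hF | hF | hF
  · obtain ⟨a1, a2⟩ := h1 hF.le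
    exact mul_pos_of_neg_of_neg (max_lt ((min_le_left _ _).trans_lt hF) (max_lt a1 a2))
      ((min_le_left _ _).trans_lt hF)
  · obtain ⟨a1, a2⟩ := h1 hF.le
    rcases lt_or_ge L 0 with hL | hL
    · exact key a1 a2 hL
    · exfalso
      refine hg ?_
      rw [hF]
      exact min_eq_left (hL.trans ((le_max_left _ _).trans (le_max_right _ _)))
  · rcases lt_trichotomy (max T₁ (max L T₂)) 0 with hm | hm | hm
    · rw [max_lt_iff, max_lt_iff] at hm
      exact key hm.1 hm.2.2 hm.2.1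
    · exfalso
      refine hg ?_
      rw [hm]
      exact min_eq_right hF.le
    · refine mul_pos ?_ (lt_min hF hm)
      rcases lt_or_ge 0 T₁ with c1 | c1
      · exact lt_max_of_lt_right (lt_max_of_lt_left c1)
      rcases lt_or_ge 0 T₂ with c2 | c2
      · exact lt_max_of_lt_right (lt_max_of_lt_right c2)
      have c3 : 0 < L := by
        by_contra h7
        rw [not_lt] at h7
        exact absurd (max_le c1 (max_le h7 c2)) (not_le.2 hm)
      exact lt_max_of_lt_left (lt_min hF (lt_min c3 (h2 c2)))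

/-- With the ceiling at the bottom of the tunnel, only `{F ≤ 0}` and the wall are left.

PROOF.  Let `f = tunF F e c δ a a₁ b₁ r a₁`, `g = wallF F e c δ a₁`; write `T₁ = lf e (-1) δ (-1)`,
`T₂ = lf e 1 0 (-a₁)`, `L = lf e 1 (-δ) (-c)`, `L' = lf e (-1) 0 a`.
(0) `min (min T₂ _) _ ≤ T₂`, so `f = max (min F (min L L')) (max T₁ T₂)` everywhere, and
`g = min F (max T₁ (max L T₂))`.
(1) If `F x ≤ 0`: `T₁ x < 0` (`flat`, and `⟪e, x⟫ ≥ 0`: `strict` or `x = 0`), `T₂ x < 0` (`top`,
`a₀ < a₁`), `L' x > 0`.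
Use `Hom.of_eq_near'` (`Ix/HomB.lean`).  Suppose `f x = 0` or `g x = 0`; we show `f = g` near `x`.
 (A) `F x < 0`: by (1) `f x = max (min (F x) (L x)) _ < 0` and `g x ≤ F x < 0`; impossible.
 (B) `F x = 0`: `T₁ x, T₂ x < 0 < L' x`.  `f x = 0` or `g x = 0` implies `L x ≥ 0` (if `L x < 0` then
 `f x < 0` and `g x < 0`).  If `L x > 0`: near `x`, `f = F` and `g = F` (`|F|` is small near `x`, the
 other terms are bounded away from zero).  If `L x = 0`: near `x`, `f = min F L` and `g = min F L`.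
 (C) `F x > 0`.  `f x = 0`: `T₁ x ≤ 0`, `T₂ x ≤ 0` (so `L' x > 0`), `min (F x) (min (L x) (L' x)) ≤ 0`,
 so `L x ≤ 0`; and `g x = 0`: `max (T₁ x) (max (L x) (T₂ x)) = 0`.  In both cases
 `max (T₁ x) (max (L x) (T₂ x)) = 0` [if `f x = 0` one of `L x`, `T₁ x`, `T₂ x` is zero].  Near `x`,
 `L < F`, `L < L'`, so `f = max L (max T₁ T₂)`, and `max T₁ (max L T₂) < F`, so
 `g = max T₁ (max L T₂)`.
Signs: if `f x ≠ 0 ≠ g x`: for `F x ≤ 0`, `f x < 0 ↔ (F x < 0 ∨ L x < 0) ↔ g x < 0`, and if none holds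
then `F x = 0`, `L x ≥ 0`, `g x = 0`.  For `F x > 0`: `f x < 0 ↔ (L x < 0 ∧ T₁ x < 0 ∧ T₂ x < 0)`
(`L' x > 0` when `T₂ x < 0`) `↔ g x < 0`.  (A case distinction with `lt_trichotomy` and `simp`,
`max_lt_iff`, `min_lt_iff`.) -/
theorem wall_start {F : V → ℝ} {e : V} {c h₀ δ a₀ a a₁ b₁ r : ℝ} (hB : Bot F e c h₀ δ a₀)
    (ha₁ : a₀ < a₁) (ha : a₁ < a) (hg : Good (tunF F e c δ a a₁ b₁ r a₁)) :
    Hom (tunF F e c δ a a₁ b₁ r a₁) (wallF F e c δ a₁) := by
  have hF : Continuous F := hB.smooth.continuous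
  have cT₁ : Continuous (lf e (-1) δ (-1)) := lf_continuous _ _ _
  have cT₂ : Continuous (lf e 1 0 (-a₁)) := lf_continuous _ _ _
  have cL : Continuous (lf e 1 (-δ) (-c)) := lf_continuous _ _ _
  have cL' : Continuous (lf e (-1) 0 a) := lf_continuous _ _ _
  have ef : ∀ y, tunF F e c δ a a₁ b₁ r a₁ y =
      max (min (F y) (min (lf e 1 (-δ) (-c) y) (lf e (-1) 0 a y)))
        (max (lf e (-1) δ (-1) y) (lf e 1 0 (-a₁) y)) := by
    intro y
    unfold tunF boxF
    rw [max_assoc]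
    congr 1
    refine max_eq_right ?_
    exact ((min_le_left _ _).trans (min_le_left _ _)).trans (le_max_right _ _)
  have eg : ∀ y, wallF F e c δ a₁ y =
      min (F y) (max (lf e (-1) δ (-1) y) (max (lf e 1 (-δ) (-c) y) (lf e 1 0 (-a₁) y))) :=
    fun y => rfl
  have k1 : ∀ x, F x ≤ 0 → lf e (-1) δ (-1) x < 0 ∧ lf e 1 0 (-a₁) x < 0 := by
    intro x hx
    have h0 : 0 ≤ ⟪e, x⟫ := by
      by_cases hx0 : x = 0
      · rw [hx0, inner_zero_right]
      · exact (hB.strict x hx hx0).le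
    have h3 := hB.flat x hx
    have h4 := hB.top x hx
    have h5 := qd_nonneg e x
    unfold lf
    constructor
    · linarith
    · linarith
  have k2 : ∀ x, lf e 1 0 (-a₁) x ≤ 0 → 0 < lf e (-1) 0 a x := by
    intro x hx
    unfold lf at hx ⊢
    linarith
  refine Hom.of_eq_near' hg ?_ ?_ ?_
  · exact hF.min (cT₁.max (cL.max cT₂))
  · intro x hx
    rw [ef, eg] at hx
    rcases Wall0_cases (k1 x) (k2 x) hx with ⟨h1, h2, h3, h4, h5⟩ | ⟨h1, h2, h3, h4, h5⟩ |
      ⟨h1, h2, h3, h4⟩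
    · filter_upwards [hF.continuousAt.eventually_lt cL.continuousAt (by rw [h1]; exact h2),
        hF.continuousAt.eventually_lt cL'.continuousAt (by rw [h1]; exact h5),
        cT₁.continuousAt.eventually_lt hF.continuousAt (by rw [h1]; exact h3),
        cT₂.continuousAt.eventually_lt hF.continuousAt (by rw [h1]; exact h4)]
        with y y1 y2 y3 y4
      rw [ef, eg]
      exact Wall0_nearA y1 y2 y3 y4
    · filter_upwards [cL.continuousAt.eventually_lt cL'.continuousAt (by rw [h2]; exact h5),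
        cT₁.continuousAt.eventually_lt hF.continuousAt (by rw [h1]; exact h3),
        cT₂.continuousAt.eventually_lt hF.continuousAt (by rw [h1]; exact h4),
        cT₁.continuousAt.eventually_lt cL.continuousAt (by rw [h2]; exact h3),
        cT₂.continuousAt.eventually_lt cL.continuousAt (by rw [h2]; exact h4)]
        with y y1 y2 y3 y4 y5
      rw [ef, eg]
      exact Wall0_nearB y1 y2 y3 y4 y5
    · filter_upwards [cL.continuousAt.eventually_lt hF.continuousAt (h2.trans_lt h1),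
        cL.continuousAt.eventually_lt cL'.continuousAt (h2.trans_lt h3),
        (cT₁.max (cL.max cT₂)).continuousAt.eventually_lt hF.continuousAt (h4.trans_lt h1)]
        with y y1 y2 y3
      rw [ef, eg]
      exact Wall0_nearC y1 y2 y3
  · intro x _ hx2
    rw [eg] at hx2
    rw [ef, eg]
    exact Wall0_sign (k1 x) (k2 x) hx2

end Pool.Schoen
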