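import Mathlib
import Pool.Agent.H.MP_6c077c_gt.IxC.Leaf

/-! Index theorem, second half: lowering the wall. -/

set_option autoImplicit false

namespace Pool.Schoen

open Filter Set
open scoped Topology ContDiff RealInnerProductSpace

variable {V : Type*} [NormedAddCommGroup V] [InnerProductSpace ℝ V] [FiniteDimensional ℝ V]

private theorem Wall1_grad {F : V → ℝ} {x : V} (h : gradient F x ≠ 0) :
    fderiv ℝ F x (-gradient F x) < 0 := by
  have h1 : ⟪gradient F x, gradient F x⟫ = fderiv ℝ F x (gradient F x) := by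
    conv_lhs => rw [gradient, InnerProductSpace.toDual_symm_apply]
    rfl
  rw [map_neg, ← h1, real_inner_self_eq_norm_sq]
  have h2 : 0 < ‖gradient F x‖ := norm_pos_iff.2 h
  have h3 : 0 < ‖gradient F x‖ ^ 2 := by positivity
  linarith

private theorem Wall1_fd {F : V → ℝ} {x e : V} (α β : ℝ) :
    fderiv ℝ F x (α • orth e x + β • e) =
      α * fderiv ℝ F x (orth e x) + β * fderiv ℝ F x e := by
  rw [map_add, map_smul, map_smul, smul_eq_mul, smul_eq_mul]

/-- Lowering the wall.

PROOF.  `hom_of_dz` with `H t = wallF F e c δ (a₁ + t * (c - a₁))`, `s = a₁ + t (c - a₁) ∈ [c, a₁]`.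
Write `T₁ = lf e (-1) δ (-1)`, `L = lf e 1 (-δ) (-c)`, `S = lf e 1 0 (-s)`, `h = ⟪e, x⟫`,
`q = qd e x`; `H t = min F (max T₁ (max L S))`.
Bounded: a zero has `F x = 0`, or `T₁ x ≤ 0` and `h ≤ s ≤ a₁` (`bowl_bdd`).
Let `H t x = 0`; find `v` for `dz_min`, `dz_max`, `dz_lf`, `dz_fun`, `dz_of_ne`.
(a) `F x = 0`, `max T₁ (max L S) > 0` at `x`: `v = -gradient F x` (or any `v` with
 `fderiv F x v < 0`, `reg`).
(b) `F x = 0`, `max T₁ (max L S) = 0` at `x`: `T₁ x < 0` (`flat` and `h ≥ 0`), and `L x ≤ 0`, i.e.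
 `h ≤ c + δ q`, so `h ≤ h₀` (`bowl`).  `x ≠ 0`: at the origin all three are negative.  So
 `0 < fderiv F x (orth e x)` (`rad`), `fderiv F x e < 0` (`low`).  If `L x = 0`: `ε` from `trans`; if
 `L x < 0` any `ε > 0` with `ε * -(fderiv F x e) < fderiv F x (orth e x)`.
 `v = -orth e x - ε • e` (`α = -1`, `β = -ε`): `F`: `< 0`; `L`: `-ε + 2 δ q < 0` if `L x = 0`; `S`: `-ε`.
(c) `F x > 0`, `max T₁ (max L S) = 0` at `x`.  If `T₁ x = 0`: `h = δ q - 1`, `L x = -1 - c < 0`;
 `v = -orth e x - β • e`...: if `S x = 0` then `δ q = s + 1 > 1`: `α = -1`, `β = -1`: `T₁`: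
 `1 - 2 δ q < 0`, `S`: `-1`.  If `S x < 0`: `v = e`: `T₁`: `-1`.  If `T₁ x < 0`: `v = -e`: `L`: `-1`,
 `S`: `-1`. -/
theorem wall_lower {F : V → ℝ} {e : V} {c h₀ δ a₀ a₁ : ℝ} (hB : Bot F e c h₀ δ a₀)
    (ha₁ : a₀ < a₁) : Hom (wallF F e c δ a₁) (wallF F e c δ c) := by
  have he := hB.unit
  have hc := hB.c_pos
  have hca : c < a₁ := by linarith [hB.c_lt, hB.h_lt]
  have hδ := hB.δ_pos
  have hsr : ∀ t ∈ Icc (0 : ℝ) 1, c ≤ a₁ + t * (c - a₁) ∧ a₁ + t * (c - a₁) ≤ a₁ := by
    intro t ht
    constructor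
    · nlinarith [ht.1, ht.2]
    · nlinarith [ht.1, ht.2]
  have cF : Continuous fun p : ℝ × V => F p.2 := hB.smooth.continuous.comp continuous_snd
  have cT : Continuous fun p : ℝ × V => lf e (-1) δ (-1) p.2 :=
    (lf_continuous _ _ _).comp continuous_snd
  have cL : Continuous fun p : ℝ × V => lf e 1 (-δ) (-c) p.2 :=
    (lf_continuous _ _ _).comp continuous_snd
  have cS : Continuous fun p : ℝ × V => lf e 1 0 (-(a₁ + p.1 * (c - a₁))) p.2 :=
    lf_continuous' (A := fun _ => 1) (B := fun _ => 0) (C := fun t => -(a₁ + t * (c - a₁)))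
      continuous_const continuous_const (by fun_prop)
  have hmain := hom_of_dz (fun t => wallF F e c δ (a₁ + t * (c - a₁)))
    (cF.min (cT.max (cL.max cS))) ?_ ?_
  · simp only [zero_mul, add_zero, one_mul, add_sub_cancel] at hmain
    exact hmain
  · obtain ⟨R1, hR1⟩ := hB.bdd.exists_norm_le
    obtain ⟨R2, hR2⟩ := bowl_bdd he hδ a₁
    refine ⟨max R1 R2, fun t ht x hx => ?_⟩
    have hx' : min (F x) (max (lf e (-1) δ (-1) x) (max (lf e 1 (-δ) (-c) x)
      (lf e 1 0 (-(a₁ + t * (c - a₁))) x))) = 0 := hx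
    rcases min_le_iff.1 hx'.le with h1 | h1
    · exact (hR1 x h1).trans (le_max_left _ _)
    · refine (hR2 x ((le_max_left _ _).trans h1) ?_).trans (le_max_right _ _)
      have h2 : lf e 1 0 (-(a₁ + t * (c - a₁))) x ≤ 0 :=
        ((le_max_right _ _).trans (le_max_right _ _)).trans h1
      unfold lf at h2
      have := (hsr t ht).2
      linarith
  · intro t ht x hx
    obtain ⟨hs1, hs2⟩ := hsr t ht
    have hq := qd_nonneg e x
    have hx' : min (F x) (max (lf e (-1) δ (-1) x) (max (lf e 1 (-δ) (-c) x)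
      (lf e 1 0 (-(a₁ + t * (c - a₁))) x))) = 0 := hx
    have hF0 : 0 ≤ F x := hx'.symm.le.trans (min_le_left _ _)
    have hM0 : 0 ≤ max (lf e (-1) δ (-1) x) (max (lf e 1 (-δ) (-c) x)
      (lf e 1 0 (-(a₁ + t * (c - a₁))) x)) := hx'.symm.le.trans (min_le_right _ _)
    have build : ∀ v, DZ (fun _ => F) t x v →
        DZ (fun s y => max (lf e (-1) δ (-1) y) (max (lf e 1 (-δ) (-c) y)
          (lf e 1 0 (-(a₁ + s * (c - a₁))) y))) t x v →
        DZ (fun t => wallF F e c δ (a₁ + t * (c - a₁))) t x v := fun v h1 h2 =>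
      dz_min cF (cT.max (cL.max cS)) h1 h2
    have dS : ∀ α β : ℝ, β < 0 →
        DZ (fun s => lf e 1 0 (-(a₁ + s * (c - a₁)))) t x (α • orth e x + β • e) := by
      intro α β hβ
      refine dz_lf he (A := fun _ => 1) (B := fun _ => 0) (fun s => -(a₁ + s * (c - a₁)))
        continuous_const continuous_const t x α β (fun _ => ?_)
      simpa using hβ
    rcases eq_or_lt_of_le hF0 with hF | hF
    · rcases eq_or_lt_of_le hM0 with hM | hM
      · obtain ⟨hT, hLS⟩ := max_le_iff.1 hM.symm.le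
        obtain ⟨hL, -⟩ := max_le_iff.1 hLS
        have hfl := hB.flat x hF.symm.le
        have hx0 : x ≠ 0 := by
          rintro rfl
          have e1 : qd e (0 : V) = 0 := by
            have := qd_smul_unit he 0
            rwa [zero_smul] at this
          have e2 : max (lf e (-1) δ (-1) (0 : V)) (max (lf e 1 (-δ) (-c) (0 : V))
              (lf e 1 0 (-(a₁ + t * (c - a₁))) (0 : V))) < 0 := by
            refine max_lt ?_ (max_lt ?_ ?_)
            · unfold lf; rw [e1, inner_zero_right]; linarith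
            · unfold lf; rw [e1, inner_zero_right]; linarith
            · unfold lf; rw [e1, inner_zero_right]; linarith
          linarith
        have hh := hB.strict x hF.symm.le hx0
        have hT' : lf e (-1) δ (-1) x < 0 := by
          unfold lf
          linarith
        have hhle : ⟪e, x⟫ ≤ h₀ := by
          apply hB.bowl x hF.symm.le
          unfold lf at hL
          linarith
        have hrad := hB.rad x hF.symm hx0 hhle
        have hlow := hB.low x hF.symm.le hhle
        obtain ⟨ε, hε, hε1, hε2⟩ : ∃ ε : ℝ, 0 < ε ∧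
            (lf e 1 (-δ) (-c) x = 0 → 2 * δ * qd e x < ε) ∧
            ε * -(fderiv ℝ F x e) < fderiv ℝ F x (orth e x) := by
          by_cases hL0 : lf e 1 (-δ) (-c) x = 0
          · obtain ⟨ε, h1, h2, h3⟩ := hB.trans x hF.symm (by unfold lf at hL0; linarith)
            exact ⟨ε, h1, fun _ => h2, h3⟩
          · refine ⟨fderiv ℝ F x (orth e x) / (2 * -(fderiv ℝ F x e)),
              div_pos hrad (by linarith), fun h => absurd h hL0, ?_⟩
            have h1 : 0 < -(fderiv ℝ F x e) := by linarith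
            rw [div_mul_eq_mul_div, div_lt_iff₀ (by linarith)]
            nlinarith
        refine ⟨(-1 : ℝ) • orth e x + (-ε) • e, build _ ?_ ?_⟩
        · refine dz_fun hB.smooth t fun _ => ?_
          rw [Wall1_fd]
          linarith
        · refine dz_max cT (cL.max cS) (dz_of_ne hT'.ne) (dz_max cL cS ?_ ?_)
          · refine dz_static (dz1_lf he _ _ _ x _ _ fun h0 => ?_)
            have := hε1 h0
            linarith
          · exact dS _ _ (by linarith)
      · exact ⟨-gradient F x, build _ (dz_fun hB.smooth t fun _ => Wall1_grad (hB.reg x hF.symm))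
          (dz_of_ne hM.ne')⟩
    · have hM : max (lf e (-1) δ (-1) x) (max (lf e 1 (-δ) (-c) x)
          (lf e 1 0 (-(a₁ + t * (c - a₁))) x)) = 0 := by
        rcases min_choice (F x) (max (lf e (-1) δ (-1) x) (max (lf e 1 (-δ) (-c) x)
          (lf e 1 0 (-(a₁ + t * (c - a₁))) x))) with h1 | h1
        · rw [h1] at hx'
          exact absurd hx' hF.ne'
        · rw [← h1]
          exact hx'
      have dF : ∀ v, DZ (fun _ => F) t x v := fun v => dz_of_ne hF.ne'
      by_cases hT0 : lf e (-1) δ (-1) x = 0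
      · have hL : lf e 1 (-δ) (-c) x ≠ 0 := by
          unfold lf at hT0 ⊢
          intro h
          linarith
        by_cases hS0 : lf e 1 0 (-(a₁ + t * (c - a₁))) x = 0
        · refine ⟨(-1 : ℝ) • orth e x + (-1 : ℝ) • e, build _ (dF _) ?_⟩
          refine dz_max cT (cL.max cS) ?_ (dz_max cL cS (dz_of_ne hL) (dS _ _ (by norm_num)))
          refine dz_static (dz1_lf he _ _ _ x _ _ fun _ => ?_)
          unfold lf at hT0 hS0
          linarith
        · refine ⟨(0 : ℝ) • orth e x + (1 : ℝ) • e, build _ (dF _) ?_⟩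
          refine dz_max cT (cL.max cS) ?_ (dz_max cL cS (dz_of_ne hL) (dz_of_ne hS0))
          refine dz_static (dz1_lf he _ _ _ x _ _ fun _ => ?_)
          linarith
      · refine ⟨(0 : ℝ) • orth e x + (-1 : ℝ) • e, build _ (dF _) ?_⟩
        refine dz_max cT (cL.max cS) (dz_of_ne hT0) (dz_max cL cS ?_ (dS _ _ (by norm_num)))
        refine dz_static (dz1_lf he _ _ _ x _ _ fun _ => ?_)
        linarith

/-- `lf e 1 (-δ) (-c) ≤ lf e 1 0 (-c)` because `0 ≤ δ q` (`funext`, `max_eq_right`). -/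
theorem wall_end {F : V → ℝ} {e : V} {c δ : ℝ} (hδ : 0 < δ) :
    wallF F e c δ c = plateF F e c δ (-1) := by
  funext x
  unfold wallF plateF
  have h1 : lf e 1 (-δ) (-c) x ≤ lf e 1 0 (-c) x := by
    unfold lf
    have := mul_nonneg hδ.le (qd_nonneg e x)
    linarith
  rw [max_eq_right h1]

end Pool.Schoen
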