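import Mathlib
import Pool.Agent.H.MP_6c077c_gt.IxC.BotEx
import Pool.Agent.H.MP_6c077c_gt.IxC.CapClass
import Pool.Agent.H.MP_6c077c_gt.IxC.CapTop
import Pool.Agent.H.MP_6c077c_gt.IxC.Swap
import Pool.Agent.H.MP_6c077c_gt.IxC.Tun0
import Pool.Agent.H.MP_6c077c_gt.IxC.Tun2
import Pool.Agent.H.MP_6c077c_gt.IxC.Wall0
import Pool.Agent.H.MP_6c077c_gt.IxC.Wall1
import Pool.Agent.H.MP_6c077c_gt.IxC.Plate2
import Pool.Agent.H.MP_6c077c_gt.IxC.Trans
import Pool.Agent.H.MP_6c077c_gt.IxB.Final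

/-! Index theorem, second half: the theorem. -/

set_option autoImplicit false

namespace Pool.Schoen

open Filter Set Metric MeasureTheory
open scoped Topology ContDiff RealInnerProductSpace ENNReal

variable {V : Type*} [NormedAddCommGroup V] [InnerProductSpace ℝ V] [FiniteDimensional ℝ V]

/-- The theorem for adapted constants. -/
theorem ix_T3_bot (n : ℕ) (hn3 : 3 ≤ n) (hn : Module.finrank ℝ V = n + 1) {F : V → ℝ} {e : V}
    {c h₀ δ a₀ : ℝ} (hB : Bot F e c h₀ δ a₀)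
    (hMc : IsConnected {x | F x = 0}) (hMl : LiftS {x | F x = 0})
    (P₀ : Finset V) (hP₀ : ∀ x, x ∈ P₀ ↔ Inward F e x ∧ x ≠ 0)
    (hidx : ∀ x ∈ P₀, ∃ k, Idx F e x k ∧ n - 1 ≤ k) : IsBall F := by
  have h1 : a₀ < a₀ + 1 := by linarith
  obtain ⟨P, hP⟩ := cap_class n hn hB P₀ hP₀ hidx (a₀ + 1) h1
  obtain ⟨hc, hl⟩ := cap_top (by omega) hB hMc hMl (a₀ + 1) h1
  have hcap := t1star (-e) (by rw [norm_neg, hB.unit]) P _ hP hc hl
  have hflat : IsBall (flatF F e c δ (a₀ + 1)) := flat_ball hB h1 h1 hcap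
  have ha0 : 0 < a₀ := hB.c_pos.trans (hB.c_lt.trans hB.h_lt)
  have hδ := hB.δ_pos
  -- the final radius
  obtain ⟨r₁, hr₁, hr₁2⟩ : ∃ r₁ : ℝ, 0 < r₁ ∧ δ * r₁ ^ 2 = a₀ + 1 := by
    refine ⟨Real.sqrt ((a₀ + 1) / δ), Real.sqrt_pos.2 (by positivity), ?_⟩
    rw [Real.sq_sqrt (by positivity)]
    field_simp
  obtain ⟨ρ, hρ, hρη, hball⟩ := tun_ball hB h1 (by linarith : a₀ + 1 < a₀ + 2) hflat
    (min 1 r₁) (by positivity)
  have hρ1 : ρ < 1 := hρη.trans_le (min_le_left _ _)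
  have hρr : ρ ≤ r₁ := (hρη.trans_le (min_le_right _ _)).le
  have hc0 := hB.c_pos
  have hw : Hom (tunF F e c δ (a₀ + 1) (a₀ + 1 - ρ) (a₀ + 2 + ρ) ρ (a₀ + 2))
      (tunF F e c δ (a₀ + 1) (a₀ + 1 - ρ) (a₀ + 2 + ρ) r₁ (a₀ + 2)) :=
    tun_widen hB (by linarith) (by linarith) (by linarith) (by linarith) hρ hρr
      (by rw [hr₁2]; linarith)
  have hlo : Hom (tunF F e c δ (a₀ + 1) (a₀ + 1 - ρ) (a₀ + 2 + ρ) r₁ (a₀ + 2))
      (tunF F e c δ (a₀ + 1) (a₀ + 1 - ρ) (a₀ + 2 + ρ) r₁ (a₀ + 1 - ρ)) :=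
    tun_lower hB (by linarith) (by linarith) (by linarith) (by linarith) hr₁
      (by rw [hr₁2]; linarith) (by rw [hr₁2]; linarith)
  have hws := wall_start (a := a₀ + 1) (a₁ := a₀ + 1 - ρ) (b₁ := a₀ + 2 + ρ) (r := r₁) hB
    (by linarith) (by linarith) hlo.good_right
  have hwl : Hom (wallF F e c δ (a₀ + 1 - ρ)) (wallF F e c δ c) :=
    wall_lower hB (by linarith)
  rw [wall_end hδ] at hwl
  have hall := hw.trans (hlo.trans (hws.trans (hwl.trans (plate_remove hB))))
  exact hall.symm.trans hball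

/-- Second half of the index theorem. -/
theorem ix_T3 (n : ℕ) (hn3 : 3 ≤ n) (hn : Module.finrank ℝ V = n + 1) (F : V → ℝ)
    (hF : ContDiff ℝ ∞ F) (hb : Bornology.IsBounded {x | F x ≤ 0})
    (hreg : ∀ x, F x = 0 → gradient F x ≠ 0)
    (hMc : IsConnected {x | F x = 0}) (hMl : LiftS {x | F x = 0}) (e : V) (he : ‖e‖ = 1)
    (hidx : ∀ x, Inward F e x → ∃ k, Idx F e x k ∧ (k = 0 ∨ n - 1 ≤ k)) : IsBall F := by
  classical
  obtain ⟨m, hmI, hmP, hmin, hother⟩ := ix_one_min n hn3 hn F hF hb hreg hMc e he hidx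
  obtain ⟨hg, hI, hPo, hId⟩ := translate_facts F e m
  have hfin := ix_finite F hF hb hreg e he (fun x hx => by
    obtain ⟨k, hk, _⟩ := hidx x hx
    exact ⟨k, hk⟩)
  have hF' : ContDiff ℝ ∞ fun x => F (x + m) := hF.comp (contDiff_id.add contDiff_const)
  have hb' : Bornology.IsBounded {x | F (x + m) ≤ 0} := by
    obtain ⟨R, hR⟩ := hb.subset_closedBall (0 : V)
    refine (isBounded_closedBall (x := (0 : V)) (r := R + ‖m‖)).subset fun x hx => ?_
    have h1 : x + m ∈ closedBall (0 : V) R := hR hx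
    rw [mem_closedBall_zero_iff] at h1 ⊢
    calc ‖x‖ = ‖(x + m) - m‖ := by rw [add_sub_cancel_right]
      _ ≤ ‖x + m‖ + ‖m‖ := norm_sub_le _ _
      _ ≤ R + ‖m‖ := by linarith
  have hreg' : ∀ x, F (x + m) = 0 → gradient (fun y => F (y + m)) x ≠ 0 := by
    intro x hx
    rw [hg x]
    exact hreg _ hx
  obtain ⟨c, h₀, δ, a₀, hB⟩ := bot_exists (fun x => F (x + m)) hF' hb' hreg' e he
    ((hI 0).2 (by rw [zero_add]; exact hmI)) ((hPo 0).2 (by rw [zero_add]; exact hmP)) (by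
      intro x hx hx0
      have h1 := hmin (x + m) hx (by simpa using hx0)
      rw [inner_add_left] at h1
      rw [real_inner_comm]
      linarith)
  have himg : {x | F (x + m) = 0} = (fun x => x - m) '' {x | F x = 0} := by
    ext x
    constructor
    · intro hx
      exact ⟨x + m, hx, add_sub_cancel_right x m⟩
    · rintro ⟨y, hy, rfl⟩
      show F (y - m + m) = 0
      rw [sub_add_cancel]
      exact hy
  have hMc' : IsConnected {x | F (x + m) = 0} := by
    rw [himg]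
    exact hMc.image _ (by fun_prop)
  have hMl' : LiftS {x | F (x + m) = 0} := by
    refine LiftS.homeo (A := {x | F x = 0}) ?_ hMl
    exact
      { toFun := fun x => ⟨x.1 - m, by
          show F (x.1 - m + m) = 0
          rw [sub_add_cancel]
          exact x.2⟩
        invFun := fun x => ⟨x.1 + m, x.2⟩
        left_inv := fun x => Subtype.ext (sub_add_cancel x.1 m)
        right_inv := fun x => Subtype.ext (add_sub_cancel_right x.1 m)
        continuous_toFun := by fun_prop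
        continuous_invFun := by fun_prop }
  have hball : IsBall fun x => F (x + m) := by
    refine ix_T3_bot n hn3 hn hB hMc' hMl'
      ((hfin.toFinset.image fun x => x - m).erase 0) ?_ ?_
    · intro x
      rw [Finset.mem_erase, Finset.mem_image, hI x]
      constructor
      · rintro ⟨h0, y, hy, rfl⟩
        have hy' : Inward F e y := by simpa using hy
        exact ⟨by simpa using hy', h0⟩
      · rintro ⟨h1, h2⟩
        exact ⟨h2, x + m, by simpa using h1, by simp⟩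
    · intro x hx
      rw [Finset.mem_erase, Finset.mem_image] at hx
      obtain ⟨h0, y, hy, rfl⟩ := hx
      have hy' : Inward F e y := by simpa using hy
      obtain ⟨k, hk, hk'⟩ := hother y hy' (fun h => h0 (by rw [h, sub_self]))
      exact ⟨k, (hId _ _).2 (by simpa using hk), hk'⟩
  exact (hom_translate F hF hb hreg m).trans hball

/-- The second half of the curvature theorem. -/
theorem ix_half_two [MeasurableSpace V] [BorelSpace V] (n : ℕ) (hn3 : 3 ≤ n)
    (hn : Module.finrank ℝ V = n + 1) (F : V → ℝ) (hF : ContDiff ℝ ∞ F)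
    (hb : Bornology.IsBounded {x | F x ≤ 0}) (hreg : ∀ x, F x = 0 → gradient F x ≠ 0)
    (hMc : IsConnected {x | F x = 0}) (hMl : LiftS {x | F x = 0})
    (hint : ∫⁻ x in {x | F x = 0 ∧ 1 ≤ nneg F x ∧ nneg F x + 2 ≤ n},
      ENNReal.ofReal |gaussK F x| ∂μH[(n : ℝ)] < μH[(n : ℝ)] (sphere (0 : V) 1)) :
    Carries {x : V | F x = 0} (sphere (0 : V) 1) := by
  obtain ⟨e, he, hidx⟩ := ix_direction_two n hn F hF hreg (Final_compact hF.continuous hb) hint
  exact carries_of_isBall F hF (ix_T3 n hn3 hn F hF hb hreg hMc hMl e he hidx)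

end Pool.Schoen
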