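import Mathlib
import Pool.Agent.H.MP_6c077c_gt.IxC.T3

/-! Index theorem: the conformal gap theorem with the double constant, dimension three. -/

set_option autoImplicit false

namespace Pool.Schoen

open Filter Set Metric MeasureTheory
open scoped Topology ContDiff RealInnerProductSpace ENNReal

variable {V : Type*} [NormedAddCommGroup V] [InnerProductSpace ℝ V] [FiniteDimensional ℝ V]
  [MeasurableSpace V] [BorelSpace V]

/-- the points of zero curvature are a closed set -/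
private theorem Gap_zero_closed (F : V → ℝ) (hF : ContDiff ℝ ∞ F)
    (hreg : ∀ x, F x = 0 → gradient F x ≠ 0) (hK : IsCompact {x | F x = 0}) :
    IsClosed ({x | F x = 0} ∩ gaussK F ⁻¹' {0}) := by
  have : ProperSpace V := FiniteDimensional.proper ℝ V
  have hF2 : ContDiff ℝ 2 F := hF.of_le (by norm_cast)
  have hgc : ContinuousOn (gaussK F) {x | F x = 0} := fun x hx =>
    (gaussK_continuousAt F hF2 x (hreg x hx)).continuousWithinAt
  exact hgc.preimage_isClosed_of_isClosed hK.isClosed isClosed_singleton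

/-- the points of zero curvature do not contribute -/
private theorem Gap_drop (n : ℕ) (F : V → ℝ) (hF : ContDiff ℝ ∞ F)
    (hreg : ∀ x, F x = 0 → gradient F x ≠ 0) (hK : IsCompact {x | F x = 0}) (S : Set V)
    (hS : S ⊆ {x | F x = 0}) :
    ∫⁻ x in S, ENNReal.ofReal |gaussK F x| ∂μH[(n : ℝ)] ≤
      ∫⁻ x in S \ ({x | F x = 0} ∩ gaussK F ⁻¹' {0}), ENNReal.ofReal |gaussK F x|
        ∂μH[(n : ℝ)] := by
  have hZ0 := Gap_zero_closed F hF hreg hK
  have e1 : ∫⁻ x in S, ENNReal.ofReal |gaussK F x| ∂μH[((n : ℕ) : ℝ)] ≤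
      ∫⁻ x in S \ ({x | F x = 0} ∩ gaussK F ⁻¹' {0}), ENNReal.ofReal |gaussK F x|
        ∂μH[((n : ℕ) : ℝ)] +
      ∫⁻ x in ({x | F x = 0} ∩ gaussK F ⁻¹' {0}), ENNReal.ofReal |gaussK F x|
        ∂μH[((n : ℕ) : ℝ)] := by
    refine le_trans (lintegral_mono_set ?_) (lintegral_union_le _ _ _)
    intro x hx
    by_cases h : x ∈ ({x | F x = 0} ∩ gaussK F ⁻¹' {0})
    · exact Or.inr h
    · exact Or.inl ⟨hx, h⟩
  have e2 : ∫⁻ x in ({x | F x = 0} ∩ gaussK F ⁻¹' {0}), ENNReal.ofReal |gaussK F x|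
        ∂μH[((n : ℕ) : ℝ)] = 0 := by
    have e3 : ∫⁻ x in ({x | F x = 0} ∩ gaussK F ⁻¹' {0}), ENNReal.ofReal |gaussK F x|
        ∂μH[((n : ℕ) : ℝ)] ≤ ∫⁻ x in ({x | F x = 0} ∩ gaussK F ⁻¹' {0}), 0
        ∂μH[((n : ℕ) : ℝ)] := by
      refine setLIntegral_mono' hZ0.measurableSet ?_
      rintro x ⟨-, hx⟩
      have hx' : gaussK F x = 0 := hx
      rw [hx']
      simp
    simpa using e3
  rw [e2, add_zero] at e1
  exact e1

omit [MeasurableSpace V] [BorelSpace V] in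
private theorem Gap_grad (F : V → ℝ) (x : V) :
    gradient (fun y => -F y) x = -gradient F x := by
  unfold gradient
  rw [fderiv_fun_neg, map_neg]

/-- The conformal gap theorem with the double constant. -/
theorem ix_gap (hn : Module.finrank ℝ V = 3 + 1) (F : V → ℝ) (hF : ContDiff ℝ ∞ F)
    (hb : Bornology.IsBounded {x | F x ≤ 0}) (hreg : ∀ x, F x = 0 → gradient F x ≠ 0)
    (hMc : IsConnected {x | F x = 0}) (hMl : LiftS {x | F x = 0})
    (hint : ∫⁻ x in {x | F x = 0}, ENNReal.ofReal (cgT (2 + 1) (shape F x) ^ (2 + 1))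
        ∂μH[((3 : ℕ) : ℝ)] <
      ENNReal.ofReal (((2 : ℕ) : ℝ) * Real.sqrt ((((2 : ℕ) : ℝ) + 1) / ((2 : ℕ) : ℝ)) ^ (2 + 1)) *
        (2 * μH[((3 : ℕ) : ℝ)] (sphere (0 : V) 1))) :
    Carries {x | F x = 0} (sphere (0 : V) 1) := by
  have : ProperSpace V := FiniteDimensional.proper ℝ V
  have hK := Final_compact hF.continuous hb
  obtain ⟨Z0, hZ0⟩ : ∃ Z, Z = {x | F x = 0} ∩ gaussK F ⁻¹' {0} := ⟨_, rfl⟩
  have hZ0c : IsClosed Z0 := by
    rw [hZ0]
    exact Gap_zero_closed F hF hreg hK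
  -- the two bad parts
  obtain ⟨G, hG⟩ : ∃ G : V → ℝ, G = fun y => -F y := ⟨_, rfl⟩
  have hGs : ContDiff ℝ ∞ G := by rw [hG]; exact hF.neg
  have hG0 : ∀ x, G x = 0 ↔ F x = 0 := by
    intro x
    rw [hG]
    exact neg_eq_zero
  have hGM : {x | G x = 0} = {x | F x = 0} := by
    ext x
    exact hG0 x
  have hGreg : ∀ x, G x = 0 → gradient G x ≠ 0 := by
    intro x hx
    rw [hG, Gap_grad]
    exact neg_ne_zero.2 (hreg x ((hG0 x).1 hx))
  have hGK : IsCompact {x | G x = 0} := by rw [hGM]; exact hK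
  have hA := (ixBad_closed F hF hreg hK).measurableSet.diff hZ0c.measurableSet
  have hB := (ixBad_closed G hGs hGreg hGK).measurableSet.diff hZ0c.measurableSet
  have hKG : ∀ x, F x = 0 → x ∉ Z0 → gaussK F x ≠ 0 ∧ gaussK G x ≠ 0 ∧
      nneg G x + nneg F x = 3 := by
    intro x hx hxZ
    have h1 : gaussK F x ≠ 0 := fun h => hxZ (by rw [hZ0]; exact ⟨hx, h⟩)
    have h2 : |gaussK G x| = |gaussK F x| := by rw [hG]; exact gaussK_neg 3 hn F hF x
    have h3 : gaussK G x ≠ 0 := by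
      intro h
      rw [h, abs_zero] at h2
      exact h1 (abs_eq_zero.1 h2.symm)
    refine ⟨h1, h3, ?_⟩
    rw [hG]
    exact nneg_neg 3 hn F hF x (hreg x hx) h1
  -- values of the number of negative curvatures
  have hAv : ∀ x, x ∈ ixBad F \ Z0 ↔ F x = 0 ∧ x ∉ Z0 ∧ nneg F x = 2 := by
    intro x
    constructor
    · rintro ⟨h1, h2⟩
      have h3 : F x = 0 := h1.1
      obtain ⟨k1, k2, k3⟩ := hKG x h3 h2
      have h4 := (ixBad_iff 3 hn F hF x h3 (hreg x h3) k1).1 h1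
      exact ⟨h3, h2, by omega⟩
    · rintro ⟨h1, h2, h3⟩
      obtain ⟨k1, k2, k3⟩ := hKG x h1 h2
      exact ⟨(ixBad_iff 3 hn F hF x h1 (hreg x h1) k1).2 (by omega), h2⟩
  have hBv : ∀ x, x ∈ ixBad G \ Z0 ↔ F x = 0 ∧ x ∉ Z0 ∧ nneg F x = 1 := by
    intro x
    constructor
    · rintro ⟨h1, h2⟩
      have h3 : F x = 0 := (hG0 x).1 h1.1
      obtain ⟨k1, k2, k3⟩ := hKG x h3 h2
      have h4 := (ixBad_iff 3 hn G hGs x h1.1 (hGreg x h1.1) k2).1 h1
      exact ⟨h3, h2, by omega⟩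
    · rintro ⟨h1, h2, h3⟩
      obtain ⟨k1, k2, k3⟩ := hKG x h1 h2
      exact ⟨(ixBad_iff 3 hn G hGs x ((hG0 x).2 h1) (hGreg x ((hG0 x).2 h1)) k2).2 (by omega), h2⟩
  by_contra hcon
  set S : ℝ≥0∞ := μH[((3 : ℕ) : ℝ)] (sphere (0 : V) 1) with hS
  -- both integrals are large
  have h1 : S ≤ ∫⁻ x in ixBad F \ Z0, ENNReal.ofReal |gaussK F x| ∂μH[((3 : ℕ) : ℝ)] := by
    by_contra hlt
    push Not at hlt
    apply hcon
    refine ix_half_one 3 le_rfl hn F hF hb hreg hMc hMl (lt_of_le_of_lt ?_ hlt)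
    refine (Gap_drop 3 F hF hreg hK _ (fun x hx => hx.1)).trans (lintegral_mono_set ?_)
    rintro x ⟨⟨h2, h3, h4⟩, h5⟩
    rw [← hZ0] at h5
    exact (hAv x).2 ⟨h2, h5, by omega⟩
  have h2 : S ≤ ∫⁻ x in ixBad G \ Z0, ENNReal.ofReal |gaussK F x| ∂μH[((3 : ℕ) : ℝ)] := by
    by_contra hlt
    push Not at hlt
    apply hcon
    refine ix_half_two 3 le_rfl hn F hF hb hreg hMc hMl (lt_of_le_of_lt ?_ hlt)
    refine (Gap_drop 3 F hF hreg hK _ (fun x hx => hx.1)).trans (lintegral_mono_set ?_)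
    rintro x ⟨⟨h2, h3, h4⟩, h5⟩
    rw [← hZ0] at h5
    exact (hBv x).2 ⟨h2, h5, by omega⟩
  have hdis : Disjoint (ixBad F \ Z0) (ixBad G \ Z0) := by
    rw [Set.disjoint_left]
    intro x hx hx'
    have e1 := ((hAv x).1 hx).2.2
    have e2 := ((hBv x).1 hx').2.2
    omega
  have h3 : 2 * S ≤ ∫⁻ x in (ixBad F \ Z0) ∪ (ixBad G \ Z0), ENNReal.ofReal |gaussK F x|
      ∂μH[((3 : ℕ) : ℝ)] := by
    rw [lintegral_union hB hdis, two_mul]
    exact add_le_add h1 h2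
  set c : ℝ := ((2 : ℕ) : ℝ) * Real.sqrt ((((2 : ℕ) : ℝ) + 1) / ((2 : ℕ) : ℝ)) ^ (2 + 1) with hc
  have hc0 : 0 < c := by
    rw [hc]
    have : 0 < Real.sqrt ((((2 : ℕ) : ℝ) + 1) / ((2 : ℕ) : ℝ)) := Real.sqrt_pos.2 (by positivity)
    positivity
  have hsub : (ixBad F \ Z0) ∪ (ixBad G \ Z0) ⊆ {x | F x = 0} := by
    rintro x (hx | hx)
    · exact ((hAv x).1 hx).1
    · exact ((hBv x).1 hx).1
  have hind : ∀ x ∈ (ixBad F \ Z0) ∪ (ixBad G \ Z0), x ∈ levelBad F := by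
    intro x hx
    have hxF := hsub hx
    have hxn : x ∉ Z0 := by
      rcases hx with h | h
      · exact h.2
      · exact h.2
    have hv : nneg F x = 2 ∨ nneg F x = 1 := by
      rcases hx with h | h
      · exact Or.inl ((hAv x).1 h).2.2
      · exact Or.inr ((hBv x).1 h).2.2
    obtain ⟨b, κ, hb0, hbk, hbK, hbn⟩ := ix_spec 3 hn F hF x (hreg x hxF)
    have hpr : ∀ i, ⟪shape F x (b (some i)), b (some i)⟫ = κ i := by
      intro i
      rw [hbk, real_inner_smul_left, real_inner_self_eq_norm_sq, b.norm_eq_one]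
      ring
    have hne : ∀ i, b (some i) ≠ 0 := by
      intro i h
      have := b.norm_eq_one (some i)
      rw [h, norm_zero] at this
      exact zero_ne_one this
    have hor : ∀ i, ⟪b (some i), nrm F x⟫ = 0 := by
      intro i
      rw [← hb0]
      exact b.inner_eq_zero (by simp)
    refine ⟨hxF, ?_, ?_⟩
    · -- a negative curvature
      have : 0 < (Finset.univ.filter fun i => κ i < 0).card := by
        rw [← hbn]
        rcases hv with h | h <;> omega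
      obtain ⟨i, hi⟩ := Finset.card_pos.1 this
      rw [Finset.mem_filter] at hi
      exact ⟨b (some i), hne i, hor i, by rw [hpr]; exact hi.2.le⟩
    · have : ∃ i, ¬ κ i < 0 := by
        by_contra hall
        push Not at hall
        have h5 : (Finset.univ.filter fun i => κ i < 0) = Finset.univ := by
          ext i
          simp [hall i]
        rw [h5, Finset.card_univ, Fintype.card_fin] at hbn
        rcases hv with h | h <;> omega
      obtain ⟨i, hi⟩ := this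
      exact ⟨b (some i), hne i, hor i, by rw [hpr]; exact not_lt.1 hi⟩
  have h4 : ∀ x ∈ (ixBad F \ Z0) ∪ (ixBad G \ Z0), ENNReal.ofReal c *
      ENNReal.ofReal |gaussK F x| ≤ ENNReal.ofReal (cgT (2 + 1) (shape F x) ^ (2 + 1)) := by
    intro x hx
    obtain ⟨hx0, hx1, hx2⟩ := hind x hx
    rw [← ENNReal.ofReal_mul hc0.le]
    refine ENNReal.ofReal_le_ofReal ?_
    have := cg_oper 2 (by norm_num) hn (shape F x) (level_symm F hF x) (nrm F x)
      (norm_nrm F x (hreg x hx0)) (level_kernel F x (hreg x hx0)) hx1 hx2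
    rw [← hc] at this
    rw [mul_comm]
    exact this
  refine absurd hint (not_lt.2 ?_)
  calc ENNReal.ofReal c * (2 * S)
      ≤ ENNReal.ofReal c * ∫⁻ x in (ixBad F \ Z0) ∪ (ixBad G \ Z0), ENNReal.ofReal |gaussK F x|
          ∂μH[((3 : ℕ) : ℝ)] := by gcongr
    _ = ∫⁻ x in (ixBad F \ Z0) ∪ (ixBad G \ Z0), ENNReal.ofReal c * ENNReal.ofReal |gaussK F x|
          ∂μH[((3 : ℕ) : ℝ)] := by
        rw [lintegral_const_mul' _ _ ENNReal.ofReal_ne_top]
    _ ≤ ∫⁻ x in (ixBad F \ Z0) ∪ (ixBad G \ Z0),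
          ENNReal.ofReal (cgT (2 + 1) (shape F x) ^ (2 + 1)) ∂μH[((3 : ℕ) : ℝ)] :=
        setLIntegral_mono' (hA.union hB) h4
    _ ≤ ∫⁻ x in {x | F x = 0}, ENNReal.ofReal (cgT (2 + 1) (shape F x) ^ (2 + 1))
          ∂μH[((3 : ℕ) : ℝ)] := lintegral_mono_set hsub

end Pool.Schoen
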